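import Pool.Agent.V8H84.GL.Near

/-! Near-uniform systems with four times as many points. -/

namespace Pool.Agent.V8H84.GL

open Finset Module Pool.Agent.TH176.Nag Pool.Agent.TH603.Sur Pool.Agent.TH763.DB
open Pool.Agent.TH641.UM Pool.Agent.TH2.NU Pool.Agent.H932R3

theorem sum_min (h c : ℕ) : ∀ N : ℕ, ∑ j ∈ range N, min h (c - h * j) = min c (h * N)
  | 0 => by simp
  | N + 1 => by
    rw [sum_range_succ, sum_min h c N]
    obtain ⟨a, ha⟩ : ∃ a, a = h * N := ⟨_, rfl⟩
    have e : h * (N + 1) = a + h := by rw [ha]; ring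
    rw [e, ← ha]
    omega

/-- a group of four points with `c` points of the larger multiplicity -/
theorem ms_four (m : ℕ) : ∀ c : ℕ, c ≤ 4 →
    ms (fun k : Fin 4 => if (k : ℕ) < c then m + 1 else m) = c • {m + 1} + (4 - c) • {m} := by
  intro c hc
  have h := ms_near (n := 4) (m := m) (univ.filter fun k : Fin 4 => (k : ℕ) < c)
  have hcard : (univ.filter fun k : Fin 4 => (k : ℕ) < c).card = c := by
    interval_cases c <;> rfl
  rw [hcard] at h
  rw [← h]
  congr 1
  funext k
  simp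

/-- all near-uniform vectors with four times as many points -/
theorem near_mul4 {N d : ℕ} (H : ∀ b : ℕ, 1 ≤ b → ∀ u : Fin N → ℕ, (∀ j, u j = b ∨ u j = b + 1) →
      Emp u (TZ d) ∨ Sur u (TZ d)) {m : ℕ} (hm : 1 ≤ m) {w : Fin (4 * N) → ℕ}
    (hw : ∀ i, w i = m ∨ w i = m + 1) : Emp w (TZ d) ∨ Sur w (TZ d) := by
  classical
  obtain ⟨U, hU⟩ : ∃ U : Finset (Fin (4 * N)), U = univ.filter fun i => w i = m + 1 := ⟨_, rfl⟩
  have hwU : w = fun i => if i ∈ U then m + 1 else m := by
    funext i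
    have h1 : i ∈ U ↔ w i = m + 1 := by rw [hU]; simp
    by_cases hi : i ∈ U
    · rw [if_pos hi]
      exact h1.1 hi
    · rw [if_neg hi]
      rcases hw i with h | h
      · exact h
      · exact absurd (h1.2 h) hi
  have hUc : U.card ≤ 4 * N := by
    have := card_le_univ U
    rwa [Fintype.card_fin] at this
  have hmw : ms w = U.card • {m + 1} + (4 * N - U.card) • {m} := by
    rw [hwU, ms_near]
  obtain ⟨c, hc⟩ : ∃ c, c = U.card := ⟨_, rfl⟩
  rw [← hc] at hUc hmw
  obtain ⟨lo, h, b, hb1, hlow, hhigh, hlh, hwin⟩ : ∃ lo h b : ℕ, 1 ≤ b ∧ N * lo ≤ c ∧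
      c - N * lo ≤ h * N ∧ lo + h ≤ 4 ∧ ∀ x, lo ≤ x → x ≤ lo + h →
        b * (b + 1) ≤ (m + 1) * (4 * m + 2 * x) ∧ (m + 1) * (4 * m + 2 * x) ≤ (b + 1) * (b + 2) := by
    rcases le_total c N with h1 | h1
    · refine ⟨0, 1, 2 * m, by omega, by omega, by omega, by omega, fun x _ hx => ?_⟩
      constructor <;> nlinarith
    · rcases le_total c (3 * N) with h2 | h2
      · refine ⟨1, 2, 2 * m + 1, by omega, by omega, by omega, by omega, fun x hx hx' => ?_⟩
        constructor <;> nlinarith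
      · refine ⟨3, 1, 2 * m + 2, by omega, by omega, by omega, by omega, fun x hx hx' => ?_⟩
        constructor <;> nlinarith
  obtain ⟨cc, hcc⟩ : ∃ cc : Fin N → ℕ, cc = fun j : Fin N => lo + min h (c - N * lo - h * (j : ℕ)) :=
    ⟨_, rfl⟩
  have hcc1 : ∀ j, lo ≤ cc j ∧ cc j ≤ lo + h := by
    intro j
    rw [hcc]
    exact ⟨Nat.le_add_right _ _, Nat.add_le_add_left (min_le_left _ _) _⟩
  have hccs : ∑ j, cc j = c := by
    rw [hcc]
    have h1 : ∑ j : Fin N, (lo + min h (c - N * lo - h * (j : ℕ))) =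
        ∑ j ∈ range N, (lo + min h (c - N * lo - h * j)) :=
      Fin.sum_univ_eq_sum_range (fun j => lo + min h (c - N * lo - h * j)) N
    rw [h1, sum_add_distrib, sum_min, sum_const, card_range, smul_eq_mul, min_eq_left hhigh]
    omega
  obtain ⟨R, hR⟩ : ∃ R : Fin N × Fin 4 → ℕ, R = fun x => if (x.2 : ℕ) < cc x.1 then m + 1 else m :=
    ⟨_, rfl⟩
  have hmR : ms R = ms w := by
    rw [hmw]
    have h1 : ms R = ∑ j : Fin N, ms (fun k : Fin 4 => R (j, k)) := by
      unfold ms
      rw [Fintype.sum_prod_type]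
    rw [h1, hR]
    have h2 : ∀ j : Fin N, ms (fun k : Fin 4 => (fun x : Fin N × Fin 4 =>
        if (x.2 : ℕ) < cc x.1 then m + 1 else m) (j, k)) = cc j • {m + 1} + (4 - cc j) • {m} :=
      fun j => ms_four m (cc j) (by have := (hcc1 j).2; omega)
    rw [sum_congr rfl fun j _ => h2 j, sum_add_distrib, ← sum_smul, ← sum_smul, hccs]
    congr 2
    have h3 : ∑ j, (4 - cc j) + ∑ j, cc j = 4 * N := by
      rw [← sum_add_distrib, sum_congr rfl fun j _ => show 4 - cc j + cc j = 4 from by
        have := (hcc1 j).2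
        omega, sum_const, card_univ, Fintype.card_fin, smul_eq_mul, mul_comm]
    omega
  refine nd_congr hmR ?_
  refine superpose (σ := Fin N) Prod.fst (b := fun _ => b) (fun j => ?_) (fun u hu => H b hb1 u hu)
  have e : Fin 4 ≃ {i : Fin N × Fin 4 // i.1 = j} :=
    { toFun := fun k => ⟨(j, k), rfl⟩
      invFun := fun x => x.1.2
      left_inv := fun k => rfl
      right_inv := fun x => by
        obtain ⟨⟨j', k⟩, hx⟩ := x
        simp only at hx
        subst hx
        rfl }
  have hnd : ∀ d' : ℕ, Emp (fun i : {i : Fin N × Fin 4 // i.1 = j} => R i) (TZ d') ∨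
      Sur (fun i : {i : Fin N × Fin 4 // i.1 = j} => R i) (TZ d') := by
    intro d'
    refine nd_congr (ms_equiv e _) ?_
    refine near_four (m := m) fun i => ?_
    rw [hR]
    simp only
    split_ifs
    · exact Or.inr rfl
    · exact Or.inl rfl
  have hcond : 2 * cond (fun i : {i : Fin N × Fin 4 // i.1 = j} => R i) =
      (m + 1) * (4 * m + 2 * cc j) := by
    let e' : Fin 4 ≃ {i : Fin N × Fin 4 // i.1 = j} :=
      { toFun := fun k => ⟨(j, k), rfl⟩
        invFun := fun x => x.1.2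
        left_inv := fun k => rfl
        right_inv := fun x => by
          obtain ⟨⟨j', k⟩, hx⟩ := x
          simp only at hx
          subst hx
          rfl }
    have h1 : cond (fun i : {i : Fin N × Fin 4 // i.1 = j} => R i) =
        cond (fun k : Fin 4 => if (k : ℕ) < cc j then m + 1 else m) := by
      unfold Pool.Agent.TH603.Sur.cond
      refine (Fintype.sum_equiv e' _ _ fun k => ?_).symm
      rw [hR]
      rfl
    rw [h1]
    have h2 := two_ch m
    have h3 := two_ch (m + 1)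
    have h4 : cc j ≤ 4 := by have := (hcc1 j).2; omega
    unfold Pool.Agent.TH603.Sur.cond
    rw [Fin.sum_univ_four]
    obtain ⟨y, hy⟩ : ∃ y, y = cc j := ⟨_, rfl⟩
    rw [← hy] at h4 ⊢
    have e1 : m + 1 + 1 = m + 2 := rfl
    rw [e1] at h3
    interval_cases y <;> simp <;> nlinarith
  have h5 := hwin (cc j) (hcc1 j).1 (hcc1 j).2
  have h6 := two_ch b
  have h7 := two_ch (b + 1)
  have e7 : b + 1 + 1 = b + 2 := rfl
  rw [e7] at h7
  refine cluster_of hb1 (by omega) (by omega) (hnd _) (hnd _)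

end Pool.Agent.V8H84.GL
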