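import Pool.Agent.V8H84.GL.Groups
import Pool.Agent.V8H84.GL.Mul4
import Pool.Agent.TH442.NF.HH

/-! Superposition for groups given by a colouring of the points. -/

namespace Pool.Agent.V8H84.GL

open Finset Module Pool.Agent.TH176.Nag Pool.Agent.TH603.Sur Pool.Agent.TH763.DB
open Pool.Agent.TH641.UM Pool.Agent.TH2.NU Pool.Agent.H932R3

/-- emptiness or independence -/
def NDw {ι : Type} [Fintype ι] (w : ι → ℕ) (d : ℕ) : Prop := Emp w (TZ d) ∨ Sur w (TZ d)

/-- the restriction of the multiplicities to a group: zero extension and subtype -/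
theorem nd_sub {n : ℕ} {w : Fin n → ℕ} {S : Finset (Fin n)} {p : Fin n → Prop} [DecidablePred p]
    (hp : ∀ i, p i ↔ i ∈ S) {d : ℕ} (h : NDw (fun i => if i ∈ S then w i else 0) d) :
    NDw (fun i : {i // p i} => w i) d := by
  rcases h with h | h
  · left
    refine Emp_drop (fun i : {i // p i} => (i : Fin n)) ?_ h
    intro i
    by_cases hi : i ∈ S
    · right
      exact ⟨⟨i, (hp i).2 hi⟩, rfl, by rw [if_pos hi]⟩
    · left
      rw [if_neg hi]
  · right
    obtain ⟨T, h1, h2, h3⟩ := h
    refine ⟨T, h1, ?_, Emp_drop (fun i : {i // p i} => (i : Fin n)) ?_ h3⟩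
    · rw [h2]
      unfold Pool.Agent.TH603.Sur.cond
      rw [← sum_subtype S (fun i => (hp i).symm) (fun i => (w i + 1).choose 2)]
      rw [← sum_subset (subset_univ S)]
      · refine sum_congr rfl fun i hi => ?_
        simp only [if_pos hi]
      · intro i _ hi
        simp only [if_neg hi]
        rfl
    · intro i
      by_cases hi : i ∈ S
      · right
        exact ⟨⟨i, (hp i).2 hi⟩, rfl, by rw [if_pos hi]⟩
      · left
        rw [if_neg hi]

theorem cond_sub {n : ℕ} {w : Fin n → ℕ} {S : Finset (Fin n)} {p : Fin n → Prop} [DecidablePred p]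
    (hp : ∀ i, p i ↔ i ∈ S) : cond (fun i : {i // p i} => w i) = ∑ i ∈ S, (w i + 1).choose 2 := by
  unfold Pool.Agent.TH603.Sur.cond
  exact (sum_subtype S (fun i => (hp i).symm) (fun i => (w i + 1).choose 2)).symm

/-- **Superposition with spectators.** The groups in `s` consist of one point of multiplicity
`b j`. -/
theorem superpose2 {ι σ : Type} [Fintype ι] [Fintype σ] [DecidableEq σ] {w : ι → ℕ} (g : ι → σ)
    {b : σ → ℕ} {d : ℕ} (s : σ → Prop) (hs : ∀ j, s j → ms (fun i : {i // g i = j} => w i) = {b j})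
    (hR : ∀ j, ¬ s j → Emp (fun i : {i // g i = j} => w i) (↑(Lo (b j)) : Set (ℤ × ℤ)) ∧
      Sur (fun i : {i // g i = j} => w i) (TZ (b j)))
    (hbase : ∀ u : σ → ℕ, (∀ j, u j = b j ∨ (u j = b j + 1 ∧ ¬ s j)) →
      Emp u (TZ d) ∨ Sur u (TZ d)) :
    Emp w (TZ d) ∨ Sur w (TZ d) := by
  have key : ∀ A : Finset σ, ∀ u : σ → ℕ, (∀ j, u j = b j ∨ (u j = b j + 1 ∧ ¬ s j)) →
      ND (∑ j ∈ A, ms (fun i : {i // g i = j} => w i) + ∑ j ∈ Aᶜ, ({u j} : Multiset ℕ)) d := by
    intro A
    induction A using Finset.induction_on with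
    | empty =>
      intro u hu
      rw [sum_empty, zero_add, compl_empty]
      exact (ND_iff rfl d).2 (hbase u hu)
    | insert a A ha ih =>
      intro u hu
      have hac : a ∈ Aᶜ := mem_compl.2 ha
      have e1 : ∀ c : ℕ, ∑ j ∈ Aᶜ, ({Function.update u a c j} : Multiset ℕ) =
          {c} + ∑ j ∈ (insert a A)ᶜ, ({u j} : Multiset ℕ) := by
        intro c
        rw [← add_sum_erase _ _ hac, Function.update_self]
        congr 1
        have e2 : Aᶜ.erase a = (insert a A)ᶜ := by
          ext x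
          simp only [mem_erase, mem_compl, mem_insert, not_or]
        rw [e2]
        refine sum_congr rfl fun j hj => ?_
        rw [Function.update_of_ne]
        rintro rfl
        simp at hj
      have h3 : ∀ c : ℕ, (c = b a ∨ (c = b a + 1 ∧ ¬ s a)) →
          ND ({c} + (∑ j ∈ A, ms (fun i : {i // g i = j} => w i) +
          ∑ j ∈ (insert a A)ᶜ, ({u j} : Multiset ℕ))) d := by
        intro c hc
        have h4 := ih (Function.update u a c) (by
          intro j
          by_cases hj : j = a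
          · subst hj
            rw [Function.update_self]
            exact hc
          · rw [Function.update_of_ne hj]
            exact hu j)
        rw [e1 c] at h4
        have e3 : ∑ j ∈ A, ms (fun i : {i // g i = j} => w i) +
            ({c} + ∑ j ∈ (insert a A)ᶜ, ({u j} : Multiset ℕ)) =
            {c} + (∑ j ∈ A, ms (fun i : {i // g i = j} => w i) +
              ∑ j ∈ (insert a A)ᶜ, ({u j} : Multiset ℕ)) := by abel
        rw [e3] at h4
        exact h4
      rw [sum_insert ha, add_assoc]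
      by_cases hsa : s a
      · rw [hs a hsa]
        exact h3 _ (Or.inl rfl)
      · refine glueM (b := b a) ?_ ?_ (h3 _ (Or.inl rfl)) (h3 _ (Or.inr ⟨rfl, hsa⟩))
        · exact (EmpM_ms _ _).2 (hR a hsa).1
        · exact (SurM_ms _ _).2 (hR a hsa).2
  have h1 := key univ b (fun j => Or.inl rfl)
  rw [compl_univ, sum_empty, add_zero] at h1
  have e : ms w = ∑ j, ms (fun i : {i // g i = j} => w i) := by
    unfold ms
    rw [← Fintype.sum_sigma (fun x : Σ j, {i // g i = j} => ({w x.2} : Multiset ℕ))]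
    exact (Fintype.sum_equiv (Equiv.sigmaFiberEquiv g) _ _ (fun x => rfl)).symm
  exact (ND_iff e d).1 h1

/-- a group with one point -/
theorem ms_single {n N : ℕ} {w : Fin n → ℕ} {g : Fin n → Fin N} {j : Fin N} {b : ℕ}
    (h : ∃ i, (univ.filter fun i => g i = j) = {i} ∧ w i = b) :
    ms (fun i : {i // g i = j} => w i) = {b} := by
  obtain ⟨i, hi, hw⟩ := h
  have hmem : ∀ x, g x = j ↔ x = i := by
    intro x
    have h1 : x ∈ (univ.filter fun i => g i = j) ↔ x ∈ ({i} : Finset (Fin n)) := by rw [hi]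
    simpa using h1
  have hx : ∀ x : {i // g i = j}, x = ⟨i, (hmem i).2 rfl⟩ :=
    fun x => Subtype.ext ((hmem x.1).1 x.2)
  unfold ms
  rw [Fintype.sum_eq_single (⟨i, (hmem i).2 rfl⟩ : {i // g i = j}) fun x h => absurd (hx x) h]
  show ({w i} : Multiset ℕ) = {b}
  rw [hw]

/-- **Superposition**, groups given by a colouring; `s j` means that the group is one point of
multiplicity `b j`. -/
theorem superposed {n N : ℕ} {w : Fin n → ℕ} (g : Fin n → Fin N) {b : Fin N → ℕ} {d : ℕ}
    (s : Fin N → Prop) (hs : ∀ j, s j → ∃ i, (univ.filter fun i => g i = j) = {i} ∧ w i = b j)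
    (hb : ∀ j, ¬ s j → 1 ≤ b j)
    (h1 : ∀ j, ¬ s j → (b j + 1).choose 2 ≤
      ∑ i ∈ univ.filter (fun i => g i = j), (w i + 1).choose 2)
    (h2 : ∀ j, ¬ s j → ∑ i ∈ univ.filter (fun i => g i = j), (w i + 1).choose 2 ≤
      (b j + 2).choose 2)
    (h3 : ∀ j, ¬ s j → NDw (fun i : {i // g i = j} => w i) (b j - 1))
    (h4 : ∀ j, ¬ s j → NDw (fun i : {i // g i = j} => w i) (b j))
    (hbase : ∀ u : Fin N → ℕ, (∀ j, u j = b j ∨ (u j = b j + 1 ∧ ¬ s j)) → NDw u d) : NDw w d := by
  refine superpose2 g (b := b) s (fun j hj => ms_single (hs j hj)) (fun j hj => ?_) hbase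
  have hc : cond (fun i : {i // g i = j} => w i) =
      ∑ i ∈ univ.filter (fun i => g i = j), (w i + 1).choose 2 :=
    cond_sub (S := univ.filter fun i => g i = j) (p := fun i => g i = j) (fun i => by simp)
  exact cluster_of (hb j hj) (by rw [hc]; exact h1 j hj) (by rw [hc]; exact h2 j hj) (h3 j hj)
    (h4 j hj)

end Pool.Agent.V8H84.GL
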