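import Mathlib

/-! The choice of the number of clusters. -/

namespace Pool.Agent.V8H84.GL

open Finset

/-- iterated differences of `α / s` -/
noncomputable def Dif (α : ℝ) : ℕ → ℕ → ℝ
  | 0, s => α / s
  | j + 1, s => Dif α j s - Dif α j (s + 1)

/-- `s (s + 1) ⋯ (s + j)` -/
def PP (j s : ℕ) : ℕ := ∏ i ∈ range (j + 1), (s + i)

theorem PP_pos {j s : ℕ} (hs : 1 ≤ s) : 0 < PP j s := by
  unfold PP
  exact prod_pos fun i _ => by omega

theorem PP_succ (j s : ℕ) : PP (j + 1) s = PP j s * (s + (j + 1)) := by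
  unfold PP
  rw [prod_range_succ]

theorem PP_succ' (j s : ℕ) : PP (j + 1) s = s * PP j (s + 1) := by
  unfold PP
  rw [prod_range_succ']
  rw [mul_comm, add_zero]
  congr 1
  refine prod_congr rfl fun i _ => ?_
  ring

theorem PP_mono (j : ℕ) {s s' : ℕ} (h : s ≤ s') : PP j s ≤ PP j s' := by
  unfold PP
  exact prod_le_prod (fun i _ => Nat.zero_le _) fun i _ => by omega

theorem pow_le_PP (j s : ℕ) : s ^ (j + 1) ≤ PP j s := by
  unfold PP
  have h1 : ∏ _i ∈ range (j + 1), s ≤ ∏ i ∈ range (j + 1), (s + i) :=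
    prod_le_prod (fun i _ => Nat.zero_le _) fun i _ => by omega
  simpa using h1

theorem Dif_eq (α : ℝ) (j : ℕ) : ∀ s : ℕ, 1 ≤ s → Dif α j s * PP j s = α * j.factorial := by
  induction j with
  | zero =>
    intro s hs
    have h1 : (s : ℝ) ≠ 0 := by
      have : 0 < s := hs
      positivity
    simp only [Dif, PP, zero_add, range_one, prod_singleton, add_zero, Nat.factorial_zero,
      Nat.cast_one, mul_one]
    field_simp
  | succ j ih =>
    intro s hs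
    have h1 := ih s hs
    have h2 := ih (s + 1) (by omega)
    have e1 : ((PP (j + 1) s : ℕ) : ℝ) = PP j s * (s + (j + 1)) := by
      rw [PP_succ]
      push_cast
      ring
    have e2 : ((PP (j + 1) s : ℕ) : ℝ) = s * PP j (s + 1) := by
      rw [PP_succ']
      push_cast
      ring
    simp only [Dif]
    rw [sub_mul]
    nth_rewrite 1 [e1]
    rw [e2, Nat.factorial_succ]
    push_cast
    linear_combination (s + (j + 1) : ℝ) * h1 - (s : ℝ) * h2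

theorem near_int {α δ : ℝ} {k s0 : ℕ}
    (h : ∀ i ≤ k, ∃ z : ℤ, |α / ((s0 + i : ℕ) : ℝ) - z - 1 / 2| < δ) :
    ∀ j, 1 ≤ j → j ≤ k → ∀ i ≤ k - j, ∃ z : ℤ, |Dif α j (s0 + i) - z| < 2 ^ j * δ := by
  intro j hj
  induction j, hj using Nat.le_induction with
  | base =>
    intro hk i hi
    obtain ⟨z1, h1⟩ := h i (by omega)
    obtain ⟨z2, h2⟩ := h (i + 1) (by omega)
    refine ⟨z1 - z2, ?_⟩
    simp only [Dif]
    rw [abs_lt] at h1 h2 ⊢
    have e : s0 + i + 1 = s0 + (i + 1) := by ring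
    rw [e]
    push_cast at h1 h2 ⊢
    constructor <;> linarith [h1.1, h1.2, h2.1, h2.2]
  | succ j hj ih =>
    intro hk i hi
    obtain ⟨z1, h1⟩ := ih (by omega) i (by omega)
    obtain ⟨z2, h2⟩ := ih (by omega) (i + 1) (by omega)
    refine ⟨z1 - z2, ?_⟩
    simp only [Dif]
    rw [abs_lt] at h1 h2 ⊢
    have e : s0 + i + 1 = s0 + (i + 1) := by ring
    rw [e, pow_succ]
    push_cast at h1 h2 ⊢
    constructor <;> linarith [h1.1, h1.2, h2.1, h2.2]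

/-- a good number `s` -/
theorem exists_s {α : ℝ} {k : ℕ} (hk : 1 ≤ k) (hα : (PP k (k + 6) : ℝ) ≤ α) :
    ∃ s : ℕ, 6 ≤ s ∧ (s : ℝ) ^ (k + 1) ≤ 2 ^ (k + 2) * α * k.factorial ∧
      ∀ z : ℤ, (1 / 2 : ℝ) ^ (k + 2) ≤ |α / s - z - 1 / 2| := by
  classical
  have hPP0 : (0 : ℝ) < PP k (k + 6) := by exact_mod_cast PP_pos (by omega)
  have hα0 : 0 < α := lt_of_lt_of_le hPP0 hα
  have hfac : (1 : ℝ) ≤ k.factorial := by exact_mod_cast Nat.succ_le_of_lt k.factorial_pos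
  have hex : ∃ s : ℕ, 2 * α * k.factorial ≤ PP k s := by
    obtain ⟨s, hs⟩ := exists_nat_ge (2 * α * k.factorial)
    refine ⟨s + 1, hs.trans ?_⟩
    have h1 : s ≤ PP k (s + 1) := by
      calc s ≤ (s + 1) ^ 1 := by rw [pow_one]; omega
        _ ≤ (s + 1) ^ (k + 1) := Nat.pow_le_pow_right (by omega) (by omega)
        _ ≤ PP k (s + 1) := pow_le_PP k _
    exact_mod_cast h1
  obtain ⟨s0, hs0⟩ : ∃ s0, s0 = Nat.find hex := ⟨_, rfl⟩
  have hs0a : 2 * α * k.factorial ≤ PP k s0 := by rw [hs0]; exact Nat.find_spec hex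
  have hs0b : ∀ s < s0, (PP k s : ℝ) < 2 * α * k.factorial := by
    intro s hs
    rw [hs0] at hs
    exact not_le.1 (Nat.find_min hex hs)
  have hlow : k + 7 ≤ s0 := by
    by_contra hcon
    push Not at hcon
    have h1 : (PP k s0 : ℝ) ≤ PP k (k + 6) := by exact_mod_cast PP_mono k (by omega)
    nlinarith
  obtain ⟨t, rfl⟩ : ∃ t, s0 = t + 1 := ⟨s0 - 1, by omega⟩
  have ht := hs0b t (by omega)
  have htk : k + 6 ≤ t := by omega
  -- the size of the last difference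
  have hD := Dif_eq α k (t + 1) (by omega)
  have hPpos : (0 : ℝ) < PP k (t + 1) := by exact_mod_cast PP_pos (by omega)
  have hP2 : (PP k (t + 1) : ℝ) < 4 * α * k.factorial := by
    have h1 : t * PP k (t + 1) = PP k t * (t + (k + 1)) := by
      rw [← PP_succ', PP_succ]
    have h1' : (t : ℝ) * PP k (t + 1) = PP k t * (t + (k + 1)) := by exact_mod_cast h1
    have htR : (0 : ℝ) < t := by
      have : 0 < t := by omega
      exact_mod_cast this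
    have hkt : (t : ℝ) + (k + 1) ≤ 2 * t := by
      have : t + (k + 1) ≤ 2 * t := by omega
      exact_mod_cast this
    have hPt : (0 : ℝ) < PP k t := by exact_mod_cast PP_pos (by omega)
    have h2 : (t : ℝ) * PP k (t + 1) ≤ t * (2 * PP k t) := by
      rw [h1']
      nlinarith
    have h3 := le_of_mul_le_mul_left h2 htR
    linarith
  have hD1 : Dif α k (t + 1) ≤ 1 / 2 := by
    by_contra hcon
    push Not at hcon
    nlinarith
  have hD2 : 1 / 4 < Dif α k (t + 1) := by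
    by_contra hcon
    push Not at hcon
    nlinarith
  -- the existence
  by_contra hcon
  push Not at hcon
  have hall : ∀ i ≤ k, ∃ z : ℤ, |α / ((t + 1 + i : ℕ) : ℝ) - z - 1 / 2| < (1 / 2 : ℝ) ^ (k + 2) := by
    intro i hi
    refine hcon (t + 1 + i) (by omega) ?_
    have h1 : ((t + 1 + i : ℕ) : ℝ) ≤ 2 * t := by
      have : t + 1 + i ≤ 2 * t := by omega
      exact_mod_cast this
    have h2 : (t : ℝ) ^ (k + 1) ≤ PP k t := by exact_mod_cast pow_le_PP k t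
    calc ((t + 1 + i : ℕ) : ℝ) ^ (k + 1) ≤ (2 * t) ^ (k + 1) := pow_le_pow_left₀ (by positivity) h1 _
      _ = 2 ^ (k + 1) * t ^ (k + 1) := mul_pow _ _ _
      _ ≤ 2 ^ (k + 1) * (2 * α * k.factorial) := by
        apply mul_le_mul_of_nonneg_left (h2.trans ht.le) (by positivity)
      _ = 2 ^ (k + 2) * α * k.factorial := by ring
  obtain ⟨z, hz⟩ := near_int hall k hk le_rfl 0 (by omega)
  rw [add_zero] at hz
  have e : (2 : ℝ) ^ k * (1 / 2) ^ (k + 2) = 1 / 4 := by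
    rw [pow_add, ← mul_assoc, ← mul_pow]
    norm_num
  rw [e, abs_lt] at hz
  have hz1 : (z : ℝ) < 1 := by linarith [hz.1]
  have hz2 : (0 : ℝ) < z := by linarith [hz.2]
  have hz1' : z < 1 := by exact_mod_cast hz1
  have hz2' : 0 < z := by exact_mod_cast hz2
  omega

/-- the constant -/
noncomputable def CC (k : ℕ) : ℝ :=
  2 ^ k * (2 ^ (k + 2) * k.factorial * 2 ^ ((k + 3) * (k + 1)) + (PP k (k + 6)) ^ k) ^ 2

theorem CC_pos (k : ℕ) : 1 ≤ CC k := by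
  unfold CC
  have h1 : (1 : ℝ) ≤ 2 ^ k := one_le_pow₀ (by norm_num)
  have h2 : (1 : ℝ) ≤ 2 ^ (k + 2) := one_le_pow₀ (by norm_num)
  have h3 : (1 : ℝ) ≤ k.factorial := by exact_mod_cast Nat.succ_le_of_lt k.factorial_pos
  have h4 : (1 : ℝ) ≤ 2 ^ ((k + 3) * (k + 1)) := one_le_pow₀ (by norm_num)
  have h5 : (0 : ℝ) ≤ (PP k (k + 6) : ℝ) ^ k := by positivity
  have h6 : (1 : ℝ) ≤ 2 ^ (k + 2) * k.factorial * 2 ^ ((k + 3) * (k + 1)) + (PP k (k + 6)) ^ k := by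
    nlinarith [mul_le_mul h2 h3 (by norm_num) (by positivity : (0 : ℝ) ≤ 2 ^ (k + 2)),
      mul_le_mul (mul_le_mul h2 h3 (by norm_num) (by positivity : (0 : ℝ) ≤ 2 ^ (k + 2))) h4
        (by norm_num) (by positivity)]
  nlinarith [one_le_pow₀ h6 (n := 2)]

/-- **The choice of `s` and `b`.** -/
theorem exists_sb {k m A : ℕ} (hk : 1 ≤ k) (hm : 1 ≤ m) (hA : CC k * (m : ℝ) ^ (6 * k + 6) ≤ (A : ℝ) ^ k) :
    ∃ s b : ℕ, 6 ≤ s ∧ 4 * s ^ 2 * ((b + 1).choose 2 + m ^ 3) ≤ A ∧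
      A + 4 * s ^ 2 * m ^ 3 ≤ 4 * s ^ 2 * (b + 2).choose 2 ∧ 14 * m ^ 3 ≤ b := by
  obtain ⟨α, hα⟩ : ∃ α : ℝ, α = √((A : ℝ) / 2) := ⟨_, rfl⟩
  have hα0 : 0 ≤ α := by rw [hα]; exact Real.sqrt_nonneg _
  have hαsq : α ^ 2 = (A : ℝ) / 2 := by rw [hα]; exact Real.sq_sqrt (by positivity)
  have hAα : (A : ℝ) = 2 * α ^ 2 := by linarith
  have hmR : (1 : ℝ) ≤ m := by exact_mod_cast hm
  obtain ⟨c1, hc1⟩ : ∃ c1 : ℝ, c1 = 2 ^ (k + 2) * k.factorial * 2 ^ ((k + 3) * (k + 1)) := ⟨_, rfl⟩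
  obtain ⟨c2, hc2⟩ : ∃ c2 : ℝ, c2 = (PP k (k + 6) : ℝ) ^ k := ⟨_, rfl⟩
  have hc10 : 0 < c1 := by rw [hc1]; positivity
  have hc20 : 0 ≤ c2 := by rw [hc2]; positivity
  -- the lower bound for the power of α
  have hpow : (c1 + c2) * (m : ℝ) ^ (3 * k + 3) ≤ α ^ k := by
    have h1 : ((c1 + c2) * (m : ℝ) ^ (3 * k + 3)) ^ 2 ≤ (α ^ k) ^ 2 := by
      have h2 : (2 : ℝ) ^ k * ((c1 + c2) * (m : ℝ) ^ (3 * k + 3)) ^ 2 ≤ 2 ^ k * (α ^ k) ^ 2 := by
        calc (2 : ℝ) ^ k * ((c1 + c2) * (m : ℝ) ^ (3 * k + 3)) ^ 2 =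
            CC k * (m : ℝ) ^ (6 * k + 6) := by
              unfold CC
              rw [← hc1, ← hc2]
              ring
          _ ≤ (A : ℝ) ^ k := hA
          _ = 2 ^ k * (α ^ k) ^ 2 := by
              rw [hAα, mul_pow]
              ring
      exact le_of_mul_le_mul_left h2 (by positivity)
    exact le_of_sq_le_sq h1 (by positivity)
  have hmk : (1 : ℝ) ≤ (m : ℝ) ^ (3 * k + 3) := one_le_pow₀ hmR
  have hα1 : (PP k (k + 6) : ℝ) ≤ α := by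
    have h1 : (PP k (k + 6) : ℝ) ^ k ≤ α ^ k := by
      rw [← hc2]
      nlinarith
    exact le_of_pow_le_pow_left₀ (by omega) hα0 h1
  obtain ⟨s, hs6, hsp, hsz⟩ := exists_s hk hα1
  have hsR : (6 : ℝ) ≤ s := by exact_mod_cast hs6
  have hs0 : (0 : ℝ) < s := by linarith
  obtain ⟨x, hx⟩ : ∃ x : ℝ, x = α / s := ⟨_, rfl⟩
  have hxs : x * s = α := by rw [hx]; field_simp
  obtain ⟨δ, hδ⟩ : ∃ δ : ℝ, δ = (1 / 2 : ℝ) ^ (k + 2) := ⟨_, rfl⟩
  -- x is large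
  have hxl : 2 ^ (k + 3) * (m : ℝ) ^ 3 ≤ x := by
    have h1 : ((s : ℝ) * (2 ^ (k + 3) * (m : ℝ) ^ 3)) ^ (k + 1) ≤ α ^ (k + 1) := by
      calc ((s : ℝ) * (2 ^ (k + 3) * (m : ℝ) ^ 3)) ^ (k + 1) =
          (s : ℝ) ^ (k + 1) * (2 ^ ((k + 3) * (k + 1)) * (m : ℝ) ^ (3 * k + 3)) := by
            rw [mul_pow, mul_pow, ← pow_mul, ← pow_mul]
            ring
        _ ≤ (2 ^ (k + 2) * α * k.factorial) * (2 ^ ((k + 3) * (k + 1)) * (m : ℝ) ^ (3 * k + 3)) := by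
            apply mul_le_mul_of_nonneg_right hsp (by positivity)
        _ = (c1 * (m : ℝ) ^ (3 * k + 3)) * α := by rw [hc1]; ring
        _ ≤ α ^ k * α := by
            apply mul_le_mul_of_nonneg_right _ hα0
            nlinarith
        _ = α ^ (k + 1) := by ring
    have h2 := le_of_pow_le_pow_left₀ (by omega) hα0 h1
    rw [hx, le_div_iff₀ hs0]
    linarith
  have h16 : (16 : ℝ) ≤ 2 ^ (k + 3) := by
    calc (16 : ℝ) = 2 ^ 4 := by norm_num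
      _ ≤ 2 ^ (k + 3) := pow_le_pow_right₀ (by norm_num) (by omega)
  have hm3 : (1 : ℝ) ≤ (m : ℝ) ^ 3 := one_le_pow₀ hmR
  have hx16 : 16 * (m : ℝ) ^ 3 ≤ x := by nlinarith
  have hδx : 2 * (m : ℝ) ^ 3 ≤ δ * x := by
    have e : δ * (2 ^ (k + 3) * (m : ℝ) ^ 3) = 2 * (m : ℝ) ^ 3 := by
      rw [hδ]
      have : (1 / 2 : ℝ) ^ (k + 2) * 2 ^ (k + 3) = 2 := by
        rw [show k + 3 = k + 2 + 1 by ring, pow_succ (2 : ℝ), ← mul_assoc, ← mul_pow]
        norm_num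
      rw [← mul_assoc, this]
    rw [← e]
    exact mul_le_mul_of_nonneg_left hxl (by rw [hδ]; positivity)
  obtain ⟨b, hb⟩ : ∃ b : ℕ, b = ⌊x - 1 / 2⌋₊ := ⟨_, rfl⟩
  have hb1 : (b : ℝ) ≤ x - 1 / 2 := by rw [hb]; exact Nat.floor_le (by linarith)
  have hb2 : x - 1 / 2 < b + 1 := by rw [hb]; exact Nat.lt_floor_add_one _
  have hz1 := hsz b
  have hz2 := hsz (b + 1)
  rw [← hx, ← hδ] at hz1 hz2
  have hz1' : δ ≤ x - b - 1 / 2 := by
    rw [abs_of_nonneg (by push_cast; linarith)] at hz1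
    push_cast at hz1
    linarith
  have hz2' : δ ≤ b + 3 / 2 - x := by
    rw [abs_of_nonpos (by push_cast; linarith)] at hz2
    push_cast at hz2
    linarith
  have hδ0 : 0 < δ := by rw [hδ]; positivity
  have hbR : (0 : ℝ) ≤ b := by positivity
  have hlow : ((b : ℝ) + 1 / 2) ^ 2 + 2 * (m : ℝ) ^ 3 ≤ x ^ 2 := by nlinarith
  have hhigh : x ^ 2 + 4 * (m : ℝ) ^ 3 ≤ ((b : ℝ) + 3 / 2) ^ 2 := by nlinarith
  have hAx : (A : ℝ) = 2 * (s : ℝ) ^ 2 * x ^ 2 := by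
    rw [hAα, ← hxs]
    ring
  have hB1 : 2 * (((b + 1).choose 2 : ℕ) : ℝ) = b * (b + 1) := by
    have h1 : 2 * (b + 1).choose 2 = b * (b + 1) := by
      rw [Nat.choose_two_right, Nat.add_sub_cancel, mul_comm (b + 1) b]
      exact Nat.mul_div_cancel' (Nat.even_mul_succ_self b).two_dvd
    exact_mod_cast h1
  have hB2 : 2 * (((b + 2).choose 2 : ℕ) : ℝ) = (b + 1) * (b + 2) := by
    have h1 : 2 * (b + 2).choose 2 = (b + 1) * (b + 2) := by
      rw [Nat.choose_two_right, show b + 2 - 1 = b + 1 by omega, mul_comm (b + 2) (b + 1)]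
      exact Nat.mul_div_cancel' (Nat.even_mul_succ_self (b + 1)).two_dvd
    exact_mod_cast h1
  refine ⟨s, b, hs6, ?_, ?_, ?_⟩
  · have h1 : (4 : ℝ) * (s : ℝ) ^ 2 * ((((b + 1).choose 2 : ℕ) : ℝ) + (m : ℝ) ^ 3) ≤ A := by
      rw [hAx]
      have h2 : 2 * ((((b + 1).choose 2 : ℕ) : ℝ) + (m : ℝ) ^ 3) ≤ x ^ 2 := by nlinarith
      nlinarith [mul_le_mul_of_nonneg_left h2 (by positivity : (0 : ℝ) ≤ 2 * (s : ℝ) ^ 2)]
    exact_mod_cast h1
  · have h1 : (A : ℝ) + 4 * (s : ℝ) ^ 2 * (m : ℝ) ^ 3 ≤ 4 * (s : ℝ) ^ 2 * (((b + 2).choose 2 : ℕ) : ℝ) := by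
      rw [hAx]
      have h2 : x ^ 2 + 2 * (m : ℝ) ^ 3 ≤ 2 * (((b + 2).choose 2 : ℕ) : ℝ) := by nlinarith
      nlinarith [mul_le_mul_of_nonneg_left h2 (by positivity : (0 : ℝ) ≤ 2 * (s : ℝ) ^ 2)]
    exact_mod_cast h1
  · have h1 : (14 : ℝ) * (m : ℝ) ^ 3 ≤ b := by nlinarith
    exact_mod_cast h1

end Pool.Agent.V8H84.GL
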