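import Pool.Agent.V8H84.GL.Super
import Pool.Agent.TH442.NF.Open
import Pool.Agent.TH864.SX.Thirteen

/-! From general points to the existence of one configuration, and back. -/

namespace Pool.Agent.V8H84.GL

open Finset Module Pool.Agent.TH176.Nag Pool.Agent.TH603.Sur Pool.Agent.TH763.DB
open Pool.Agent.TH641.UM Pool.Agent.TH2.NU Pool.Agent.H932R3

/-- a point outside of a hypersurface with nonzero coordinates -/
theorem exists_point_of {K : Type} [Field K] [Infinite K] {n : ℕ} {F : MvPolynomial (Fin n × Fin 2) K}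
    (hF : F ≠ 0) : ∃ P : Fin n → Fin 2 → K,
      MvPolynomial.eval (fun ij : Fin n × Fin 2 => P ij.1 ij.2) F ≠ 0 ∧ ∀ i j, P i j ≠ 0 := by
  classical
  have h1 : F * ∏ q : Fin n × Fin 2, MvPolynomial.X q ≠ 0 :=
    mul_ne_zero hF (Finset.prod_ne_zero_iff.2 fun q _ => MvPolynomial.X_ne_zero q)
  obtain ⟨P, hP⟩ : ∃ P : Fin n × Fin 2 → K,
      MvPolynomial.eval P (F * ∏ q : Fin n × Fin 2, MvPolynomial.X q) ≠ 0 := by
    by_contra hcon
    push Not at hcon
    exact h1 (MvPolynomial.funext fun P => by rw [hcon P, map_zero])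
  rw [map_mul, map_prod] at hP
  refine ⟨fun i j => P (i, j), ?_, ?_⟩
  · exact left_ne_zero_of_mul hP
  · intro i j
    have h2 := right_ne_zero_of_mul hP
    rw [Finset.prod_ne_zero_iff] at h2
    simpa using h2 (i, j) (mem_univ _)

theorem nd_or' {ι : Type} [Fintype ι] {w : ι → ℕ} {d : ℕ}
    (h : ((d + 2).choose 2 ≤ cond w → Emp w (TZ d)) ∧ (cond w ≤ (d + 2).choose 2 → Sur w (TZ d))) :
    Emp w (TZ d) ∨ Sur w (TZ d) := by
  rcases le_total ((d + 2).choose 2) (cond w) with h1 | h1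
  · exact Or.inl (h.1 h1)
  · exact Or.inr (h.2 h1)

/-- a rational point outside of a hypersurface with nonzero coordinates -/
theorem exists_point {n : ℕ} {F : MvPolynomial (Fin n × Fin 2) ℚ} (hF : F ≠ 0) :
    ∃ P : Fin n → Fin 2 → ℚ, MvPolynomial.aeval (fun ij : Fin n × Fin 2 => P ij.1 ij.2) F ≠ 0 ∧
      ∀ i j, P i j ≠ 0 := by
  classical
  have h1 : F * ∏ q : Fin n × Fin 2, MvPolynomial.X q ≠ 0 :=
    mul_ne_zero hF (Finset.prod_ne_zero_iff.2 fun q _ => MvPolynomial.X_ne_zero q)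
  obtain ⟨P, hP⟩ : ∃ P : Fin n × Fin 2 → ℚ,
      MvPolynomial.eval P (F * ∏ q : Fin n × Fin 2, MvPolynomial.X q) ≠ 0 := by
    by_contra hcon
    push Not at hcon
    exact h1 (MvPolynomial.funext fun P => by rw [hcon P, map_zero])
  rw [map_mul, map_prod] at hP
  refine ⟨fun i j => P (i, j), ?_, ?_⟩
  · have h2 := left_ne_zero_of_mul hP
    rw [← MvPolynomial.coe_aeval_eq_eval] at h2
    exact h2
  · intro i j
    have h2 := right_ne_zero_of_mul hP
    rw [Finset.prod_ne_zero_iff] at h2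
    simpa using h2 (i, j) (mem_univ _)

/-- from the expected dimension at general points -/
theorem nd_of_open {n : ℕ} {w : Fin n → ℕ} {d : ℕ} {F : MvPolynomial (Fin n × Fin 2) ℚ} (hF : F ≠ 0)
    (h : ∀ P : Fin n → Fin 2 → ℚ, MvPolynomial.aeval (fun ij : Fin n × Fin 2 => P ij.1 ij.2) F ≠ 0 →
      ExpDim ℚ w P d) :
    ((d + 2).choose 2 ≤ cond w → Emp w (TZ d)) ∧ (cond w ≤ (d + 2).choose 2 → Sur w (TZ d)) := by
  obtain ⟨P, hP, hne⟩ := exists_point hF
  exact nd_of_expDim hne (h P hP)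

theorem nd_or {n : ℕ} {w : Fin n → ℕ} {d : ℕ}
    (h : ((d + 2).choose 2 ≤ cond w → Emp w (TZ d)) ∧ (cond w ≤ (d + 2).choose 2 → Sur w (TZ d))) :
    Emp w (TZ d) ∨ Sur w (TZ d) := by
  rcases le_total ((d + 2).choose 2) (cond w) with h1 | h1
  · exact Or.inl (h.1 h1)
  · exact Or.inr (h.2 h1)

/-- general points over an infinite field of characteristic zero -/
theorem nd_of_gen {K : Type} [Field K] [CharZero K] {n : ℕ} {w : Fin n → ℕ} {d : ℕ}
    {F : MvPolynomial (Fin n × Fin 2) K} (hF : F ≠ 0)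
    (h : ∀ P : Fin n → Fin 2 → K, MvPolynomial.eval (fun ij : Fin n × Fin 2 => P ij.1 ij.2) F ≠ 0 →
      ExpDim K w P d) : Emp w (TZ d) ∨ Sur w (TZ d) := by
  obtain ⟨P, hP, hne⟩ := exists_point_of hF
  exact nd_or' (nd_of_expDim hne (h P hP))

/-- a rational polynomial -/
theorem nd_of_rat {n : ℕ} {w : Fin n → ℕ} {d : ℕ} {F : MvPolynomial (Fin n × Fin 2) ℚ} (hF : F ≠ 0)
    (h : ∀ P : Fin n → Fin 2 → ℚ, MvPolynomial.aeval (fun ij : Fin n × Fin 2 => P ij.1 ij.2) F ≠ 0 →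
      ExpDim ℚ w P d) : Emp w (TZ d) ∨ Sur w (TZ d) := by
  refine nd_of_gen hF fun P hP => h P ?_
  rw [← MvPolynomial.coe_aeval_eq_eval] at hP
  exact hP

/-- generic points -/
theorem nd_of_generic {n : ℕ} {w : Fin n → ℕ} {d : ℕ}
    (h : ∀ {K : Type} [Field K] [CharZero K] {P : Fin n → Fin 2 → K},
      AlgebraicIndependent ℚ (fun ij : Fin n × Fin 2 => P ij.1 ij.2) → ExpDim K w P d) :
    Emp w (TZ d) ∨ Sur w (TZ d) := by
  obtain ⟨K, _, _, P, hP⟩ := Pool.Agent.TH442.NF.exists_generic n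
  exact nd_or' (nd_of_expDim (fun i j => hP.ne_zero (i, j)) (h hP))

/-- back to general points, one degree -/
theorem open_of_nd {n : ℕ} {w : Fin n → ℕ} {d : ℕ} (h : Emp w (TZ d) ∨ Sur w (TZ d)) :
    ∃ F : MvPolynomial (Fin n × Fin 2) ℚ, F ≠ 0 ∧ ∀ {L : Type} [Field L] [CharZero L]
      (P : Fin n → Fin 2 → L), MvPolynomial.aeval (fun ij : Fin n × Fin 2 => P ij.1 ij.2) F ≠ 0 →
      ExpDim L w P d := by
  rcases h with h | h
  · obtain ⟨F, hF, hF'⟩ := full_open h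
    exact ⟨F, hF, fun P hP => hF' P hP d le_rfl⟩
  · obtain ⟨F, hF, hF'⟩ := indep_open h
    exact ⟨F, hF, fun P hP => hF' P hP d le_rfl⟩

/-- the two degrees which matter for a cluster -/
theorem cluster_of {κ : Type} [Fintype κ] {R : κ → ℕ} {b : ℕ} (hb : 1 ≤ b)
    (h1 : (b + 1).choose 2 ≤ cond R) (h2 : cond R ≤ (b + 2).choose 2)
    (h3 : Emp R (TZ (b - 1)) ∨ Sur R (TZ (b - 1))) (h4 : Emp R (TZ b) ∨ Sur R (TZ b)) :
    Emp R (↑(Lo b) : Set (ℤ × ℤ)) ∧ Sur R (TZ b) := by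
  obtain ⟨a, rfl⟩ : ∃ a, b = a + 1 := ⟨b - 1, by omega⟩
  rw [Nat.add_sub_cancel] at h3
  exact ⟨by rw [coe_Lo_succ]; exact (Pool.Agent.TH864.SX.ED_of_or h3).1 h1,
    (Pool.Agent.TH864.SX.ED_of_or h4).2 h2⟩

/-- emptiness or independence depends only on the multiplicities -/
theorem nd_congr {ι κ : Type} [Fintype ι] [Fintype κ] {w : ι → ℕ} {v : κ → ℕ} (h : ms w = ms v)
    {d : ℕ} (hw : Emp w (TZ d) ∨ Sur w (TZ d)) : Emp v (TZ d) ∨ Sur v (TZ d) := by
  rw [← EmpM_iff h, ← SurM_iff h] at hw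
  rwa [EmpM_iff rfl, SurM_iff rfl] at hw

theorem ms_equiv {ι κ : Type} [Fintype ι] [Fintype κ] (e : κ ≃ ι) (w : ι → ℕ) :
    ms (fun k => w (e k)) = ms w := by
  unfold ms
  exact Fintype.sum_equiv e _ _ fun _ => rfl

end Pool.Agent.V8H84.GL
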