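import Mathlib

/-! Balanced partitions. -/

namespace Pool.Agent.V8H84.GL

open Finset

/-- the sum of one class -/
def cls {n N : ℕ} (c : Fin n → ℕ) (g : Fin n → Fin N) (j : Fin N) : ℕ :=
  ∑ i, if g i = j then c i else 0

theorem sum_cls {n N : ℕ} (c : Fin n → ℕ) (g : Fin n → Fin N) : ∑ j, cls c g j = ∑ i, c i := by
  unfold cls
  rw [sum_comm]
  refine sum_congr rfl fun i _ => ?_
  rw [sum_ite_eq]
  simp

theorem cls_update {n N : ℕ} (c : Fin n → ℕ) (g : Fin n → Fin N) (i0 : Fin n) (l x : Fin N) :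
    cls c (Function.update g i0 l) x + (if g i0 = x then c i0 else 0) =
      cls c g x + (if l = x then c i0 else 0) := by
  unfold cls
  rw [← add_sum_erase _ (fun i => if Function.update g i0 l i = x then c i else 0) (mem_univ i0),
    ← add_sum_erase _ (fun i => if g i = x then c i else 0) (mem_univ i0)]
  have h1 : ∑ i ∈ univ.erase i0, (if Function.update g i0 l i = x then c i else 0) =
      ∑ i ∈ univ.erase i0, (if g i = x then c i else 0) := by
    refine sum_congr rfl fun i hi => ?_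
    rw [Function.update_of_ne (ne_of_mem_erase hi)]
  rw [h1, Function.update_self]
  ring

theorem exists_balanced {n N : ℕ} (hN : 0 < N) (c : Fin n → ℕ) {μ : ℕ} (hμ : ∀ i, c i ≤ μ) :
    ∃ g : Fin n → Fin N, ∀ j l, cls c g j ≤ cls c g l + μ := by
  classical
  have : Nonempty (Fin n → Fin N) := ⟨fun _ => ⟨0, hN⟩⟩
  obtain ⟨g, hg⟩ := Finite.exists_min (fun g : Fin n → Fin N => ∑ j, (cls c g j) ^ 2)
  refine ⟨g, fun j l => ?_⟩
  by_contra hcon
  push Not at hcon
  have hjl : j ≠ l := by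
    rintro rfl
    omega
  obtain ⟨i0, hi0, hc0⟩ : ∃ i0, g i0 = j ∧ 0 < c i0 := by
    by_contra hno
    push Not at hno
    have : cls c g j = 0 := by
      unfold cls
      refine sum_eq_zero fun i _ => ?_
      split_ifs with h
      · have := hno i h
        omega
      · rfl
    omega
  have hu := fun x => cls_update c g i0 l x
  have h1 := hg (Function.update g i0 l)
  have h2 : ∑ x, (((cls c g x : ℤ)) ^ 2 - ((cls c (Function.update g i0 l) x : ℤ)) ^ 2) =
      (((cls c g j : ℤ)) ^ 2 - ((cls c (Function.update g i0 l) j : ℤ)) ^ 2) +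
      (((cls c g l : ℤ)) ^ 2 - ((cls c (Function.update g i0 l) l : ℤ)) ^ 2) := by
    refine Fintype.sum_eq_add j l hjl ?_
    rintro x ⟨hx1, hx2⟩
    have h3 := hu x
    rw [hi0, if_neg (Ne.symm hx1), if_neg (Ne.symm hx2)] at h3
    have h4 : cls c (Function.update g i0 l) x = cls c g x := by omega
    rw [h4, sub_self]
  rw [sum_sub_distrib] at h2
  have h1' : ∑ x, ((cls c g x : ℤ)) ^ 2 ≤ ∑ x, ((cls c (Function.update g i0 l) x : ℤ)) ^ 2 := by
    exact_mod_cast h1
  have h3 := hu j
  have h4 := hu l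
  rw [hi0, if_pos rfl, if_neg (Ne.symm hjl)] at h3
  rw [hi0, if_neg hjl, if_pos rfl] at h4
  have h3' : (cls c (Function.update g i0 l) j : ℤ) = cls c g j - c i0 := by
    have : (cls c (Function.update g i0 l) j : ℤ) + c i0 = cls c g j + 0 := by exact_mod_cast h3
    linarith
  have h4' : (cls c (Function.update g i0 l) l : ℤ) = cls c g l + c i0 := by
    have : (cls c (Function.update g i0 l) l : ℤ) + 0 = cls c g l + c i0 := by exact_mod_cast h4
    linarith
  rw [h3', h4'] at h2
  have hc0' : (0 : ℤ) < c i0 := by exact_mod_cast hc0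
  have hμ0 : (c i0 : ℤ) ≤ μ := by exact_mod_cast hμ i0
  have hcon' : (cls c g l : ℤ) + μ < cls c g j := by exact_mod_cast hcon
  nlinarith [mul_pos hc0' (show (0 : ℤ) < cls c g j - cls c g l - c i0 by linarith)]

/-- **Balanced partition.** -/
theorem exists_partition {n N : ℕ} (hN : 0 < N) (c : Fin n → ℕ) {μ : ℕ} (hμ : ∀ i, c i ≤ μ) :
    ∃ g : Fin n → Fin N, ∀ j, N * cls c g j ≤ ∑ i, c i + N * μ ∧
      ∑ i, c i ≤ N * cls c g j + N * μ := by
  obtain ⟨g, hg⟩ := exists_balanced hN c hμ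
  refine ⟨g, fun j => ⟨?_, ?_⟩⟩
  · have h1 : ∑ _l : Fin N, cls c g j ≤ ∑ l, (cls c g l + μ) := sum_le_sum fun l _ => hg j l
    rw [sum_add_distrib, sum_cls] at h1
    simpa using h1
  · have h1 : ∑ l, cls c g l ≤ ∑ _l : Fin N, (cls c g j + μ) := sum_le_sum fun l _ => hg l j
    rw [sum_cls] at h1
    simp only [sum_const, card_univ, Fintype.card_fin, smul_eq_mul] at h1
    rw [mul_add] at h1
    exact h1

end Pool.Agent.V8H84.GL
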