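import Pool.Agent.V8H84.GL.Super
import Pool.Agent.V8H84.GL.Open
import Pool.Agent.V8H84.GL.Part
import Pool.Agent.V8H84.GL.Num
import Pool.Agent.H932R7.Final2
import Pool.Agent.TH2.NU.Final
import Pool.Agent.TH864.SX.Thirteen

/-! Bounded multiplicities. -/

namespace Pool.Agent.V8H84.GL

open Finset Module Pool.Agent.TH176.Nag Pool.Agent.TH603.Sur Pool.Agent.TH763.DB
open Pool.Agent.TH641.UM Pool.Agent.TH2.NU Pool.Agent.H932R3

theorem cond_comp {ι κ : Type} [Fintype ι] [Fintype κ] (e : κ ≃ ι) (R : ι → ℕ) :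
    cond (fun i => R (e i)) = cond R := by
  unfold Pool.Agent.TH603.Sur.cond
  exact Fintype.sum_equiv e _ _ fun _ => rfl

theorem deg_cond {m b : ℕ} (h14 : 14 * m ^ 3 ≤ b) (hm : 1 ≤ m) :
    (m : ℝ) * (m + 1) * (m + 6 * Real.sqrt m + 10) ≤ ((b * (b + 1) : ℕ) : ℝ) := by
  have hmR : (1 : ℝ) ≤ m := by exact_mod_cast hm
  have h1 : Real.sqrt m ≤ m := by
    rw [Real.sqrt_le_left (by linarith)]
    nlinarith
  have h2 : (14 : ℝ) * (m : ℝ) ^ 3 ≤ b := by exact_mod_cast h14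
  have hm3 : (1 : ℝ) ≤ (m : ℝ) ^ 3 := one_le_pow₀ hmR
  have h3 : (m : ℝ) * (m + 1) * (m + 6 * Real.sqrt m + 10) ≤ 34 * (m : ℝ) ^ 3 := by
    have h4 : (m : ℝ) + 6 * Real.sqrt m + 10 ≤ 17 * m := by linarith
    have h5 : (m : ℝ) * (m + 1) ≤ 2 * (m : ℝ) ^ 2 := by nlinarith
    calc (m : ℝ) * (m + 1) * (m + 6 * Real.sqrt m + 10) ≤ 2 * (m : ℝ) ^ 2 * (17 * m) :=
          mul_le_mul h5 h4 (by positivity) (by positivity)
      _ = 34 * (m : ℝ) ^ 3 := by ring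
  push_cast
  nlinarith

/-- clusters with multiplicities at most `m` -/
theorem cluster_ok {ι : Type} [Fintype ι] {R : ι → ℕ} {m b : ℕ} (hm : 1 ≤ m) (hR : ∀ i, R i ≤ m)
    (hb1 : 1 ≤ b) (hdeg : (m : ℝ) * (m + 1) * (m + 6 * Real.sqrt m + 10) ≤ ((b * (b + 1) : ℕ) : ℝ))
    (h1 : (b + 1).choose 2 + 2 * (m + 1).choose 3 ≤ cond R)
    (h2 : cond R + 2 * (m + 1).choose 3 ≤ (b + 2).choose 2) :
    Emp R (↑(Lo b) : Set (ℤ × ℤ)) ∧ Sur R (TZ b) := by
  classical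
  obtain ⟨n, hn⟩ : ∃ n, n = Fintype.card ι := ⟨_, rfl⟩
  let e : Fin n ≃ ι := (Fintype.equivFinOfCardEq hn.symm).symm
  obtain ⟨F, hF, hF'⟩ := Pool.Agent.H932R7.bounded2 ℚ (w := fun i => R (e i)) (m := m) (k := m)
    (by omega) le_rfl (fun i => hR _) (fun i hi => absurd (hR (e i)) (by omega))
  have hc : cond (fun i => R (e i)) = cond R := cond_comp e R
  have hc' : ∑ i, (R (e i) + 1).choose 2 = cond R := hc
  obtain ⟨a, rfl⟩ : ∃ a, b = a + 1 := ⟨b - 1, by omega⟩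
  have hlow := nd_of_open (d := a) hF fun P hP => hF' P hP a ⟨by
    refine hdeg.trans ?_
    have : (a + 1) * (a + 1 + 1) ≤ max ((a + 1) * (a + 2)) (∑ i, (R (e i) + 1).choose 2) :=
      le_max_left _ _
    exact_mod_cast this, Or.inl (by rw [hc']; exact h1)⟩
  have hhigh := nd_of_open (d := a + 1) hF fun P hP => hF' P hP (a + 1) ⟨by
    refine hdeg.trans ?_
    have h3 : (a + 1) * (a + 1 + 1) ≤ max ((a + 1 + 1) * (a + 1 + 2)) (∑ i, (R (e i) + 1).choose 2) := by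
      refine le_trans ?_ (le_max_left _ _)
      nlinarith
    exact_mod_cast h3, Or.inr (Or.inl (by
      refine le_trans ?_ h2
      rw [← hc']
      exact Nat.add_le_add_right (sum_le_sum_of_subset (filter_subset _ _)) _))⟩
  constructor
  · rw [coe_Lo_succ]
    have h3 := hlow.1 (by
      rw [hc]
      have e1 : (a + 1 + 1).choose 2 = (a + 2).choose 2 := rfl
      omega)
    exact Emp_emb (fun i => e i) e.injective (fun i => le_rfl) h3
  · have h3 := hhigh.2 (by rw [hc]; omega)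
    obtain ⟨T, h4, h5, h6⟩ := h3
    exact ⟨T, h4, by rw [h5, hc], Emp_emb (fun i => e i) e.injective (fun i => le_rfl) h6⟩

/-- `2 C (m + 1, 3) + C (m + 1, 2) ≤ m ^ 3` -/
theorem gam {m : ℕ} (hm : 1 ≤ m) : 2 * (m + 1).choose 3 + (m + 1).choose 2 ≤ m ^ 3 := by
  obtain ⟨a, rfl⟩ : ∃ a, m = a + 1 := ⟨m - 1, by omega⟩
  have h1 : 2 * (a + 1 + 1).choose 2 = (a + 1) * (a + 2) := by
    have : 2 * (a + 1 + 1).choose 2 = 2 * ((a + 2) * (a + 1) / 2) := by
      rw [Nat.choose_two_right]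
      rfl
    rw [this, Nat.mul_div_cancel' (by
      rw [mul_comm]
      exact (Nat.even_mul_succ_self (a + 1)).two_dvd)]
    ring
  have h2 : 6 * (a + 1 + 1).choose 3 = a * (a + 1) * (a + 2) := by
    have h3 := Nat.add_one_mul_choose_eq (a + 1) 2
    have h4 : 2 * (a + 1).choose 2 = a * (a + 1) := by
      have : 2 * (a + 1).choose 2 = 2 * ((a + 1) * a / 2) := by
        rw [Nat.choose_two_right]
        rfl
      rw [this, Nat.mul_div_cancel' (by
        rw [mul_comm]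
        exact (Nat.even_mul_succ_self a).two_dvd)]
      ring
    have h5 : 6 * (a + 1 + 1).choose 3 = 2 * ((a + 1 + 1).choose (2 + 1) * (2 + 1)) := by ring
    rw [h5, ← h3]
    nlinarith
  nlinarith

theorem max_choose {m x : ℕ} (h : x ≤ m) : (x + 1).choose 2 ≤ (m + 1).choose 2 :=
  Nat.choose_le_choose 2 (by omega)

/-- the common step -/
theorem nd_core {n m l b : ℕ} (hm : 1 ≤ m) {w : Fin n → ℕ} (hw : ∀ i, w i ≤ m) (hl : 36 ≤ l)
    (hb1 : 1 ≤ b) (hdeg : (m : ℝ) * (m + 1) * (m + 6 * Real.sqrt m + 10) ≤ ((b * (b + 1) : ℕ) : ℝ))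
    (hlow : 4 * l * ((b + 1).choose 2 + m ^ 3) ≤ cond w)
    (hhigh : cond w + 4 * l * m ^ 3 ≤ 4 * l * (b + 2).choose 2) (d : ℕ) :
    Emp w (TZ d) ∨ Sur w (TZ d) := by
  classical
  obtain ⟨N, hN⟩ : ∃ N, N = 4 * l := ⟨_, rfl⟩
  have hNpos : 0 < N := by omega
  obtain ⟨g, hg⟩ := exists_partition hNpos (fun i => (w i + 1).choose 2) (μ := (m + 1).choose 2)
    (fun i => max_choose (hw i))
  have hcls : ∀ j, cls (fun i => (w i + 1).choose 2) g j = cond (fun i : {i // g i = j} => w i) := by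
    intro j
    rw [← fiber_cond]
    unfold cls Pool.Agent.TH603.Sur.cond
    refine sum_congr rfl fun i _ => ?_
    by_cases hi : g i = j
    · simp only [if_pos hi]
    · simp only [if_neg hi]
      simp
  have hgam := gam hm
  rw [← hN] at hlow hhigh
  refine superpose g (b := fun _ => b) (fun j => ?_) (fun u hu => ?_)
  · obtain ⟨h1, h2⟩ := hg j
    rw [hcls] at h1 h2
    refine cluster_ok hm (fun i => hw i) hb1 hdeg ?_ ?_
    · have h3 : N * ((b + 1).choose 2 + m ^ 3) ≤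
          N * (cond (fun i : {i // g i = j} => w i) + (m + 1).choose 2) := by
        rw [mul_add N (cond _)]
        exact hlow.trans h2
      have h4 := Nat.le_of_mul_le_mul_left h3 hNpos
      omega
    · have h3 : N * (cond (fun i : {i // g i = j} => w i) + m ^ 3) ≤
          N * ((b + 2).choose 2 + (m + 1).choose 2) := by
        rw [mul_add, mul_add]
        have h7 : ∑ i, (w i + 1).choose 2 = cond w := rfl
        rw [h7] at h1
        omega
      have h4 := Nat.le_of_mul_le_mul_left h3 hNpos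
      omega
  · subst hN
    obtain ⟨F, hF, hF'⟩ := Pool.Agent.TH2.NU.near4 (N := l) hl hb1 hu (L := ℚ)
    exact nd_or (nd_of_open hF fun P hP => hF' P hP d)

/-- **Many conditions, bounded multiplicities.** -/
theorem nd_bounded {n m k : ℕ} (hk : 1 ≤ k) (hm : 1 ≤ m) {w : Fin n → ℕ} (hw : ∀ i, w i ≤ m)
    (hA : CC k * (m : ℝ) ^ (6 * k + 6) ≤ ((cond w : ℕ) : ℝ) ^ k) (d : ℕ) :
    Emp w (TZ d) ∨ Sur w (TZ d) := by
  obtain ⟨s, b, hs, hlow, hhigh, h14⟩ := exists_sb hk hm hA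
  have hb1 : 1 ≤ b := by
    have : 1 ≤ m ^ 3 := Nat.one_le_pow _ _ hm
    omega
  exact nd_core hm hw (l := s ^ 2) (by nlinarith) hb1 (deg_cond h14 hm) hlow hhigh d

/-- simple points -/
theorem nd_one {n : ℕ} {w : Fin n → ℕ} (hw : ∀ i, w i ≤ 1) (hA : 34 ≤ cond w) (d : ℕ) :
    Emp w (TZ d) ∨ Sur w (TZ d) := by
  obtain ⟨F, hF, hF'⟩ := Pool.Agent.H932R7.bounded2 ℚ (w := w) (m := 1) (k := 1)
    (by omega) le_rfl hw (fun i hi => absurd (hw i) (by omega))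
  refine nd_or (nd_of_open hF fun P hP => hF' P hP d ⟨?_, Or.inr (Or.inr fun i => Or.inl (hw i))⟩)
  have h1 : 34 ≤ max ((d + 1) * (d + 2)) (∑ i, (w i + 1).choose 2) := hA.trans (le_max_right _ _)
  have h2 : (34 : ℝ) ≤ ((max ((d + 1) * (d + 2)) (∑ i, (w i + 1).choose 2) : ℕ) : ℝ) := by
    exact_mod_cast h1
  refine le_trans ?_ h2
  rw [Nat.cast_one, Real.sqrt_one]
  norm_num

/-- the explicit choice -/
theorem exists_lb {m A : ℕ} (hm : 2 ≤ m) (hA : 81 * m ^ 9 ≤ A) :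
    ∃ l b : ℕ, 36 ≤ l ∧ 1 ≤ b ∧ b + 1 = 3 * m ^ 3 ∧ 4 * l * ((b + 1).choose 2 + m ^ 3) ≤ A ∧
      A + 4 * l * m ^ 3 ≤ 4 * l * (b + 2).choose 2 := by
  obtain ⟨G, hG⟩ : ∃ G, G = m ^ 3 := ⟨_, rfl⟩
  have hG8 : 8 ≤ G := by
    rw [hG]
    calc 8 = 2 ^ 3 := by norm_num
      _ ≤ m ^ 3 := Nat.pow_le_pow_left hm 3
  have hA' : 81 * G ^ 3 ≤ A := by
    rw [hG, ← pow_mul]
    exact hA
  obtain ⟨D, hD⟩ : ∃ D, D + G = 9 * G ^ 2 := ⟨9 * G ^ 2 - G, by
    have : G ≤ 9 * G ^ 2 := by nlinarith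
    omega⟩
  have hDpos : 0 < D := by nlinarith
  obtain ⟨l, hl⟩ : ∃ l, l = A / (2 * D) := ⟨_, rfl⟩
  have hl1 : l * (2 * D) ≤ A := by rw [hl]; exact Nat.div_mul_le_self _ _
  have hl2 : A < (l + 1) * (2 * D) := by
    have h1 := Nat.div_add_mod A (2 * D)
    have h2 := Nat.mod_lt A (show 0 < 2 * D by omega)
    rw [← hl] at h1
    nlinarith
  have h9 : 9 * G ≤ 2 * l + 1 := by
    by_contra hcon
    push Not at hcon
    have h1 : 2 * l + 2 ≤ 9 * G := by omega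
    have h2 : (l + 1) * (2 * D) ≤ 9 * G * D := by nlinarith
    have h3 : 9 * G * D ≤ 81 * G ^ 3 := by nlinarith
    omega
  have hB1 : 2 * (3 * G).choose 2 = 3 * G * (3 * G - 1) := by
    rw [Nat.choose_two_right]
    refine Nat.mul_div_cancel' ?_
    obtain ⟨t, ht⟩ : ∃ t, 3 * G = t + 1 := ⟨3 * G - 1, by omega⟩
    rw [ht, Nat.add_sub_cancel, mul_comm]
    exact (Nat.even_mul_succ_self t).two_dvd
  have hB2 : 2 * (3 * G + 1).choose 2 = (3 * G + 1) * (3 * G) := by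
    rw [Nat.choose_two_right, Nat.add_sub_cancel]
    refine Nat.mul_div_cancel' ?_
    rw [mul_comm]
    exact (Nat.even_mul_succ_self (3 * G)).two_dvd
  obtain ⟨t, ht⟩ : ∃ t, 3 * G = t + 1 := ⟨3 * G - 1, by omega⟩
  rw [ht, Nat.add_sub_cancel] at hB1
  refine ⟨l, t, by omega, by omega, by rw [← hG, ht], ?_, ?_⟩
  · rw [← hG]
    have h1 : 2 * ((t + 1).choose 2 + G) = D := by nlinarith
    have h2 : 4 * l * ((t + 1).choose 2 + G) = l * (2 * D) := by
      rw [← h1]; ring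
    rw [h2]
    exact hl1
  · rw [← hG]
    rw [ht] at hB2
    have h1 : 2 * (t + 2).choose 2 = D + 4 * G := by
      have e : t + 1 + 1 = t + 2 := rfl
      rw [e] at hB2
      nlinarith
    have h2 : 4 * l * (t + 2).choose 2 = 2 * l * (D + 4 * G) := by
      rw [← h1]; ring
    rw [h2]
    nlinarith

/-- **Many conditions, bounded multiplicities, explicit.** -/
theorem nd_explicit {n m : ℕ} (hm : 1 ≤ m) {w : Fin n → ℕ} (hw : ∀ i, w i ≤ m)
    (hA : 81 * m ^ 9 ≤ cond w) (d : ℕ) : Emp w (TZ d) ∨ Sur w (TZ d) := by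
  rcases Nat.lt_or_ge m 2 with h | h
  · have hm1 : m = 1 := by omega
    subst hm1
    exact nd_one hw (by omega) d
  · obtain ⟨l, b, hl, hb, hb3, h1, h2⟩ := exists_lb h hA
    refine nd_core hm hw hl hb ?_ h1 h2 d
    have hmR : (2 : ℝ) ≤ m := by exact_mod_cast h
    have hs : Real.sqrt m ≤ m := by
      rw [Real.sqrt_le_left (by linarith)]
      nlinarith
    have hm3 : (8 : ℝ) ≤ (m : ℝ) ^ 3 := by
      calc (8 : ℝ) = 2 ^ 3 := by norm_num
        _ ≤ (m : ℝ) ^ 3 := pow_le_pow_left₀ (by norm_num) hmR 3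
    have h3 : (m : ℝ) * (m + 1) * (m + 6 * Real.sqrt m + 10) ≤ 34 * (m : ℝ) ^ 3 := by
      have h4 : (m : ℝ) + 6 * Real.sqrt m + 10 ≤ 17 * m := by linarith
      have h5 : (m : ℝ) * (m + 1) ≤ 2 * (m : ℝ) ^ 2 := by nlinarith
      calc (m : ℝ) * (m + 1) * (m + 6 * Real.sqrt m + 10) ≤ 2 * (m : ℝ) ^ 2 * (17 * m) :=
            mul_le_mul h5 h4 (by positivity) (by positivity)
        _ = 34 * (m : ℝ) ^ 3 := by ring
    have hbR : (b : ℝ) + 1 = 3 * (m : ℝ) ^ 3 := by exact_mod_cast hb3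
    push_cast
    nlinarith

end Pool.Agent.V8H84.GL
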