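import Pool.Agent.V8H84.GL.Glue
import Pool.Agent.TH545.Nag.Euc
import Pool.Agent.TH2.NU.Crit

/-! From the expected dimension to emptiness or independence. -/

namespace Pool.Agent.V8H84.GL

open Finset Module Pool.Agent.TH176.Nag Pool.Agent.TH603.Sur Pool.Agent.TH763.DB
open Pool.Agent.H932R2 Pool.Agent.H932R3 Pool.Agent.TH545.Nag Pool.Agent.TH641.UM

section
variable {K : Type} [Field K] [CharZero K]

/-- the polynomial of a Laurent polynomial with nonnegative exponents, as a linear map -/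
noncomputable def TL (K : Type) [Field K] : ((ℤ × ℤ) →₀ K) →ₗ[K] Polynomial (Polynomial K) :=
  Finsupp.linearCombination K (fun m : ℤ × ℤ => Pool.Agent.H932R2.mon K (m.1.toNat, m.2.toNat))

omit [CharZero K] in
theorem TL_apply (f : (ℤ × ℤ) →₀ K) : TL K f = toKXX f := rfl

theorem finrank_Sys_le {n : ℕ} {w : Fin n → ℕ} {P : Fin n → Fin 2 → K} {d : ℕ}
    (hP : ∀ i j, P i j ≠ 0) (h : ExpDim K w P d) :
    finrank K ↥(Sys (TF d) (fun i => P i 0) (fun i => P i 1) w) ≤
      (d + 2).choose 2 - cond w := by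
  have e1 : finrank K ↥(mspan K (Tset d) ⊓ Submodule.restrictScalars K (ptJ P w)) =
      (d + 2).choose 2 - cond w := by
    unfold ExpDim at h
    have h1 := finrank_forms (d := d) (Submodule.restrictScalars K
        (⨅ i : Fin n,
          (Ideal.span
            ({MvPolynomial.X 0 - MvPolynomial.C (P i 0) * MvPolynomial.X 2,
              MvPolynomial.X 1 - MvPolynomial.C (P i 1) * MvPolynomial.X 2} :
              Set (MvPolynomial (Fin 3) K))) ^ (w i))) (Submodule.restrictScalars K (ptJ P w)) (by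
      intro F hF
      rw [Submodule.restrictScalars_mem, Submodule.restrictScalars_mem]
      unfold ptJ vIdeal
      rw [Ideal.mem_iInf, Ideal.mem_iInf]
      exact forall_congr' fun i => mem_ptIdeal_iff hF)
    rw [← h1, h]
    rfl
  rw [← e1]
  have hfin : (Tset d).Finite := by
    refine Set.Finite.subset (Set.finite_Icc ((0, 0) : ℕ × ℕ) (d, d)) ?_
    rintro ⟨a, b⟩ hab
    have : a + b ≤ d := hab
    rw [Set.mem_Icc, Prod.mk_le_mk, Prod.mk_le_mk]
    omega
  have hfd : FiniteDimensional K ↥(mspan K (Tset d)) :=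
    FiniteDimensional.span_of_finite K (hfin.image _)
  have hfd2 : FiniteDimensional K ↥(mspan K (Tset d) ⊓ Submodule.restrictScalars K (ptJ P w)) :=
    Submodule.finiteDimensional_of_le inf_le_left
  have hpos : ∀ f ∈ Sys (TF d) (fun i => P i 0) (fun i => P i 1) w,
      ∀ m ∈ f.support, m ∈ TZ d := by
    rintro f ⟨hf, -⟩ m hm
    have h1 := (Finsupp.mem_supported K f).1 hf
    have h2 := h1 (mem_coe.2 hm)
    rw [coe_TF] at h2
    exact h2
  have hmem : ∀ f : ↥(Sys (TF d) (fun i => P i 0) (fun i => P i 1) w),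
      TL K f ∈ mspan K (Tset d) ⊓ Submodule.restrictScalars K (ptJ P w) := by
    rintro ⟨f, hf⟩
    have hp := hpos f hf
    refine ⟨?_, ?_⟩
    · rw [SetLike.mem_coe, TL_apply]
      unfold toKXX
      refine Submodule.sum_mem _ fun m hm => Submodule.smul_mem _ _ (Submodule.subset_span ?_)
      refine ⟨_, ?_, rfl⟩
      obtain ⟨h1, h2, h3⟩ := hp m hm
      show m.1.toNat + m.2.toNat ≤ d
      omega
    · rw [SetLike.mem_coe, Submodule.restrictScalars_mem]
      unfold ptJ vIdeal
      rw [Ideal.mem_iInf]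
      intro i
      rw [TL_apply]
      refine mem_of_LM (fun m hm => ⟨(hp m hm).1, (hp m hm).2.1⟩) (hP i 0) (hP i 1) ?_
      have h1 := hf.2
      rw [SetLike.mem_coe, Submodule.mem_iInf] at h1
      exact h1 i
  refine LinearMap.finrank_le_finrank_of_injective (f := ((TL K).domRestrict
    (Sys (TF d) (fun i => P i 0) (fun i => P i 1) w)).codRestrict _ hmem) ?_
  rw [injective_iff_map_eq_zero]
  rintro ⟨f, hf⟩ h0
  have h1 : TL K f = 0 := congrArg Subtype.val h0
  rw [TL_apply] at h1
  have hp := hpos f hf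
  apply Subtype.ext
  ext m
  by_contra hne
  have hm : m ∈ f.support := Finsupp.mem_support_iff.2 hne
  have h2 := coeff_toKXX (fun m hm => ⟨(hp m hm).1, (hp m hm).2.1⟩) hm
  rw [h1] at h2
  apply hne
  rw [← h2]
  simp

/-- **The expected dimension gives emptiness or independence.** -/
theorem nd_of_expDim {n : ℕ} {w : Fin n → ℕ} {P : Fin n → Fin 2 → K} {d : ℕ}
    (hP : ∀ i j, P i j ≠ 0) (h : ExpDim K w P d) :
    ((d + 2).choose 2 ≤ cond w → Emp w (TZ d)) ∧ (cond w ≤ (d + 2).choose 2 → Sur w (TZ d)) := by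
  have h1 := finrank_Sys_le hP h
  obtain ⟨T, hT, hTc, hT0⟩ := exists_sub (TF d) (⨅ i, Mul (P i 0) (P i 1) (w i)) h1 (by
    rw [card_TF]
    exact Nat.sub_le _ _)
  have hE : Emp w (↑T : Set (ℤ × ℤ)) := by
    refine ⟨K, inferInstance, inferInstance, fun i => P i 0, fun i => P i 1, fun i => hP i 0,
      fun i => hP i 1, ?_⟩
    intro f hf hL
    have h3 : f ∈ Finsupp.supported K K (↑T : Set (ℤ × ℤ)) ⊓ ⨅ i, Mul (P i 0) (P i 1) (w i) := by
      refine ⟨(Finsupp.mem_supported K f).2 hf, ?_⟩
      rw [SetLike.mem_coe, Submodule.mem_iInf]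
      exact hL
    rw [hT0] at h3
    exact (Submodule.mem_bot K).1 h3
  rw [card_TF] at hTc
  constructor
  · intro hle
    have h2 : T = TF d := by
      apply eq_of_subset_of_card_le hT
      rw [card_TF]
      omega
    rw [← coe_TF, ← h2]
    exact hE
  · intro hle
    refine ⟨T, ?_, by omega, hE⟩
    rw [← coe_TF]
    exact_mod_cast hT

end

end Pool.Agent.V8H84.GL
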