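import Pool.Agent.V8H84.GL.Bounded

/-! Large degrees. -/

namespace Pool.Agent.V8H84.GL

open Finset Module Pool.Agent.TH176.Nag Pool.Agent.TH603.Sur Pool.Agent.TH763.DB
open Pool.Agent.TH641.UM Pool.Agent.TH2.NU Pool.Agent.H932R3

theorem sq_le_choose (d : ℕ) : d ^ 2 ≤ 2 * (d + 2).choose 2 := by
  have h2 : 2 * (d + 2).choose 2 = (d + 1) * (d + 2) := by
    have : 2 * (d + 2).choose 2 = 2 * ((d + 2) * (d + 1) / 2) := by
      rw [Nat.choose_two_right]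
      rfl
    rw [this, Nat.mul_div_cancel' (by
      rw [mul_comm]
      exact (Nat.even_mul_succ_self (d + 1)).two_dvd)]
    ring
  rw [h2]
  nlinarith

theorem cube_cond {m d : ℕ} (hm : 1 ≤ m) (h : 34 * (m : ℝ) ^ 3 ≤ (d : ℝ) ^ 2) :
    (m : ℝ) * (m + 1) * (m + 6 * Real.sqrt m + 10) ≤ (((d + 1) * (d + 2) : ℕ) : ℝ) := by
  have hmR : (1 : ℝ) ≤ m := by exact_mod_cast hm
  have hs : Real.sqrt m ≤ m := by
    rw [Real.sqrt_le_left (by linarith)]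
    nlinarith
  have h3 : (m : ℝ) * (m + 1) * (m + 6 * Real.sqrt m + 10) ≤ 34 * (m : ℝ) ^ 3 := by
    have h4 : (m : ℝ) + 6 * Real.sqrt m + 10 ≤ 17 * m := by linarith
    have h5 : (m : ℝ) * (m + 1) ≤ 2 * (m : ℝ) ^ 2 := by nlinarith
    calc (m : ℝ) * (m + 1) * (m + 6 * Real.sqrt m + 10) ≤ 2 * (m : ℝ) ^ 2 * (17 * m) :=
          mul_le_mul h5 h4 (by positivity) (by positivity)
      _ = 34 * (m : ℝ) ^ 3 := by ring
  have hd : (0 : ℝ) ≤ d := Nat.cast_nonneg d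
  push_cast
  nlinarith

/-- a threshold for the number of conditions gives a threshold for the degree -/
theorem exp_threshold {n m : ℕ} (hm : 1 ≤ m) {w : Fin n → ℕ} (hw : ∀ i, w i ≤ m) {T : ℝ}
    (hT : T ≤ ((cond w : ℕ) : ℝ) → ∀ d, Emp w (TZ d) ∨ Sur w (TZ d)) :
    ∃ F : MvPolynomial (Fin n × Fin 2) ℚ, F ≠ 0 ∧ ∀ P : Fin n → Fin 2 → ℂ,
      MvPolynomial.aeval (fun ij : Fin n × Fin 2 => P ij.1 ij.2) F ≠ 0 →
        ∀ d : ℕ, (T ≤ ((cond w : ℕ) : ℝ) ∨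
          (2 * T + 2 * (m : ℝ) ^ 3 ≤ (d : ℝ) ^ 2 ∧ 34 * (m : ℝ) ^ 3 ≤ (d : ℝ) ^ 2)) →
          ExpDim ℂ w P d := by
  by_cases hA : T ≤ ((cond w : ℕ) : ℝ)
  · obtain ⟨F, hF, hF'⟩ := Pool.Agent.TH864.SX.expDim_of_or (hT hA)
    exact ⟨F, hF, fun P hP d _ => hF' P hP d⟩
  · obtain ⟨F, hF, hF'⟩ := Pool.Agent.H932R7.bounded2 ℂ (w := w) (m := m) (k := m)
      hm le_rfl hw (fun i hi => absurd (hw i) (by omega))
    refine ⟨F, hF, fun P hP d hd => hF' P hP d ?_⟩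
    obtain ⟨h1, h2⟩ := hd.resolve_left hA
    push Not at hA
    refine ⟨(cube_cond hm h2).trans (by exact_mod_cast le_max_left _ _), Or.inr (Or.inl ?_)⟩
    have h3 := gam hm
    have h4 : ∑ i ∈ Finset.univ.filter (fun i => w i ≠ 1), (w i + 1).choose 2 ≤ cond w :=
      Finset.sum_le_sum_of_subset (Finset.filter_subset _ _)
    have h5 : ((cond w : ℕ) : ℝ) + (m : ℝ) ^ 3 ≤ (((d + 2).choose 2 : ℕ) : ℝ) := by
      have h6 : ((d ^ 2 : ℕ) : ℝ) ≤ ((2 * (d + 2).choose 2 : ℕ) : ℝ) := by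
        exact_mod_cast sq_le_choose d
      push_cast at h6
      linarith
    have h7 : cond w + m ^ 3 ≤ (d + 2).choose 2 := by exact_mod_cast h5
    omega

/-- **Explicit**. -/
theorem exp_explicit {n m : ℕ} (hm : 1 ≤ m) {w : Fin n → ℕ} (hw : ∀ i, w i ≤ m) :
    ∃ F : MvPolynomial (Fin n × Fin 2) ℚ, F ≠ 0 ∧ ∀ P : Fin n → Fin 2 → ℂ,
      MvPolynomial.aeval (fun ij : Fin n × Fin 2 => P ij.1 ij.2) F ≠ 0 →
        ∀ d : ℕ, (81 * m ^ 9 ≤ cond w ∨ 164 * m ^ 9 ≤ d ^ 2) → ExpDim ℂ w P d := by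
  obtain ⟨F, hF, hF'⟩ := exp_threshold hm hw (T := 81 * (m : ℝ) ^ 9) (fun h d =>
    nd_explicit hm hw (by exact_mod_cast h) d)
  refine ⟨F, hF, fun P hP d hd => hF' P hP d ?_⟩
  rcases hd with h | h
  · exact Or.inl (by exact_mod_cast h)
  · right
    have h1 : 164 * (m : ℝ) ^ 9 ≤ (d : ℝ) ^ 2 := by exact_mod_cast h
    have hmR : (1 : ℝ) ≤ m := by exact_mod_cast hm
    have h2 : (m : ℝ) ^ 3 ≤ (m : ℝ) ^ 9 := pow_le_pow_right₀ hmR (by norm_num)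
    have h3 : (0 : ℝ) ≤ (m : ℝ) ^ 3 := by positivity
    constructor <;> nlinarith

/-- **Exponent arbitrarily close to three**. -/
theorem exp_eps {ε : ℝ} (hε : 0 < ε) : ∃ K : ℝ, 0 < K ∧ ∀ m : ℕ, 1 ≤ m →
    ∀ (n : ℕ) (w : Fin n → ℕ), (∀ i, w i ≤ m) →
    ∃ F : MvPolynomial (Fin n × Fin 2) ℚ, F ≠ 0 ∧ ∀ P : Fin n → Fin 2 → ℂ,
      MvPolynomial.aeval (fun ij : Fin n × Fin 2 => P ij.1 ij.2) F ≠ 0 →
        ∀ d : ℕ, (K * (m : ℝ) ^ (6 + ε) ≤ ((cond w : ℕ) : ℝ) ∨ K * (m : ℝ) ^ (3 + ε) ≤ (d : ℝ)) →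
          ExpDim ℂ w P d := by
  obtain ⟨k, hk⟩ := exists_nat_gt (6 / ε)
  have hkpos : (0 : ℝ) < k := lt_trans (by positivity) hk
  have hk1 : 1 ≤ k := by
    have : 0 < k := by exact_mod_cast hkpos
    omega
  obtain ⟨T0, hT0, hT0'⟩ : ∃ T0 : ℝ, 2 ≤ T0 ∧ CC k ≤ T0 := ⟨max 2 (CC k), le_max_left _ _,
    le_max_right _ _⟩
  refine ⟨2 * T0 + 2, by linarith, fun m hm n w hw => ?_⟩
  have hmR : (1 : ℝ) ≤ m := by exact_mod_cast hm
  have hm0 : (0 : ℝ) ≤ m := by linarith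
  obtain ⟨F, hF, hF'⟩ := exp_threshold hm hw (T := T0 * (m : ℝ) ^ (6 + ε)) (fun h d => by
    refine nd_bounded hk1 hm hw ?_ d
    have h1 : (T0 * (m : ℝ) ^ (6 + ε)) ^ k ≤ ((cond w : ℕ) : ℝ) ^ k :=
      pow_le_pow_left₀ (by positivity) h k
    refine le_trans ?_ h1
    rw [mul_pow]
    have h2 : T0 ≤ T0 ^ k := le_self_pow₀ (by linarith) (by omega)
    have h3 : (m : ℝ) ^ (6 * k + 6) ≤ ((m : ℝ) ^ (6 + ε)) ^ k := by
      rw [← Real.rpow_natCast, ← Real.rpow_natCast, ← Real.rpow_mul hm0]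
      refine Real.rpow_le_rpow_of_exponent_le hmR ?_
      push_cast
      have h4 : 6 < k * ε := by
        rw [div_lt_iff₀ hε] at hk
        linarith
      nlinarith
    exact mul_le_mul (hT0'.trans h2) h3 (by positivity) (by positivity))
  refine ⟨F, hF, fun P hP d hd => hF' P hP d ?_⟩
  have hpow : (0 : ℝ) < (m : ℝ) ^ (6 + ε) := by positivity
  rcases hd with h | h
  · left
    nlinarith
  · by_cases hA : T0 * (m : ℝ) ^ (6 + ε) ≤ ((cond w : ℕ) : ℝ)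
    · exact Or.inl hA
    · right
      have h1 : ((2 * T0 + 2) * (m : ℝ) ^ (3 + ε)) ^ 2 ≤ (d : ℝ) ^ 2 :=
        pow_le_pow_left₀ (by positivity) h 2
      have h2 : (m : ℝ) ^ (6 + ε) ≤ ((m : ℝ) ^ (3 + ε)) ^ 2 := by
        rw [← Real.rpow_natCast, ← Real.rpow_mul hm0]
        refine Real.rpow_le_rpow_of_exponent_le hmR ?_
        push_cast
        nlinarith
      have h3 : (m : ℝ) ^ 3 ≤ (m : ℝ) ^ (6 + ε) := by
        rw [← Real.rpow_natCast]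
        refine Real.rpow_le_rpow_of_exponent_le hmR ?_
        push_cast
        linarith
      rw [mul_pow] at h1
      have h4 : (2 * T0 + 2) ^ 2 * (m : ℝ) ^ (6 + ε) ≤ (d : ℝ) ^ 2 :=
        le_trans (mul_le_mul_of_nonneg_left h2 (by positivity)) h1
      have h5 : (36 : ℝ) ≤ (2 * T0 + 2) ^ 2 := by nlinarith
      have h6 : 2 * T0 + 2 ≤ (2 * T0 + 2) ^ 2 := by nlinarith
      constructor
      · nlinarith
      · nlinarith

end Pool.Agent.V8H84.GL
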