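import Pool.Agent.V8H84.GL.Trans
import Pool.Agent.TH2.NU.Main

/-! One point is replaced by a cluster. -/

namespace Pool.Agent.V8H84.GL

open Finset Module Pool.Agent.TH176.Nag Pool.Agent.TH603.Sur Pool.Agent.TH763.DB

theorem exists_coord {K V : Type*} [Field K] [AddCommGroup V] [Module K V] (X : Submodule K V)
    [FiniteDimensional K ↥X] {r : ℕ}
    (hr : r = finrank K ↥X) : ∃ B : Fin r → V, (∀ i, B i ∈ X) ∧
      LinearIndependent K B ∧ ∀ g ∈ X, ∃ α : Fin r → K, g = ∑ j, α j • B j := by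
  obtain ⟨f, hf⟩ := exists_linearIndependent_of_le_finrank (R := K) (M := ↥X) hr.le
  let B : Basis (Fin r) K ↥X :=
    basisOfLinearIndependentOfCardEqFinrank' f hf (by rw [Fintype.card_fin, hr])
  refine ⟨fun i => ((B i : ↥X) : V), fun i => (B i).2, ?_, ?_⟩
  · exact B.linearIndependent.map' X.subtype (Submodule.ker_subtype _)
  · intro g hg
    refine ⟨fun j => B.repr ⟨g, hg⟩ j, ?_⟩
    have h3 := B.sum_repr ⟨g, hg⟩
    have h4 := congrArg X.subtype h3
    rw [map_sum] at h4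
    simp only [map_smul] at h4
    exact h4.symm

section
variable {K : Type} [Field K] [CharZero K]

/-- the values of the functionals of degree `b` -/
noncomputable def phi (x y : K) (b : ℕ) : ((ℤ × ℤ) →₀ K) →ₗ[K] (Fin (b + 1) → K) where
  toFun f a := pr f x y (fun u => u.1 ^ (a : ℕ) * u.2 ^ (b - a))
  map_add' := by
    intro f g
    funext a
    exact pr_add_left' _ _ _ _ _
  map_smul' := by
    intro c f
    funext a
    exact pr_smul_left _ _ _ _ _

omit [CharZero K] in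
theorem phi_apply (x y : K) (b : ℕ) (f : (ℤ × ℤ) →₀ K) (a : Fin (b + 1)) :
    phi x y b f a = pr f x y (fun u => u.1 ^ (a : ℕ) * u.2 ^ (b - a)) := rfl

omit [CharZero K] in
theorem pr_qq (x y : K) {b : ℕ} (D E : K × K) {k : ℕ} (hk : k ≤ b) (f : (ℤ × ℤ) →₀ K) :
    pr f x y (qq D E k (b - k)) =
      Pool.Agent.TH552.BB.pair (Pool.Agent.TH552.BB.G b ![D.1, D.2, E.1, E.2] k) (phi x y b f) := by
  have h1 : qq D E k (b - k) = ∑ a : Fin (b + 1),
      (Pool.Agent.TH552.BB.G b ![D.1, D.2, E.1, E.2] k).coeff a •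
      (fun u : K × K => u.1 ^ (a : ℕ) * u.2 ^ (b - a)) := by
    funext u
    rw [Pool.Agent.TH552.BB.hom_qq (by omega : k + (b - k) = b), Finset.sum_apply]
    rfl
  have h2 : pr f x y (qq D E k (b - k)) = prL f x y (qq D E k (b - k)) := rfl
  rw [h2, h1, map_sum]
  unfold Pool.Agent.TH552.BB.pair
  refine Finset.sum_congr rfl fun a _ => ?_
  rw [map_smul, smul_eq_mul]
  rfl

omit [CharZero K] in
theorem pr_form (x y : K) {b : ℕ} (D E : K × K) (τ : ℕ → K) (f : (ℤ × ℤ) →₀ K) :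
    pr f x y (fun u => ∑ q ∈ range (b + 1), τ q * (lin D u ^ q * lin E u ^ (b - q))) =
      Pool.Agent.TH552.BB.pair (GT b ![D.1, D.2, E.1, E.2] τ) (phi x y b f) := by
  have h1 : (fun u => ∑ q ∈ range (b + 1), τ q * (lin D u ^ q * lin E u ^ (b - q))) =
      ∑ q ∈ range (b + 1), τ q • qq D E q (b - q) := by
    funext u
    rw [Finset.sum_apply]
    rfl
  have h2 : pr f x y (fun u => ∑ q ∈ range (b + 1), τ q * (lin D u ^ q * lin E u ^ (b - q))) =
      prL f x y (fun u => ∑ q ∈ range (b + 1), τ q * (lin D u ^ q * lin E u ^ (b - q))) := rfl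
  rw [h2, h1, map_sum]
  have h3 : ∀ q ∈ range (b + 1), prL f x y (τ q • qq D E q (b - q)) =
      τ q * Pool.Agent.TH552.BB.pair (Pool.Agent.TH552.BB.G b ![D.1, D.2, E.1, E.2] q)
        (phi x y b f) := by
    intro q hq
    have := mem_range.1 hq
    rw [map_smul, smul_eq_mul, ← pr_qq x y D E (by omega)]
    rfl
  rw [sum_congr rfl h3]
  unfold Pool.Agent.TH552.BB.pair GT
  simp only [Polynomial.finsetSum_coeff, Polynomial.coeff_smul, smul_eq_mul, mul_sum, sum_mul]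
  rw [sum_comm]
  refine sum_congr rfl fun q _ => sum_congr rfl fun a _ => ?_
  ring

omit [CharZero K] in
theorem LM_succ {f : (ℤ × ℤ) →₀ K} {x y : K} {b : ℕ} (h1 : LM f x y b) (h2 : phi x y b f = 0) :
    LM f x y (b + 1) := by
  apply LM_of_mono
  intro p q hpq
  rcases Nat.lt_or_ge (p + q) b with h | h
  · exact h1 _ (mem_PF_mono h)
  · have h3 := congrFun h2 ⟨p, by omega⟩
    rw [phi_apply] at h3
    have h4 : b - p = q := by omega
    simp only [h4] at h3
    exact h3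

/-- **One point becomes a cluster.** -/
theorem glue_point {ι κ : Type} {R : ι → ℕ} {e : κ → ℕ} {b : ℕ} {I : Finset ℕ}
    (hI : ∀ q ∈ I, q ≤ b) (S : Finset (ℤ × ℤ)) (v : ι → K × K)
    (hv : ∀ f : (ℤ × ℤ) →₀ K, f.support ⊆ Ez b I → (∀ i, LM f (v i).1 (v i).2 (R i)) → f = 0)
    (x y : K) (x' y' : κ → K)
    (hx : x ≠ 0) (hy : y ≠ 0) (hx' : ∀ i, x' i ≠ 0) (hy' : ∀ i, y' i ≠ 0)
    (h1 : finrank K ↥(Sys S x' y' e ⊓ Mul x y b) ≤ I.card)
    (h2 : ∀ f ∈ Sys S x' y' e, LM f x y (b + 1) → f = 0) :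
    Emp (Sum.elim R e) (↑S : Set (ℤ × ℤ)) := by
  classical
  obtain ⟨X, hX⟩ : ∃ X : Submodule K ((ℤ × ℤ) →₀ K), X = Sys S x' y' e ⊓ Mul x y b := ⟨_, rfl⟩
  rw [← hX] at h1
  have hfdS := fd_supp (K := K) S
  have hXfd : FiniteDimensional K ↥X := by
    rw [hX]
    exact Submodule.finiteDimensional_of_le ((inf_le_left.trans inf_le_left) :
      Sys S x' y' e ⊓ Mul x y b ≤ Finsupp.supported K K (↑S : Set (ℤ × ℤ)))
  obtain ⟨r, hr⟩ : ∃ r, r = finrank K ↥X := ⟨_, rfl⟩
  obtain ⟨B, hBX, hBli, hBspan⟩ := exists_coord X hr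
  -- the choice of the exponents
  obtain ⟨J, hJI, hJc⟩ := exists_subset_card_eq (show r ≤ I.card by omega)
  obtain ⟨θ⟩ : Nonempty (Fin r ≃ ↥J) := ⟨(Fintype.equivFinOfCardEq (by
    rw [Fintype.card_coe, hJc])).symm⟩
  have hJb : ∀ i : Fin r, ((θ i : ↥J) : ℕ) ≤ b := fun i => hI _ (hJI (θ i).2)
  have htop : ∀ i : Fin r, ∃ τ : ℕ → K, (∀ q ∈ I, q ≤ b → τ q = if q = ((θ i : ↥J) : ℕ) then 1 else 0) ∧
      Lead R v b (fun u => ∑ q ∈ range (b + 1), τ q * (u.1 ^ q * u.2 ^ (b - q))) :=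
    fun i => lead_top hv _
  choose τ hτ1 hτ2 using htop
  have hτ : ∀ α : Fin r → K, (∀ k ≤ b, ∑ i, α i * τ i k = 0) → α = 0 := by
    intro α hα
    funext j
    have h3 := hα _ (hJb j)
    rw [sum_eq_single j] at h3
    · rw [hτ1 j _ (hJI (θ j).2) (hJb j), if_pos rfl, mul_one] at h3
      exact h3
    · intro i _ hij
      rw [hτ1 i _ (hJI (θ j).2) (hJb j), if_neg, mul_zero]
      intro h4
      apply hij
      exact (θ.injective (Subtype.ext h4)).symm
    · intro h; exact absurd (mem_univ _) h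
  have hβ : LinearIndependent K (fun j => phi x y b (B j)) := by
    rw [Fintype.linearIndependent_iff] at hBli ⊢
    intro α hα
    apply hBli
    have h3 : ∑ j, α j • B j ∈ X := X.sum_mem fun j _ => X.smul_mem _ (hBX j)
    rw [hX] at h3
    refine h2 _ h3.1 (LM_succ (mem_Mul.1 h3.2) ?_)
    rw [map_sum]
    simp only [map_smul]
    exact hα
  obtain ⟨v4, hv4, hdet⟩ := single_poly τ hτ _ hβ
  have hvv : v4 = ![v4 0, v4 1, v4 2, v4 3] := by
    funext i
    fin_cases i <;> rfl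
  refine collide1 (fun i => (v4 0 * (v i).1 + v4 2 * (v i).2, v4 1 * (v i).1 + v4 3 * (v i).2))
    x y x' y' hx hy hx' hy' S ?_
  intro g hgS hgL hgLead
  -- multiplicity at least b
  have hLM : LM g x y b := by
    refine Pool.Agent.TH2.NU.LM_of_qq (D := (v4 0, v4 1)) (E := (v4 2, v4 3)) hv4 ?_
    intro k l hkl
    exact hgLead _ _ ((lead_low hv hkl).comp (v4 0, v4 1) (v4 2, v4 3))
  have hgSys : g ∈ Sys S x' y' e := by
    refine ⟨?_, ?_⟩
    · rw [SetLike.mem_coe, Finsupp.mem_supported]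
      exact_mod_cast hgS
    · rw [SetLike.mem_coe, Submodule.mem_iInf]
      exact hgL
  have hgX : g ∈ X := by
    rw [hX]
    exact ⟨hgSys, hLM⟩
  -- coordinates
  obtain ⟨α, hα⟩ := hBspan g hgX
  have h3 : Matrix.mulVec (Matrix.of fun i j : Fin r =>
      Pool.Agent.TH552.BB.pair (GT b v4 (τ i)) (phi x y b (B j))) α = 0 := by
    funext i
    have h4 := hgLead _ _ ((hτ2 i).comp (v4 0, v4 1) (v4 2, v4 3))
    have h5 := pr_form x y (b := b) (v4 0, v4 1) (v4 2, v4 3) (τ i) g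
    rw [h4] at h5
    simp only at h5
    rw [← hvv] at h5
    rw [Matrix.mulVec, dotProduct, Pi.zero_apply, h5, hα, map_sum]
    unfold Pool.Agent.TH552.BB.pair
    simp only [Matrix.of_apply, Finset.sum_apply, map_smul, Pi.smul_apply, smul_eq_mul, mul_sum,
      sum_mul]
    rw [sum_comm]
    refine sum_congr rfl fun a _ => sum_congr rfl fun j _ => ?_
    ring
  have h4 := Matrix.eq_zero_of_mulVec_eq_zero hdet h3
  rw [hα, h4]
  simp

end

end Pool.Agent.V8H84.GL
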