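import Pool.Agent.V8H84.GL.Near
import Pool.Agent.TH2.NU.Final
import Pool.Agent.TH469.SX.TwentyOneNear
import Pool.Agent.TH760.EN.Asm
import Pool.Agent.Y205.AV.Large

/-! Groups of points which are clusters. -/

namespace Pool.Agent.V8H84.GL

open Finset Module Pool.Agent.TH176.Nag Pool.Agent.TH603.Sur Pool.Agent.TH763.DB
open Pool.Agent.TH641.UM Pool.Agent.TH2.NU Pool.Agent.H932R3

/-- one point -/
theorem near_one (u : Fin 1 → ℕ) (d : ℕ) : Emp u (TZ d) ∨ Sur u (TZ d) := by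
  obtain ⟨k, hk⟩ : ∃ k, k = u 0 := ⟨_, rfl⟩
  have hu : u = fun _ => k := by
    funext i
    rw [hk, Subsingleton.elim i 0]
  subst hu
  have h1 : Emp (fun _ : Fin 1 => k) (Tri 0 0 k) := by
    refine (EmpM_iff ?_ _).1 (M_Tri 0 0 k)
    rw [ms_const]
    simp
  rcases Nat.lt_or_ge d k with h | h
  · left
    refine h1.mono ?_
    rintro ⟨p, q⟩ ⟨h2, h3, h4⟩
    simp only at h2 h3 h4
    refine ⟨h2, h3, ?_⟩
    simp only
    omega
  · right
    refine ⟨Lo k, ?_, ?_, ?_⟩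
    · intro p hp
      have h2 := mem_Lo.1 hp
      exact ⟨h2.1, h2.2.1, by omega⟩
    · rw [card_Lo]
      unfold Pool.Agent.TH603.Sur.cond
      simp
    · refine h1.mono ?_
      intro p hp
      have h2 := mem_Lo.1 hp
      exact ⟨h2.1, h2.2.1, by omega⟩

/-- transfer along a bijection -/
theorem nd_equiv {κ : Type} [Fintype κ] {k : ℕ} (e : Fin k ≃ κ) {R : κ → ℕ} {d : ℕ}
    (h : Emp (fun i => R (e i)) (TZ d) ∨ Sur (fun i => R (e i)) (TZ d)) :
    Emp R (TZ d) ∨ Sur R (TZ d) := nd_congr (ms_equiv e R) h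

/-- near-uniform groups -/
theorem nd_near {N0 : ℕ} (H : ∀ N b : ℕ, Base N0 N → 1 ≤ b → ∀ u : Fin N → ℕ,
    (∀ j, u j = b ∨ u j = b + 1) → ∀ d, Emp u (TZ d) ∨ Sur u (TZ d))
    {κ : Type} [Fintype κ] {R : κ → ℕ} {μ : ℕ} (hμ : 1 ≤ μ)
    (hk : Fintype.card κ = 1 ∨ Base N0 (Fintype.card κ)) (hR : ∀ i, R i = μ ∨ R i = μ + 1) (d : ℕ) :
    Emp R (TZ d) ∨ Sur R (TZ d) := by
  obtain ⟨k, hkk⟩ : ∃ k, k = Fintype.card κ := ⟨_, rfl⟩
  have e : Fin k ≃ κ := (Fintype.equivFinOfCardEq hkk.symm).symm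
  rw [← hkk] at hk
  refine nd_equiv e ?_
  rcases hk with hk | hk
  · subst hk
    exact near_one _ d
  · exact H k μ hk hμ _ (fun i => hR _) d

/-- uniform groups -/
theorem nd_uniform {κ : Type} [Fintype κ] {R : κ → ℕ} {μ : ℕ} (hμ : 1 ≤ μ)
    (hk : Fintype.card κ = 21 ∨ 37 ≤ Fintype.card κ) (hR : ∀ i, R i = μ) (d : ℕ) :
    Emp R (TZ d) ∨ Sur R (TZ d) := by
  obtain ⟨k, hkk⟩ : ∃ k, k = Fintype.card κ := ⟨_, rfl⟩
  have e : Fin k ≃ κ := (Fintype.equivFinOfCardEq hkk.symm).symm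
  rw [← hkk] at hk
  refine nd_equiv e ?_
  have hR' : (fun i => R (e i)) = fun _ => μ := funext fun i => hR _
  rw [hR']
  rcases hk with hk | hk
  · subst hk
    refine Pool.Agent.TH469.SX.dich21_near (m := μ) (fun i => Or.inl rfl) ?_ d
    have h1 : (univ.filter fun _i : Fin 21 => μ = μ + 1) = ∅ := by
      rw [filter_eq_empty_iff]
      intro i _
      omega
    rw [h1]
    simp
  · obtain ⟨F, hF, hF'⟩ := Pool.Agent.TH760.EN.expDim37 (n := k) hk hμ (L := ℚ)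
    exact nd_of_rat hF fun P hP => hF' P hP d

/-- groups of arbitrary multiplicities with a large sum -/
theorem nd_large {κ : Type} [Fintype κ] {R : κ → ℕ} {μ : ℕ} (hR : ∀ i, R i ≤ μ)
    (hsum : 25000 * (μ + 1) ^ 2 ≤ ∑ i, R i) (d : ℕ) : Emp R (TZ d) ∨ Sur R (TZ d) := by
  classical
  obtain ⟨k, hkk⟩ : ∃ k, k = Fintype.card κ := ⟨_, rfl⟩
  have e : Fin k ≃ κ := (Fintype.equivFinOfCardEq hkk.symm).symm
  refine nd_equiv e ?_
  have hsum' : 25000 * (μ + 1) ^ 2 ≤ ∑ i, R (e i) := by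
    rw [Fintype.sum_equiv e (fun i => R (e i)) R fun _ => rfl]
    exact hsum
  have hL : Pool.Agent.Y205.AV.Large d (fun i => R (e i)) := by
    refine ⟨univ, μ, ((univ : Finset (Fin k)).image fun i => R (e i)).card, fun i _ => hR _,
      fun i hi => absurd (mem_univ i) hi, le_rfl, Or.inl ?_⟩
    have h1 : 25000 * ((μ : ℤ) + 1) ^ 2 ≤ ∑ i, ((R (e i) : ℕ) : ℤ) := by
      exact_mod_cast hsum'
    have h2 := abs_nonneg (((d + 2).choose 2 : ℤ) - ∑ i : Fin k, ((R (e i) + 1).choose 2 : ℤ))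
    linarith
  exact nd_of_generic fun hP => Pool.Agent.Y205.AV.large_exp hL hP

/-- at most nine points of arbitrary multiplicities, standard classes -/
theorem nd_nine {N d : ℕ} (h4 : 4 ≤ N) (h9 : N ≤ 9) {u : Fin N → ℕ}
    (hu : ∀ i j k, i ≠ j → i ≠ k → j ≠ k → u i + u j + u k ≤ d) :
    Emp u (TZ d) ∨ Sur u (TZ d) := by
  obtain ⟨r, rfl⟩ : ∃ r, N = r + 4 := ⟨N - 4, by omega⟩
  refine nd_of_generic fun {K} _ _ {P} hP => ?_
  have h1 := Pool.Agent.TH167.TT.nine hP (d := d) (w := u) hu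
    ((card_filter_le _ _).trans (by rw [card_univ, Fintype.card_fin]; exact h9))
  rw [Pool.Agent.TH442.NF.expDim_iff]
  have h3 : Pool.Agent.TH167.SH.chi d u =
      ((d + 2).choose 2 : ℤ) - ((∑ i, (u i + 1).choose 2 : ℕ) : ℤ) := by
    unfold Pool.Agent.TH167.SH.chi
    push_cast
    rfl
  rw [h3]
  omega

end Pool.Agent.V8H84.GL
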