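import Pool.Agent.TH763.DB.Coll
import Pool.Agent.TH15.NagEmpGeneric

/-! Collision of an arbitrary cluster of fat points at one point: the leading functionals. -/

namespace Pool.Agent.V8H84.GL

open Finset Pool.Agent.TH176.Nag Pool.Agent.TH603.Sur Pool.Agent.TH763.DB Module

section
variable {K : Type} [Field K] [CharZero K] {ι : Type}

/-- the power series in `t` of `∑ c j (t u) ^ (r j) exp (t ⟨u, v j⟩)` -/
noncomputable def psi (v : ι → K × K) {σ : Type} [Fintype σ] (r : σ → ι × ℕ × ℕ) (c : σ → K)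
    (u : K × K) : PowerSeries K :=
  ∑ j, PowerSeries.C (c j * (u.1 ^ (r j).2.1 * u.2 ^ (r j).2.2)) *
    PowerSeries.X ^ ((r j).2.1 + (r j).2.2) *
    ee (u.1 * (v (r j).1).1 + u.2 * (v (r j).1).2)

/-- `P` is the leading term, of degree `k`, of a combination of the functionals of the cluster -/
def Lead (R : ι → ℕ) (v : ι → K × K) (k : ℕ) (P : K × K → K) : Prop :=
  ∃ (σ : Type) (_ : Fintype σ) (r : σ → ι × ℕ × ℕ) (c : σ → K),
    (∀ j, (r j).2.1 + (r j).2.2 < R (r j).1) ∧
    ∀ u : K × K, (∀ l < k, PowerSeries.coeff l (psi v r c u) = 0) ∧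
      PowerSeries.coeff k (psi v r c u) = P u

/-- the coefficients of `X ^ a exp (s X)` -/
noncomputable def gg (a : ℕ) (s : K) (m : ℕ) : K := if a ≤ m then s ^ (m - a) / ((m - a).factorial : K) else 0

theorem coeff_ee (s : K) (n : ℕ) : PowerSeries.coeff n (ee s) = s ^ n / (n.factorial : K) := by
  unfold ee
  rw [PowerSeries.coeff_rescale, PowerSeries.coeff_exp]
  simp [div_eq_mul_inv]

theorem coeff_gg (a : ℕ) (s u : K) (m : ℕ) :
    PowerSeries.coeff m (PowerSeries.C (u ^ a) * PowerSeries.X ^ a * ee (u * s)) = gg a s m * u ^ m := by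
  unfold gg
  rw [mul_assoc, PowerSeries.coeff_C_mul, PowerSeries.coeff_X_pow_mul']
  split_ifs with h
  · rw [coeff_ee]
    obtain ⟨n, rfl⟩ := Nat.exists_eq_add_of_le h
    rw [Nat.add_sub_cancel_left, mul_pow, pow_add]
    ring
  · simp

/-- the value of the functional `(i, a, b)` at the exponent `m` -/
noncomputable def rho (v : ι → K × K) (r : ι × ℕ × ℕ) (m : ℕ × ℕ) : K :=
  gg r.2.1 (v r.1).1 m.1 * gg r.2.2 (v r.1).2 m.2

theorem coeff_psi (v : ι → K × K) {σ : Type} [Fintype σ] (r : σ → ι × ℕ × ℕ) (c : σ → K)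
    (u : K × K) (l : ℕ) :
    PowerSeries.coeff l (psi v r c u) =
      ∑ m ∈ antidiagonal l, (∑ j, c j * rho v (r j) m) * (u.1 ^ m.1 * u.2 ^ m.2) := by
  unfold psi
  rw [map_sum]
  have h1 : ∀ j, PowerSeries.coeff l (PowerSeries.C (c j * (u.1 ^ (r j).2.1 * u.2 ^ (r j).2.2)) *
      PowerSeries.X ^ ((r j).2.1 + (r j).2.2) *
      ee (u.1 * (v (r j).1).1 + u.2 * (v (r j).1).2)) =
      ∑ m ∈ antidiagonal l, (c j * rho v (r j) m) * (u.1 ^ m.1 * u.2 ^ m.2) := by
    intro j
    have h2 : PowerSeries.C (c j * (u.1 ^ (r j).2.1 * u.2 ^ (r j).2.2)) *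
        PowerSeries.X ^ ((r j).2.1 + (r j).2.2) *
        ee (u.1 * (v (r j).1).1 + u.2 * (v (r j).1).2) =
        PowerSeries.C (c j) * ((PowerSeries.C (u.1 ^ (r j).2.1) * PowerSeries.X ^ (r j).2.1 *
          ee (u.1 * (v (r j).1).1)) * (PowerSeries.C (u.2 ^ (r j).2.2) *
          PowerSeries.X ^ (r j).2.2 * ee (u.2 * (v (r j).1).2))) := by
      rw [← ee_add, pow_add, map_mul, map_mul]
      ring
    rw [h2, PowerSeries.coeff_C_mul, PowerSeries.coeff_mul, mul_sum]
    refine sum_congr rfl fun m _ => ?_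
    rw [coeff_gg, coeff_gg]
    unfold rho
    ring
  rw [sum_congr rfl fun j _ => h1 j, sum_comm]
  refine sum_congr rfl fun m _ => ?_
  rw [sum_mul]

/-- **Collision of one cluster.** If no nonzero Laurent polynomial with exponents in `S` satisfies
the conditions at the spectators and is killed by all leading functionals of the cluster at
`(x, y)`, then the system with the cluster and the spectators is empty. -/
theorem collide1 {R : ι → ℕ} {κ : Type} {e : κ → ℕ} (v : ι → K × K) (x y : K) (x' y' : κ → K)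
    (hx : x ≠ 0) (hy : y ≠ 0) (hx' : ∀ i, x' i ≠ 0) (hy' : ∀ i, y' i ≠ 0) (S : Finset (ℤ × ℤ))
    (h : ∀ g : (ℤ × ℤ) →₀ K, g.support ⊆ S → (∀ j, LM g (x' j) (y' j) (e j)) →
      (∀ k P, Lead R v k P → pr g x y P = 0) → g = 0) :
    Emp (Sum.elim R e) (↑S : Set (ℤ × ℤ)) := by
  classical
  have hcz : CharZero (LL K) := by
    have h1 : Function.Injective ((io K).comp (PowerSeries.C (R := K))) :=
      ((io K).comp (PowerSeries.C (R := K))).injective
    exact charZero_of_injective_ringHom h1
  have hCne : ∀ z : K, z ≠ 0 → io K (PowerSeries.C z) ≠ 0 := by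
    intro z hz h0
    apply hz
    have := ((io K).comp (PowerSeries.C (R := K))).injective (by
      rw [map_zero]; exact h0 : ((io K).comp (PowerSeries.C (R := K))) z =
        ((io K).comp (PowerSeries.C (R := K))) 0)
    exact this
  refine ⟨LL K, inferInstance, hcz,
    Sum.elim (fun i => io K (PowerSeries.C x * ee ((v i).1 * 1 + (v i).2 * 0)))
      (fun j => io K (PowerSeries.C (x' j) * ee ((0 : K) * 1 + 0 * 0))),
    Sum.elim (fun i => io K (PowerSeries.C y * ee ((v i).1 * 0 + (v i).2 * 1)))
      (fun j => io K (PowerSeries.C (y' j) * ee ((0 : K) * 0 + 0 * 1))), ?_, ?_, ?_⟩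
  · rintro (p | j)
    · simp only [Sum.elim_inl]
      rw [map_mul]
      exact mul_ne_zero (hCne _ hx) (io_ee_ne _)
    · simp only [Sum.elim_inr]
      rw [map_mul]
      exact mul_ne_zero (hCne _ (hx' _)) (io_ee_ne _)
  · rintro (p | j)
    · simp only [Sum.elim_inl]
      rw [map_mul]
      exact mul_ne_zero (hCne _ hy) (io_ee_ne _)
    · simp only [Sum.elim_inr]
      rw [map_mul]
      exact mul_ne_zero (hCne _ (hy' _)) (io_ee_ne _)
  · intro f hfS hfL
    by_contra hf0
    have hfS' : f.support ⊆ S := by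
      intro u hu
      exact mem_coe.1 (hfS (mem_coe.2 hu))
    obtain ⟨b, hb⟩ := IsLocalization.exist_integer_multiples (nonZeroDivisors (PowerSeries K)) S
      (fun u => f u)
    have hb' : ∀ u ∈ S, ∃ g : PowerSeries K, io K g = io K (b : PowerSeries K) * f u := by
      intro u hu
      obtain ⟨g, hg⟩ := hb u hu
      refine ⟨g, ?_⟩
      have h1 : (b • f u : LL K) = io K (b : PowerSeries K) * f u := by
        rw [Submonoid.smul_def, Algebra.smul_def]
      rw [← h1]
      exact hg
    choose! G hG using hb'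
    have hbne : io K (b : PowerSeries K) ≠ 0 := by
      intro h0
      have h1 : (b : PowerSeries K) = 0 := io_inj (by rw [h0, map_zero])
      exact nonZeroDivisors.coe_ne_zero b h1
    obtain ⟨u0, hu0⟩ := Finsupp.support_nonempty_iff.2 hf0
    have hu0S := hfS' hu0
    have hG0 : G u0 ≠ 0 := by
      intro h0
      have h1 := hG u0 hu0S
      rw [h0, map_zero] at h1
      exact (mul_ne_zero hbne (Finsupp.mem_support_iff.1 hu0)) h1.symm
    obtain ⟨q, H, hH, u1, hu1, hne⟩ := norm_fam G ⟨u0, hu0S, hG0⟩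
    have hXne : io K ((PowerSeries.X : PowerSeries K) ^ q) ≠ 0 := by
      intro h0
      have h1 : (PowerSeries.X : PowerSeries K) ^ q = 0 := io_inj (by rw [h0, map_zero])
      exact pow_ne_zero _ PowerSeries.X_ne_zero h1
    obtain ⟨c, hc⟩ : ∃ c : LL K, c = io K (b : PowerSeries K) *
      (io K ((PowerSeries.X : PowerSeries K) ^ q))⁻¹ := ⟨_, rfl⟩
    have hFH : ∀ u ∈ S, (c • f) u = io K (H u) := by
      intro u hu
      rw [Finsupp.smul_apply, smul_eq_mul, hc]
      have h1 := hG u hu
      rw [hH u hu, map_mul] at h1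
      rw [mul_right_comm, ← h1]
      field_simp
    have hFS : (c • f).support ⊆ S := (Finsupp.support_smul).trans hfS'
    have hFL : ∀ (X Y : LL K) (w : ℕ), LM f X Y w → LM (c • f) X Y w := by
      intro X Y w hL P hP
      rw [pr_smul_left, hL P hP, mul_zero]
    -- the limit
    obtain ⟨g, hg⟩ : ∃ g : (ℤ × ℤ) →₀ K, g = Finsupp.onFinset S
        (fun u => if u ∈ S then PowerSeries.constantCoeff (H u) else 0) (by
          intro u hu
          by_contra hnot
          exact hu (if_neg hnot)) := ⟨_, rfl⟩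
    have hgS : g.support ⊆ S := by rw [hg]; exact Finsupp.support_onFinset_subset
    have hgu : ∀ u ∈ S, g u = PowerSeries.constantCoeff (H u) := by
      intro u hu
      rw [hg, Finsupp.onFinset_apply, if_pos hu]
    have hgne : g ≠ 0 := by
      intro h0
      apply hne
      rw [← hgu u1 hu1, h0, Finsupp.zero_apply]
    apply hgne
    refine h g hgS ?_ ?_
    · intro j
      apply LM_of_mono
      intro a b' hab
      have h1 := sum_zero (D := ((1 : K), (0 : K))) (E := ((0 : K), (1 : K))) (hx' j) (hy' j) hFS hFH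
        (hFL _ _ _ (hfL (Sum.inr j))) hab
      have h2 := congrArg PowerSeries.constantCoeff h1
      rw [map_zero, map_sum] at h2
      rw [pr_eq_sum hgS, ← h2]
      refine sum_congr rfl fun u hu => ?_
      rw [map_mul, map_mul, ee_const, PowerSeries.constantCoeff_C, hgu u hu]
      unfold lin
      simp only [one_mul, zero_mul, add_zero, zero_add, mul_one]
      ring
    · rintro k P ⟨σ, _, r, cc, hr, hP⟩
      -- the sum with psi vanishes
      have h1 : ∑ u ∈ S, H u * PowerSeries.C (x ^ u.1 * y ^ u.2) *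
          psi v r cc ((u.1 : K), (u.2 : K)) = 0 := by
        have h2 : ∀ j : σ, ∑ u ∈ S, H u * PowerSeries.C (x ^ u.1 * y ^ u.2) *
            (PowerSeries.C (cc j * ((u.1 : K) ^ (r j).2.1 * (u.2 : K) ^ (r j).2.2)) *
              PowerSeries.X ^ ((r j).2.1 + (r j).2.2) *
              ee ((u.1 : K) * (v (r j).1).1 + (u.2 : K) * (v (r j).1).2)) = 0 := by
          intro j
          have h3 := sum_zero (D := ((1 : K), (0 : K))) (E := ((0 : K), (1 : K))) hx hy hFS hFH
            (hFL _ _ _ (hfL (Sum.inl (r j).1))) (hr j)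
          rw [← mul_zero (PowerSeries.C (cc j) * PowerSeries.X ^ ((r j).2.1 + (r j).2.2) :
            PowerSeries K), ← h3, mul_sum]
          refine sum_congr rfl fun u _ => ?_
          have e1 : (v (r j).1).1 * lin ((1 : K), (0 : K)) ((u.1 : K), (u.2 : K)) +
              (v (r j).1).2 * lin ((0 : K), (1 : K)) ((u.1 : K), (u.2 : K)) =
              (u.1 : K) * (v (r j).1).1 + (u.2 : K) * (v (r j).1).2 := by
            unfold lin
            ring
          rw [e1]
          have e2 : lin ((1 : K), (0 : K)) ((u.1 : K), (u.2 : K)) = (u.1 : K) := by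
            unfold lin; ring
          have e3 : lin ((0 : K), (1 : K)) ((u.1 : K), (u.2 : K)) = (u.2 : K) := by
            unfold lin; ring
          rw [e2, e3]
          simp only [map_mul]
          ring
        unfold psi
        simp only [mul_sum]
        rw [sum_comm]
        exact sum_eq_zero fun j _ => h2 j
      have hdiv : ∀ u : K × K, ∃ Ψ : PowerSeries K, psi v r cc u = PowerSeries.X ^ k * Ψ ∧
          PowerSeries.constantCoeff Ψ = P u := by
        intro u
        obtain ⟨h2, h3⟩ := hP u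
        have h4 : (PowerSeries.X : PowerSeries K) ^ k ∣ psi v r cc u := by
          rw [PowerSeries.X_pow_dvd_iff]
          exact h2
        obtain ⟨Ψ, hΨ⟩ := h4
        refine ⟨Ψ, hΨ, ?_⟩
        have h5 := PowerSeries.coeff_X_pow_mul Ψ k 0
        rw [zero_add, ← hΨ, h3] at h5
        rw [← PowerSeries.coeff_zero_eq_constantCoeff_apply, ← h5]
      choose Ψ hΨ hΨ' using hdiv
      have key2 : (PowerSeries.X : PowerSeries K) ^ k *
          ∑ u ∈ S, H u * PowerSeries.C (x ^ u.1 * y ^ u.2) * Ψ ((u.1 : K), (u.2 : K)) = 0 := by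
        rw [← h1, mul_sum]
        refine sum_congr rfl fun u _ => ?_
        rw [hΨ]
        ring
      have key3 := (mul_eq_zero.1 key2).resolve_left (pow_ne_zero _ PowerSeries.X_ne_zero)
      have key4 := congrArg PowerSeries.constantCoeff key3
      rw [map_zero, map_sum] at key4
      rw [pr_eq_sum hgS, ← key4]
      refine sum_congr rfl fun u hu => ?_
      rw [map_mul, map_mul, hΨ', PowerSeries.constantCoeff_C, hgu u hu]
      ring

end

end Pool.Agent.V8H84.GL
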