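import Pool.Agent.V8H84.GL.Conv
import Pool.Agent.TH2.NU.Multi

/-! The gluing theorem: a point of multiplicity `b` or `b + 1` is replaced by a cluster. -/

namespace Pool.Agent.V8H84.GL

open Finset Module Pool.Agent.TH176.Nag Pool.Agent.TH603.Sur Pool.Agent.TH763.DB
open Pool.Agent.TH641.UM Pool.Agent.TH2.NU

/-- emptiness bounds the number of exponents -/
theorem card_le_of_Emp {ι : Type} [Fintype ι] {w : ι → ℕ} {T : Finset (ℤ × ℤ)}
    (h : Emp w (↑T : Set (ℤ × ℤ))) : T.card ≤ cond w := by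
  classical
  obtain ⟨K, _, _, x, y, hx, hy, hf⟩ := h
  let φ : ((ℤ × ℤ) →₀ K) →ₗ[K] ((Σ i : ι, {p : ℕ × ℕ // p ∈ FF 0 (w i)}) → K) :=
    { toFun := fun f j => pr f (x j.1) (y j.1) (fun u => u.1 ^ (j.2 : ℕ × ℕ).1 * u.2 ^ (j.2 : ℕ × ℕ).2)
      map_add' := by
        intro f g
        funext a
        exact pr_add_left' _ _ _ _ _
      map_smul' := by
        intro c f
        funext a
        exact pr_smul_left _ _ _ _ _ }
  have hfd := fd_supp (K := K) T
  have hle : finrank K ↥(Finsupp.supported K K (↑T : Set (ℤ × ℤ))) ≤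
      Fintype.card (Σ i : ι, {p : ℕ × ℕ // p ∈ FF 0 (w i)}) := by
    have h1 := LinearMap.finrank_le_finrank_of_injective
      (f := φ.domRestrict (Finsupp.supported K K (↑T : Set (ℤ × ℤ)))) (by
      rw [injective_iff_map_eq_zero]
      rintro ⟨g, hg⟩ hg0
      apply Subtype.ext
      apply hf g ((Finsupp.mem_supported K g).1 hg)
      intro i
      apply LM_of_mono
      intro a c hac
      exact congrFun hg0 ⟨i, ⟨(a, c), mem_FF.2 ⟨by simp, hac⟩⟩⟩)
    rwa [Module.finrank_fintype_fun_eq_card] at h1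
  rw [finrank_supp] at hle
  refine hle.trans (le_of_eq ?_)
  rw [Fintype.card_sigma]
  unfold Pool.Agent.TH603.Sur.cond
  refine sum_congr rfl fun i _ => ?_
  rw [Fintype.card_coe]
  have h2 := card_FF (Nat.zero_le (w i))
  simpa using h2

/-- choice of exponents containing a given set -/
theorem exists_sub' {K : Type} [Field K] (S T0 : Finset (ℤ × ℤ)) (hT0 : T0 ⊆ S)
    (V : Submodule K ((ℤ × ℤ) →₀ K)) (h0 : Finsupp.supported K K (↑T0 : Set (ℤ × ℤ)) ⊓ V = ⊥)
    {c : ℕ} (h : finrank K ↥(Finsupp.supported K K (↑S : Set (ℤ × ℤ)) ⊓ V) ≤ c)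
    (hc : T0.card + c ≤ S.card) :
    ∃ T ⊆ S, T0 ⊆ T ∧ T.card + c = S.card ∧ Finsupp.supported K K (↑T : Set (ℤ × ℤ)) ⊓ V = ⊥ := by
  classical
  have key : ∀ (z : ℕ) (T : Finset (ℤ × ℤ)), T0 ⊆ T →
      finrank K ↥(Finsupp.supported K K (↑T : Set (ℤ × ℤ)) ⊓ V) ≤ z → T0.card + z ≤ T.card →
      ∃ T' ⊆ T, T0 ⊆ T' ∧ T'.card + z = T.card ∧
        Finsupp.supported K K (↑T' : Set (ℤ × ℤ)) ⊓ V = ⊥ := by
    intro z
    induction z with
    | zero =>
      intro T hT0T hT _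
      refine ⟨T, Subset.refl _, hT0T, by omega, ?_⟩
      have := fd_supp (K := K) T
      have : FiniteDimensional K ↥(Finsupp.supported K K (↑T : Set (ℤ × ℤ)) ⊓ V) :=
        Submodule.finiteDimensional_of_le inf_le_left
      exact Submodule.finrank_eq_zero.1 (by omega)
    | succ z ih =>
      intro T hT0T hT hz
      have := fd_supp (K := K) T
      have hfdT : FiniteDimensional K ↥(Finsupp.supported K K (↑T : Set (ℤ × ℤ)) ⊓ V) :=
        Submodule.finiteDimensional_of_le inf_le_left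
      -- an element outside of `T0` whose removal lowers the dimension
      obtain ⟨u, huT, hu0, hlow⟩ : ∃ u ∈ T, u ∉ T0 ∧
          finrank K ↥(Finsupp.supported K K (↑(T.erase u) : Set (ℤ × ℤ)) ⊓ V) ≤ z := by
        by_cases hb : Finsupp.supported K K (↑T : Set (ℤ × ℤ)) ⊓ V = ⊥
        · obtain ⟨u, hu, hu'⟩ : ∃ u ∈ T, u ∉ T0 := by
            by_contra hcon
            push Not at hcon
            have := card_le_card (fun u hu => hcon u hu : T ⊆ T0)
            omega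
          refine ⟨u, hu, hu', ?_⟩
          have h4 : Finsupp.supported K K (↑(T.erase u) : Set (ℤ × ℤ)) ⊓ V ≤
              Finsupp.supported K K (↑T : Set (ℤ × ℤ)) ⊓ V :=
            inf_le_inf_right _ (Finsupp.supported_mono (by
              exact_mod_cast erase_subset u T))
          rw [hb] at h4
          rw [le_bot_iff.1 h4]
          simp
        · obtain ⟨f, hf, hf0⟩ := Submodule.exists_mem_ne_zero_of_ne_bot hb
          obtain ⟨u, hu, hu0⟩ : ∃ u ∈ f.support, u ∉ T0 := by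
            by_contra hcon
            push Not at hcon
            have h3 : f ∈ Finsupp.supported K K (↑T0 : Set (ℤ × ℤ)) ⊓ V := by
              refine ⟨(Finsupp.mem_supported K f).2 ?_, hf.2⟩
              intro u hu
              exact mem_coe.2 (hcon u (mem_coe.1 hu))
            rw [h0, Submodule.mem_bot] at h3
            exact hf0 h3
          have huT : u ∈ T := by
            have := (Finsupp.mem_supported K f).1 hf.1
            exact mem_coe.1 (this (mem_coe.2 hu))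
          refine ⟨u, huT, hu0, ?_⟩
          have hlt : Finsupp.supported K K (↑(T.erase u) : Set (ℤ × ℤ)) ⊓ V <
              Finsupp.supported K K (↑T : Set (ℤ × ℤ)) ⊓ V := by
            refine lt_of_le_of_ne (inf_le_inf_right _ (Finsupp.supported_mono (by
                exact_mod_cast erase_subset u T))) ?_
            intro heq
            rw [← heq] at hf
            have h5 := (Finsupp.mem_supported K f).1 hf.1
            have h6 := h5 (mem_coe.2 hu)
            rw [coe_erase] at h6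
            exact h6.2 rfl
          have h7 := Submodule.finrank_lt_finrank_of_lt hlt
          omega
      have hc1 := card_erase_of_mem huT
      have hpos := card_pos.2 ⟨u, huT⟩
      have hsub : T0 ⊆ T.erase u := fun x hx => mem_erase.2 ⟨fun h => hu0 (h ▸ hx), hT0T hx⟩
      obtain ⟨T', h1, h2, h3, h4⟩ := ih (T.erase u) hsub hlow (by omega)
      exact ⟨T', h1.trans (erase_subset _ _), h2, by omega, h4⟩
  exact key c S hT0 h hc

/-- the exponents of degree less than `b` -/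
def Lo (b : ℕ) : Finset (ℤ × ℤ) := Ez b ∅

theorem mem_Lo {b : ℕ} {m : ℤ × ℤ} : m ∈ Lo b ↔ 0 ≤ m.1 ∧ 0 ≤ m.2 ∧ m.1 + m.2 < (b : ℤ) := by
  unfold Lo
  rw [mem_Ez]
  constructor
  · rintro ⟨p, hp, rfl⟩
    rw [mem_Ex] at hp
    rcases hp with hp | hp
    · simp only
      omega
    · exact absurd hp.2 (notMem_empty _)
  · rintro ⟨h1, h2, h3⟩
    refine ⟨(m.1.toNat, m.2.toNat), mem_Ex.2 (Or.inl ?_), ?_⟩
    · simp only; omega
    · ext
      · simp only; omega
      · simp only; omega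

theorem coe_Lo_succ (d : ℕ) : (↑(Lo (d + 1)) : Set (ℤ × ℤ)) = TZ d := by
  ext m
  rw [mem_coe, mem_Lo]
  constructor
  · rintro ⟨h1, h2, h3⟩
    exact ⟨h1, h2, by push_cast at h3; omega⟩
  · rintro ⟨h1, h2, h3⟩
    exact ⟨h1, h2, by push_cast; omega⟩

theorem card_Lo (b : ℕ) : (Lo b).card = (b + 1).choose 2 := by
  cases b with
  | zero =>
    rw [card_eq_zero.2 (eq_empty_of_forall_notMem fun m hm => by
      rw [mem_Lo] at hm
      push_cast at hm
      omega)]
    rfl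
  | succ d =>
    have h1 : Lo (d + 1) = TF d := by
      apply coe_injective
      rw [coe_Lo_succ, coe_TF]
    rw [h1, card_TF]

theorem Lo_subset_TF (b : ℕ) : Lo b ⊆ TF b := by
  intro m hm
  rw [← mem_coe, coe_TF]
  obtain ⟨h1, h2, h3⟩ := mem_Lo.1 hm
  exact ⟨h1, h2, by omega⟩

theorem TF_nonneg {d : ℕ} : ∀ u ∈ TF d, 0 ≤ u.1 ∧ 0 ≤ u.2 := TF_pos d

/-- the data of a cluster at rational points -/
theorem exists_cluster {ι : Type} [Fintype ι] {R : ι → ℕ} {b : ℕ}
    (h1 : Emp R (↑(Lo b) : Set (ℤ × ℤ))) (h2 : Sur R (TZ b)) :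
    ∃ (I : Finset ℕ) (v : ι → ℚ × ℚ), (∀ q ∈ I, q ≤ b) ∧ I.card + (b + 1).choose 2 = cond R ∧
      ∀ f : (ℤ × ℤ) →₀ ℚ, f.support ⊆ Ez b I → (∀ i, LM f (v i).1 (v i).2 (R i)) → f = 0 := by
  classical
  obtain ⟨T1, hT1, hT1c, hT1E⟩ := h2
  have hT1F : T1 ⊆ TF b := by
    intro u hu
    rw [← mem_coe, coe_TF]
    exact hT1 (mem_coe.2 hu)
  obtain ⟨F1, hF1, hF1'⟩ := Emp_open (Lo b).finite_toSet (fun u hu => by
    obtain ⟨h3, h4, -⟩ := mem_Lo.1 (mem_coe.1 hu)
    exact ⟨h3, h4⟩) h1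
  obtain ⟨F2, hF2, hF2'⟩ := Emp_open T1.finite_toSet (fun u hu => ⟨(hT1 hu).1, (hT1 hu).2.1⟩) hT1E
  obtain ⟨P, hP⟩ : ∃ P : ι × Fin 2 → ℚ, MvPolynomial.eval P (F1 * F2) ≠ 0 := by
    by_contra hcon
    push Not at hcon
    exact mul_ne_zero hF1 hF2 (MvPolynomial.funext fun P => by rw [hcon P, map_zero])
  rw [map_mul] at hP
  have hP1 : MvPolynomial.aeval P F1 ≠ 0 := by
    have := left_ne_zero_of_mul hP
    rwa [← MvPolynomial.coe_aeval_eq_eval] at this
  have hP2 : MvPolynomial.aeval P F2 ≠ 0 := by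
    have := right_ne_zero_of_mul hP
    rwa [← MvPolynomial.coe_aeval_eq_eval] at this
  obtain ⟨-, hL1⟩ := hF1' P hP1
  obtain ⟨-, hL2⟩ := hF2' P hP2
  obtain ⟨V, hV⟩ : ∃ V : Submodule ℚ ((ℤ × ℤ) →₀ ℚ), V = ⨅ i, Mul (P (i, 0)) (P (i, 1)) (R i) :=
    ⟨_, rfl⟩
  have hmemV : ∀ f, f ∈ V ↔ ∀ i, LM f (P (i, 0)) (P (i, 1)) (R i) := by
    intro f
    rw [hV, Submodule.mem_iInf]
    rfl
  have hb0 : Finsupp.supported ℚ ℚ (↑(Lo b) : Set (ℤ × ℤ)) ⊓ V = ⊥ := by
    rw [eq_bot_iff]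
    rintro f ⟨hf1, hf2⟩
    exact (Submodule.mem_bot ℚ).2 (hL1 f ((Finsupp.mem_supported ℚ f).1 hf1) ((hmemV f).1 hf2))
  have hb1 : Finsupp.supported ℚ ℚ (↑T1 : Set (ℤ × ℤ)) ⊓ V = ⊥ := by
    rw [eq_bot_iff]
    rintro f ⟨hf1, hf2⟩
    exact (Submodule.mem_bot ℚ).2 (hL2 f ((Finsupp.mem_supported ℚ f).1 hf1) ((hmemV f).1 hf2))
  have hcT := card_le_card hT1F
  rw [card_TF] at hcT
  have hcL := card_le_of_Emp h1
  rw [card_Lo] at hcL
  have hfr : finrank ℚ ↥(Finsupp.supported ℚ ℚ (↑(TF b) : Set (ℤ × ℤ)) ⊓ V) ≤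
      (TF b).card - cond R := by
    refine finrank_le_of_inf hT1F ?_ inf_le_left ?_
    · rw [card_TF]
      omega
    · rw [eq_bot_iff, ← hb1]
      rintro f ⟨⟨-, hf1⟩, hf2⟩
      exact ⟨hf2, hf1⟩
  obtain ⟨T, hTF, hLT, hTc, hT0⟩ := exists_sub' (TF b) (Lo b) (Lo_subset_TF b) V hb0 hfr (by
    rw [card_TF, card_Lo]
    omega)
  rw [card_TF] at hTc
  -- the set of the first coordinates
  let I : Finset ℕ := (range (b + 1)).filter fun q => ((q : ℤ), ((b - q : ℕ) : ℤ)) ∈ T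
  have hTI : T = Ez b I := by
    ext m
    rw [mem_Ez]
    constructor
    · intro hm
      have h3 : m ∈ TZ b := by
        rw [← coe_TF]
        exact mem_coe.2 (hTF hm)
      obtain ⟨h4, h5, h6⟩ := h3
      refine ⟨(m.1.toNat, m.2.toNat), mem_Ex.2 ?_, ?_⟩
      · rcases lt_or_ge (m.1.toNat + m.2.toNat) b with h | h
        · exact Or.inl h
        · right
          refine ⟨by simp only; omega, ?_⟩
          simp only [I, mem_filter, mem_range]
          refine ⟨by omega, ?_⟩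
          have e : (((m.1.toNat : ℕ) : ℤ), ((b - m.1.toNat : ℕ) : ℤ)) = m := by
            ext
            · simp only; omega
            · simp only; omega
          rw [e]
          exact hm
      · ext
        · simp only; omega
        · simp only; omega
    · rintro ⟨p, hp, rfl⟩
      rw [mem_Ex] at hp
      rcases hp with hp | ⟨hp1, hp2⟩
      · exact hLT (mem_Lo.2 ⟨by simp, by simp, by simp only; omega⟩)
      · simp only [I, mem_filter, mem_range] at hp2
        have e : b - p.1 = p.2 := by omega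
        rw [e] at hp2
        exact hp2.2
  refine ⟨I, fun i => (P (i, 0), P (i, 1)), ?_, ?_, ?_⟩
  · intro q hq
    simp only [I, mem_filter, mem_range] at hq
    omega
  · -- the number of elements
    have h3 : T.card = (Lo b).card + I.card := by
      have h4 : T = Lo b ∪ I.image fun q : ℕ => ((q : ℤ), ((b - q : ℕ) : ℤ)) := by
        ext m
        rw [hTI, mem_Ez, mem_union, mem_Lo, mem_image]
        constructor
        · rintro ⟨p, hp, rfl⟩
          rw [mem_Ex] at hp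
          rcases hp with hp | ⟨hp1, hp2⟩
          · left
            exact ⟨by simp, by simp, by simp only; omega⟩
          · right
            refine ⟨p.1, hp2, ?_⟩
            ext
            · rfl
            · simp only; omega
        · rintro (⟨h5, h6, h7⟩ | ⟨q, hq, rfl⟩)
          · refine ⟨(m.1.toNat, m.2.toNat), mem_Ex.2 (Or.inl ?_), ?_⟩
            · simp only; omega
            · ext
              · simp only; omega
              · simp only; omega
          · have hqb : q ≤ b := by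
              simp only [I, mem_filter, mem_range] at hq
              omega
            exact ⟨(q, b - q), mem_Ex.2 (Or.inr ⟨by simp only; omega, hq⟩), rfl⟩
      rw [h4, card_union_of_disjoint, card_image_of_injective]
      · intro p q hpq
        simp only [Prod.mk.injEq, Nat.cast_inj] at hpq
        exact hpq.1
      · rw [disjoint_left]
        intro m hm hm'
        rw [mem_Lo] at hm
        rw [mem_image] at hm'
        obtain ⟨q, hq, rfl⟩ := hm'
        have hqb : q ≤ b := by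
          simp only [I, mem_filter, mem_range] at hq
          omega
        simp only at hm
        omega
    rw [card_Lo] at h3
    omega
  · intro f hf hL
    have h3 : f ∈ Finsupp.supported ℚ ℚ (↑T : Set (ℤ × ℤ)) ⊓ V := by
      refine ⟨(Finsupp.mem_supported ℚ f).2 ?_, (hmemV f).2 hL⟩
      rw [hTI]
      exact_mod_cast hf
    rw [hT0] at h3
    exact (Submodule.mem_bot ℚ).1 h3

theorem cond_elim {ι κ : Type} [Fintype ι] [Fintype κ] (R : ι → ℕ) (e : κ → ℕ) :
    cond (Sum.elim R e) = cond R + cond e := by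
  unfold Pool.Agent.TH603.Sur.cond
  rw [Fintype.sum_sum_type]
  rfl

theorem cond_unit (b : ℕ) : cond (fun _ : Unit => b) = (b + 1).choose 2 := by
  unfold Pool.Agent.TH603.Sur.cond
  simp

/-- the main step, independence at `b` and emptiness at `b + 1` -/
theorem glue_Emp {ι κ : Type} [Fintype ι] [Fintype κ] {R : ι → ℕ} {e : κ → ℕ} {b : ℕ}
    (h1 : Emp R (↑(Lo b) : Set (ℤ × ℤ))) (h2 : Sur R (TZ b)) {S : Finset (ℤ × ℤ)}
    (hpos : ∀ u ∈ S, 0 ≤ u.1 ∧ 0 ≤ u.2)
    (h3 : Sur (Sum.elim (fun _ : Unit => b) e) (↑S : Set (ℤ × ℤ)))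
    (h4 : Emp (Sum.elim (fun _ : Unit => b + 1) e) (↑S : Set (ℤ × ℤ)))
    (hS : S.card ≤ cond (Sum.elim R e)) : Emp (Sum.elim R e) (↑S : Set (ℤ × ℤ)) := by
  classical
  obtain ⟨I, v, hI, hIc, hv⟩ := exists_cluster h1 h2
  obtain ⟨T, hT, hTc, hTE⟩ := h3
  have hTS : T ⊆ S := by exact_mod_cast hT
  obtain ⟨F1, hF1, hF1'⟩ := Emp_open T.finite_toSet (fun u hu => hpos u (hTS (mem_coe.1 hu))) hTE
  obtain ⟨F2, hF2, hF2'⟩ := Emp_open S.finite_toSet (fun u hu => hpos u (mem_coe.1 hu)) h4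
  obtain ⟨P, hP⟩ : ∃ P : (Unit ⊕ κ) × Fin 2 → ℚ, MvPolynomial.eval P (F1 * F2) ≠ 0 := by
    by_contra hcon
    push Not at hcon
    exact mul_ne_zero hF1 hF2 (MvPolynomial.funext fun P => by rw [hcon P, map_zero])
  rw [map_mul] at hP
  have hP1 : MvPolynomial.aeval P F1 ≠ 0 := by
    have := left_ne_zero_of_mul hP
    rwa [← MvPolynomial.coe_aeval_eq_eval] at this
  have hP2 : MvPolynomial.aeval P F2 ≠ 0 := by
    have := right_ne_zero_of_mul hP
    rwa [← MvPolynomial.coe_aeval_eq_eval] at this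
  obtain ⟨hn, hL1⟩ := hF1' P hP1
  obtain ⟨-, hL2⟩ := hF2' P hP2
  refine glue_point hI S v hv (P (Sum.inl (), 0)) (P (Sum.inl (), 1)) (fun j => P (Sum.inr j, 0))
    (fun j => P (Sum.inr j, 1)) (hn _) (hn _) (fun _ => hn _) (fun _ => hn _) ?_ ?_
  · have hfr : finrank ℚ ↥(Sys S (fun j => P (Sum.inr j, 0)) (fun j => P (Sum.inr j, 1)) e ⊓
        Mul (P (Sum.inl (), 0)) (P (Sum.inl (), 1)) b) ≤ S.card - T.card := by
      have := card_le_card hTS
      refine finrank_le_of_inf hTS (by omega) (inf_le_left.trans inf_le_left) ?_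
      rw [eq_bot_iff]
      rintro f ⟨⟨⟨-, hf1⟩, hf2⟩, hf3⟩
      refine (Submodule.mem_bot ℚ).2 (hL1 f ((Finsupp.mem_supported ℚ f).1 hf3) ?_)
      rw [SetLike.mem_coe, Submodule.mem_iInf] at hf1
      rintro (i | j)
      · exact hf2
      · exact hf1 j
    refine hfr.trans ?_
    rw [hTc, cond_elim, cond_unit]
    rw [cond_elim] at hS
    omega
  · rintro f ⟨hf1, hf2⟩ hf3
    refine hL2 f ((Finsupp.mem_supported ℚ f).1 hf1) ?_
    rw [SetLike.mem_coe, Submodule.mem_iInf] at hf2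
    rintro (i | j)
    · exact hf3
    · exact hf2 j

/-- emptiness at `b` -/
theorem glue_Emp_low {ι κ : Type} [Fintype ι] [Fintype κ] {R : ι → ℕ} {e : κ → ℕ} {b : ℕ}
    (h1 : Emp R (↑(Lo b) : Set (ℤ × ℤ))) {S : Finset (ℤ × ℤ)}
    (hpos : ∀ u ∈ S, 0 ≤ u.1 ∧ 0 ≤ u.2)
    (h4 : Emp (Sum.elim (fun _ : Unit => b) e) (↑S : Set (ℤ × ℤ))) :
    Emp (Sum.elim R e) (↑S : Set (ℤ × ℤ)) := by
  classical
  obtain ⟨F0, hF0, hF0'⟩ := Emp_open (Lo b).finite_toSet (fun u hu => by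
    obtain ⟨h3, h4, -⟩ := mem_Lo.1 (mem_coe.1 hu)
    exact ⟨h3, h4⟩) h1
  obtain ⟨Q, hQ⟩ : ∃ Q : ι × Fin 2 → ℚ, MvPolynomial.eval Q F0 ≠ 0 := by
    by_contra hcon
    push Not at hcon
    exact hF0 (MvPolynomial.funext fun P => by rw [hcon P, map_zero])
  rw [← MvPolynomial.coe_aeval_eq_eval] at hQ
  obtain ⟨-, hL0⟩ := hF0' Q hQ
  obtain ⟨F2, hF2, hF2'⟩ := Emp_open S.finite_toSet (fun u hu => hpos u (mem_coe.1 hu)) h4
  obtain ⟨P, hP⟩ : ∃ P : (Unit ⊕ κ) × Fin 2 → ℚ, MvPolynomial.eval P F2 ≠ 0 := by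
    by_contra hcon
    push Not at hcon
    exact hF2 (MvPolynomial.funext fun P => by rw [hcon P, map_zero])
  rw [← MvPolynomial.coe_aeval_eq_eval] at hP
  obtain ⟨hn, hL2⟩ := hF2' P hP
  have hz : ∀ f ∈ Sys S (fun j => P (Sum.inr j, 0)) (fun j => P (Sum.inr j, 1)) e,
      LM f (P (Sum.inl (), 0)) (P (Sum.inl (), 1)) b → f = 0 := by
    rintro f ⟨hf1, hf2⟩ hf3
    refine hL2 f ((Finsupp.mem_supported ℚ f).1 hf1) ?_
    rw [SetLike.mem_coe, Submodule.mem_iInf] at hf2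
    rintro (i | j)
    · exact hf3
    · exact hf2 j
  refine glue_point (I := ∅) (b := b) (fun q hq => absurd hq (notMem_empty _)) S
    (fun i => (Q (i, 0), Q (i, 1))) (fun f hf hL => hL0 f (by exact_mod_cast hf) hL)
    (P (Sum.inl (), 0)) (P (Sum.inl (), 1)) (fun j => P (Sum.inr j, 0))
    (fun j => P (Sum.inr j, 1)) (hn _) (hn _) (fun _ => hn _) (fun _ => hn _) ?_ ?_
  · have hbot : Sys S (fun j => P (Sum.inr j, 0)) (fun j => P (Sum.inr j, 1)) e ⊓
        Mul (P (Sum.inl (), 0)) (P (Sum.inl (), 1)) b = ⊥ := by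
      rw [eq_bot_iff]
      rintro f ⟨hf1, hf2⟩
      exact (Submodule.mem_bot ℚ).2 (hz f hf1 hf2)
    rw [hbot]
    simp
  · intro f hf1 hf2
    exact hz f hf1 (hf2.mono (Nat.le_succ b))

/-- independence at `b` and emptiness at `b + 1`, many exponents -/
theorem glue_Sur {ι κ : Type} [Fintype ι] [Fintype κ] {R : ι → ℕ} {e : κ → ℕ} {b : ℕ}
    (h1 : Emp R (↑(Lo b) : Set (ℤ × ℤ))) (h2 : Sur R (TZ b)) {S : Finset (ℤ × ℤ)}
    (hpos : ∀ u ∈ S, 0 ≤ u.1 ∧ 0 ≤ u.2)
    (h3 : Sur (Sum.elim (fun _ : Unit => b) e) (↑S : Set (ℤ × ℤ)))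
    (h4 : Emp (Sum.elim (fun _ : Unit => b + 1) e) (↑S : Set (ℤ × ℤ)))
    (hS : cond (Sum.elim R e) ≤ S.card) : Sur (Sum.elim R e) (↑S : Set (ℤ × ℤ)) := by
  classical
  obtain ⟨T, hT, hTc, hTE⟩ := h3
  have hTS : T ⊆ S := by exact_mod_cast hT
  have hcL := card_le_of_Emp h1
  rw [card_Lo] at hcL
  obtain ⟨T', hTT', hT'S, hT'c⟩ := exists_subsuperset_card_eq hTS (n := cond (Sum.elim R e)) (by
    rw [hTc, cond_elim, cond_unit, cond_elim]
    omega) hS
  have h5 := glue_Emp h1 h2 (S := T') (fun u hu => hpos u (hT'S hu))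
    ⟨T, by exact_mod_cast hTT', hTc, hTE⟩ (h4.mono (by exact_mod_cast hT'S)) hT'c.le
  exact ⟨T', by exact_mod_cast hT'S, hT'c, h5⟩

/-- independence at `b + 1` -/
theorem glue_Sur_high {ι κ : Type} [Fintype ι] [Fintype κ] {R : ι → ℕ} {e : κ → ℕ} {b : ℕ}
    (h1 : Emp R (↑(Lo b) : Set (ℤ × ℤ))) (h2 : Sur R (TZ b)) {S : Finset (ℤ × ℤ)}
    (hpos : ∀ u ∈ S, 0 ≤ u.1 ∧ 0 ≤ u.2)
    (h4 : Sur (Sum.elim (fun _ : Unit => b + 1) e) (↑S : Set (ℤ × ℤ))) :
    Sur (Sum.elim R e) (↑S : Set (ℤ × ℤ)) := by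
  classical
  obtain ⟨T, hT, hTc, hTE⟩ := h4
  have hTS : T ⊆ S := by exact_mod_cast hT
  have hcR : cond R ≤ (b + 2).choose 2 := by
    obtain ⟨T1, hT1, hT1c, -⟩ := h2
    have hT1F : T1 ⊆ TF b := by
      intro u hu
      rw [← mem_coe, coe_TF]
      exact hT1 (mem_coe.2 hu)
    have := card_le_card hT1F
    rw [card_TF] at this
    omega
  have h5 : Sur (Sum.elim (fun _ : Unit => b + 1) e) (↑T : Set (ℤ × ℤ)) :=
    ⟨T, subset_rfl, hTc, hTE⟩
  have h6 : Sur (Sum.elim (fun _ : Unit => b) e) (↑T : Set (ℤ × ℤ)) := by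
    refine Sur_anti ?_ h5
    rintro (i | j)
    · exact Nat.le_succ b
    · exact le_refl _
  have h7 := glue_Sur h1 h2 (fun u hu => hpos u (hTS hu)) h6 hTE (by
    rw [hTc, cond_elim, cond_elim, cond_unit, show b + 1 + 1 = b + 2 from rfl]
    omega)
  exact h7.mono (by exact_mod_cast hTS)

/-- **The gluing theorem, in one degree.** -/
theorem glue {ι κ : Type} [Fintype ι] [Fintype κ] {R : ι → ℕ} {e : κ → ℕ} {b d : ℕ}
    (h1 : Emp R (↑(Lo b) : Set (ℤ × ℤ))) (h2 : Sur R (TZ b))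
    (h3 : Emp (Sum.elim (fun _ : Unit => b) e) (TZ d) ∨ Sur (Sum.elim (fun _ : Unit => b) e) (TZ d))
    (h4 : Emp (Sum.elim (fun _ : Unit => b + 1) e) (TZ d) ∨
      Sur (Sum.elim (fun _ : Unit => b + 1) e) (TZ d)) :
    Emp (Sum.elim R e) (TZ d) ∨ Sur (Sum.elim R e) (TZ d) := by
  rw [← coe_TF] at h3 h4 ⊢
  rcases h3 with h3 | h3
  · exact Or.inl (glue_Emp_low h1 (TF_pos d) h3)
  rcases h4 with h4 | h4
  · rcases le_total (TF d).card (cond (Sum.elim R e)) with h | h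
    · exact Or.inl (glue_Emp h1 h2 (TF_pos d) h3 h4 h)
    · exact Or.inr (glue_Sur h1 h2 (TF_pos d) h3 h4 h)
  · exact Or.inr (glue_Sur_high h1 h2 (TF_pos d) h4)

end Pool.Agent.V8H84.GL
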