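import Pool.Agent.V8H84.GL.Small
import Pool.Agent.TH442.NF.Orbit2
import Pool.Agent.TH167.TT.Nine
import Pool.Agent.TH105.NU.All
import Pool.Agent.TH759.EV.NDich
import Pool.Agent.H932R3.NearFinal
import Pool.Agent.TH2.NU.Final

/-! Near-uniform bases in all degrees. -/

namespace Pool.Agent.V8H84.GL

open Finset Module Pool.Agent.TH176.Nag Pool.Agent.TH603.Sur Pool.Agent.TH763.DB
open Pool.Agent.TH641.UM Pool.Agent.TH2.NU Pool.Agent.H932R3

/-- independence passes to smaller multiplicities -/
theorem Sur_le {n : ℕ} {v u : Fin n → ℕ} {d : ℕ} (h : Sur v (TZ d)) (hle : ∀ i, u i ≤ v i) :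
    Sur u (TZ d) := by
  have hc : cond v ≤ (d + 2).choose 2 := by
    obtain ⟨T, hT, hcard, -⟩ := h
    rw [← hcard, ← card_TF d]
    refine card_le_card fun p hp => ?_
    have : p ∈ (↑(TF d) : Set (ℤ × ℤ)) := by
      rw [coe_TF]
      exact hT hp
    exact this
  have hc' : cond u ≤ cond v := sum_le_sum fun i _ => Nat.choose_le_choose 2 (by have := hle i; omega)
  obtain ⟨F, hF, hF'⟩ := indep_open h
  refine (nd_of_open hF fun P hP => ?_).2 (hc'.trans hc)
  exact Pool.Agent.TH442.NF.exp_mono (hF' P hP d le_rfl) hc hle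

theorem ms_near {n m : ℕ} (A : Finset (Fin n)) :
    ms (fun i => if i ∈ A then m + 1 else m) = A.card • {m + 1} + (n - A.card) • {m} := by
  classical
  unfold ms
  have h1 : ∀ i : Fin n, ({if i ∈ A then m + 1 else m} : Multiset ℕ) =
      if i ∈ A then {m + 1} else {m} := by
    intro i
    split_ifs <;> rfl
  rw [sum_congr rfl fun i _ => h1 i, sum_ite, sum_const, sum_const]
  have h2 : (univ.filter fun i => i ∈ A) = A := by
    ext i
    simp
  have h3 : (univ.filter fun i => i ∉ A).card = n - A.card := by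
    have h4 : (univ.filter fun i => i ∉ A) = Aᶜ := by
      ext i
      simp
    rw [h4, card_compl, Fintype.card_fin]
  rw [h2, h3]

theorem Sur_of_exact {ι : Type} [Fintype ι] {w : ι → ℕ} {d : ℕ} (h : Emp w (TZ d))
    (hc : cond w = (d + 2).choose 2) : Sur w (TZ d) :=
  ⟨TF d, by rw [coe_TF], by rw [card_TF, hc], by rw [coe_TF]; exact h⟩

theorem cond_near {n m : ℕ} (A : Finset (Fin n)) :
    cond (fun i => if i ∈ A then m + 1 else m) =
      A.card * (m + 2).choose 2 + (n - A.card) * (m + 1).choose 2 := by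
  classical
  unfold Pool.Agent.TH603.Sur.cond
  have h1 : ∀ i : Fin n, ((if i ∈ A then m + 1 else m) + 1).choose 2 =
      if i ∈ A then (m + 2).choose 2 else (m + 1).choose 2 := by
    intro i
    split_ifs <;> rfl
  rw [sum_congr rfl fun i _ => h1 i, sum_ite, sum_const, sum_const]
  have h2 : (univ.filter fun i => i ∈ A) = A := by
    ext i
    simp
  have h3 : (univ.filter fun i => i ∉ A).card = n - A.card := by
    have h4 : (univ.filter fun i => i ∉ A) = Aᶜ := by
      ext i
      simp
    rw [h4, card_compl, Fintype.card_fin]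
  rw [h2, h3, smul_eq_mul, smul_eq_mul]

/-- comparison with an exact near-uniform system -/
theorem near_cmp {n m m0 c0 d : ℕ} (h0 : c0 ≤ n)
    (hE : EmpM (c0 • {m0 + 1} + (n - c0) • {m0}) (TZ d))
    (hc : c0 * (m0 + 2).choose 2 + (n - c0) * (m0 + 1).choose 2 = (d + 2).choose 2)
    {u : Fin n → ℕ} (hu : ∀ i, u i = m ∨ u i = m + 1) : Emp u (TZ d) ∨ Sur u (TZ d) := by
  classical
  have hv : ∀ A : Finset (Fin n), A.card = c0 →
      Emp (fun i => if i ∈ A then m0 + 1 else m0) (TZ d) ∧
        Sur (fun i => if i ∈ A then m0 + 1 else m0) (TZ d) := by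
    intro A hA
    have h1 : Emp (fun i => if i ∈ A then m0 + 1 else m0) (TZ d) := by
      refine (EmpM_iff ?_ _).1 hE
      rw [ms_near, hA]
    refine ⟨h1, Sur_of_exact h1 ?_⟩
    rw [cond_near, hA, hc]
  obtain ⟨U, hU⟩ : ∃ U : Finset (Fin n), U = univ.filter fun i => u i = m + 1 := ⟨_, rfl⟩
  have hmem : ∀ i, i ∈ U ↔ u i = m + 1 := fun i => by rw [hU]; simp
  have hUn : U.card ≤ n := by
    have := card_le_univ U
    rwa [Fintype.card_fin] at this
  have harb : ∃ A : Finset (Fin n), A.card = c0 := by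
    obtain ⟨A, -, hA⟩ := exists_subset_card_eq (s := (univ : Finset (Fin n))) (n := c0)
      (by rw [card_univ, Fintype.card_fin]; exact h0)
    exact ⟨A, hA⟩
  rcases lt_trichotomy m m0 with h | h | h
  · right
    obtain ⟨A, hA⟩ := harb
    refine Sur_le (hv A hA).2 fun i => ?_
    rcases hu i with h1 | h1 <;> split_ifs <;> omega
  · subst h
    rcases le_or_gt c0 U.card with h1 | h1
    · left
      obtain ⟨A, hAU, hA⟩ := exists_subset_card_eq h1
      refine Emp_emb (fun i => i) (fun a b hab => hab) (fun i => ?_) (hv A hA).1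
      by_cases hi : i ∈ A
      · rw [if_pos hi, (hmem i).1 (hAU hi)]
      · rw [if_neg hi]
        rcases hu i with h2 | h2 <;> omega
    · right
      obtain ⟨A, hUA, -, hA⟩ := exists_subsuperset_card_eq (subset_univ U) h1.le
        (by rw [card_univ, Fintype.card_fin]; exact h0)
      refine Sur_le (hv A hA).2 fun i => ?_
      by_cases hi : i ∈ A
      · simp only [if_pos hi]
        rcases hu i with h2 | h2 <;> omega
      · simp only [if_neg hi]
        rcases hu i with h2 | h2
        · omega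
        · exact absurd (hUA ((hmem i).2 h2)) hi
  · left
    obtain ⟨A, hA⟩ := harb
    refine Emp_emb (fun i => i) (fun a b hab => hab) (fun i => ?_) (hv A hA).1
    rcases hu i with h1 | h1 <;> split_ifs <;> omega

theorem two_ch (a : ℕ) : 2 * (a + 1).choose 2 = a * (a + 1) := Pool.Agent.TH641.UM.two_choose a

/-- four points -/
theorem near_four {m d : ℕ} {u : Fin 4 → ℕ} (hu : ∀ i, u i = m ∨ u i = m + 1) :
    Emp u (TZ d) ∨ Sur u (TZ d) := by
  obtain ⟨k, hk | hk⟩ : ∃ k, d = 2 * k ∨ d = 2 * k + 1 := ⟨d / 2, by omega⟩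
  · subst hk
    refine near_cmp (m0 := k) (c0 := 1) (by omega) ?_ ?_ hu
    · have h := four_a k
      have e : ({k + 1} + {k} + {k} + {k} : Multiset ℕ) = 1 • {k + 1} + (4 - 1) • {k} := by
        simp only [succ_nsmul, zero_nsmul]
        abel
      rwa [e] at h
    · have h1 := two_ch k
      have h2 := two_ch (k + 1)
      have h3 := two_ch (2 * k + 1)
      have e : 2 * k + 1 + 1 = 2 * k + 2 := rfl
      rw [e] at h3
      have e2 : k + 1 + 1 = k + 2 := rfl
      rw [e2] at h2
      nlinarith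
  · subst hk
    refine near_cmp (m0 := k) (c0 := 3) (by omega) ?_ ?_ hu
    · have h := four_b k
      have e : ({k + 1} + {k} + {k + 1} + {k + 1} : Multiset ℕ) = 3 • {k + 1} + (4 - 3) • {k} := by
        simp only [succ_nsmul, zero_nsmul]
        abel
      rwa [e] at h
    · have h1 := two_ch k
      have h2 := two_ch (k + 1)
      have h3 := two_ch (2 * k + 2)
      have e : 2 * k + 2 + 1 = 2 * k + 1 + 2 := rfl
      rw [e] at h3
      have e2 : k + 1 + 1 = k + 2 := rfl
      rw [e2] at h2
      nlinarith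

/-- a system with nine points: `(3 k; (k + 1), k ^ 7, k - 1)` -/
theorem nine_c (k : ℕ) : EmpM ({k + 2} + 7 • {k + 1} + {k}) (TZ (3 * k + 3)) := by
  have h := nine_gen (m := k + 1) (x := 2 * k + 2) (d := 3 * k + 3) (by omega) (by omega) (by omega)
    (four_a (k + 1))
  have e1 : 3 * k + 3 - 2 * (k + 1) - 1 = k := by omega
  have e2 : 3 * k + 3 - (2 * k + 2) = k + 1 := by omega
  rw [e1, e2] at h
  have e3 : ({k + 1 + 1} + {k + 1} + {k + 1} + {k + 1} + ({k + 1} + ({k + 1} + {k})) + {k + 1} +
      {k + 1} : Multiset ℕ) = {k + 2} + 7 • {k + 1} + {k} := by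
    simp only [succ_nsmul, zero_nsmul]
    abel
  rwa [e3] at h

/-- nine points of multiplicity `k` in degree `3 k` -/
theorem Sur_nine (k : ℕ) : Sur (fun _ : Fin 9 => k) (TZ (3 * k)) := by
  obtain ⟨K, _, _, P, hP⟩ := Pool.Agent.TH442.NF.exists_generic 9
  have h1 := Pool.Agent.TH167.TT.nine (r := 5) hP (d := 3 * k) (w := fun _ => k)
    (fun i j l _ _ _ => by show k + k + k ≤ 3 * k; omega) ((card_filter_le _ _).trans (by simp))
  have h2 : ExpDim K (fun _ : Fin 9 => k) P (3 * k) := by
    rw [Pool.Agent.TH442.NF.expDim_iff]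
    have h3 : Pool.Agent.TH167.SH.chi (3 * k) (fun _ : Fin 9 => k) =
        ((3 * k + 2).choose 2 : ℤ) - ((∑ _i : Fin 9, (k + 1).choose 2 : ℕ) : ℤ) := by
      unfold Pool.Agent.TH167.SH.chi
      push_cast
      rfl
    rw [h3]
    have h4 : Module.finrank K ↥(Pool.Agent.W609.CR.VS (fun j : Fin 9 => Pool.Agent.W609.CR.aff (P j))
        (fun _ => k) (3 * k)) + ∑ _j : Fin 9, (k + 1).choose 2 = (3 * k + 2).choose 2 := h1
    omega
  refine (nd_of_expDim (fun i j => hP.ne_zero (i, j)) h2).2 ?_
  have h5 : ∑ _j : Fin 9, (k + 1).choose 2 ≤ (3 * k + 2).choose 2 := by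
    have h6 : Module.finrank K ↥(Pool.Agent.W609.CR.VS (fun j : Fin 9 => Pool.Agent.W609.CR.aff (P j))
        (fun _ => k) (3 * k)) + ∑ _j : Fin 9, (k + 1).choose 2 = (3 * k + 2).choose 2 := h1
    omega
  exact h5

/-- nine points -/
theorem near_nine {m d : ℕ} {u : Fin 9 → ℕ} (hu : ∀ i, u i = m ∨ u i = m + 1) :
    Emp u (TZ d) ∨ Sur u (TZ d) := by
  obtain ⟨k, hk | hk | hk⟩ : ∃ k, d = 3 * k + 1 ∨ d = 3 * k + 2 ∨ d = 3 * k :=
    ⟨d / 3, by omega⟩
  · subst hk
    refine near_cmp (m0 := k) (c0 := 3) (by omega) ?_ ?_ hu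
    · exact nine_a k
    · have h1 := two_ch k
      have h2 := two_ch (k + 1)
      have h3 := two_ch (3 * k + 2)
      have e : 3 * k + 2 + 1 = 3 * k + 1 + 2 := rfl
      rw [e] at h3
      have e2 : k + 1 + 1 = k + 2 := rfl
      rw [e2] at h2
      nlinarith
  · subst hk
    refine near_cmp (m0 := k) (c0 := 6) (by omega) ?_ ?_ hu
    · exact nine_b k
    · have h1 := two_ch k
      have h2 := two_ch (k + 1)
      have h3 := two_ch (3 * k + 3)
      have e : 3 * k + 3 + 1 = 3 * k + 2 + 2 := rfl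
      rw [e] at h3
      have e2 : k + 1 + 1 = k + 2 := rfl
      rw [e2] at h2
      nlinarith
  · subst hk
    by_cases hle : ∀ i, u i ≤ k
    · exact Or.inr (Sur_le (Sur_nine k) hle)
    · left
      push Not at hle
      obtain ⟨i0, hi0⟩ := hle
      rcases Nat.eq_zero_or_pos k with h0 | h0
      · subst h0
        have h1 : EmpM {1} (TZ (3 * 0)) := (M_Tri 0 0 1).mono_set fun p hp => by
          obtain ⟨p, q⟩ := p
          obtain ⟨h1, h2, h3⟩ := hp
          simp only at h1 h2 h3
          refine ⟨h1, h2, ?_⟩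
          simp only
          push_cast at h3 ⊢
          omega
        have h2 : Emp (fun _ : Unit => 1) (TZ (3 * 0)) := (EmpM_iff (ms_unit 1) _).1 h1
        exact Emp_emb (fun _ : Unit => i0) (fun _ _ _ => rfl) (fun _ => by omega) h2
      · obtain ⟨l, rfl⟩ : ∃ l, k = l + 1 := ⟨k - 1, by omega⟩
        have hml : l + 1 ≤ m := by rcases hu i0 with h | h <;> omega
        obtain ⟨i1, hi1⟩ : ∃ i1 : Fin 9, i1 ≠ i0 := exists_ne i0
        have h1 : Emp (fun i : Fin 9 => if i = i0 then l + 2 else if i = i1 then l else l + 1)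
            (TZ (3 * (l + 1))) := by
          have h2 := nine_c l
          have e : 3 * l + 3 = 3 * (l + 1) := by ring
          rw [e] at h2
          refine (EmpM_iff ?_ _).1 h2
          have h3 : ms (fun i : Fin 9 => if i = i0 then l + 2 else if i = i1 then l else l + 1) =
              ∑ i : Fin 9, ({if i = i0 then l + 2 else if i = i1 then l else l + 1} : Multiset ℕ) :=
            rfl
          rw [h3, ← add_sum_erase _ _ (mem_univ i0), ← add_sum_erase _ _
            (mem_erase.2 ⟨hi1, mem_univ i1⟩), if_pos rfl, if_neg hi1, if_pos rfl]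
          have h4 : ∑ i ∈ (univ.erase i0).erase i1,
              ({if i = i0 then l + 2 else if i = i1 then l else l + 1} : Multiset ℕ) =
              ∑ i ∈ (univ.erase i0).erase i1, ({l + 1} : Multiset ℕ) := by
            refine sum_congr rfl fun i hi => ?_
            rw [mem_erase, mem_erase] at hi
            rw [if_neg hi.2.1, if_neg hi.1]
          rw [h4, sum_const, card_erase_of_mem (mem_erase.2 ⟨hi1, mem_univ i1⟩),
            card_erase_of_mem (mem_univ i0), card_univ, Fintype.card_fin]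
          abel
        refine Emp_emb (fun i => i) (fun a b hab => hab) (fun i => ?_) h1
        by_cases h2 : i = i0
        · subst h2
          rw [if_pos rfl]
          omega
        · rw [if_neg h2]
          split_ifs
          · rcases hu i with h | h <;> omega
          · rcases hu i with h | h <;> omega

/-- The admissible numbers of clusters. -/
def Base (N0 N : ℕ) : Prop :=
  (∃ k : ℕ, 2 ≤ k ∧ N = k ^ 2) ∨ N = 13 ∨ (144 ≤ N ∧ 4 ∣ N) ∨ N0 ≤ N

/-- **The near-uniform systems with an admissible number of points.** -/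
theorem exists_base : ∃ N0 : ℕ, ∀ N b : ℕ, Base N0 N → 1 ≤ b → ∀ u : Fin N → ℕ,
    (∀ j, u j = b ∨ u j = b + 1) → ∀ d, Emp u (TZ d) ∨ Sur u (TZ d) := by
  obtain ⟨N0, h0⟩ := Pool.Agent.TH105.NU.expDim_near
  refine ⟨N0, fun N b hN hb u hu d => ?_⟩
  rcases hN with ⟨k, hk, hN⟩ | hN | ⟨h144, h4⟩ | hN
  · rcases Nat.lt_or_ge k 4 with h | h
    · have h23 : k = 2 ∨ k = 3 := by omega
      rcases h23 with rfl | rfl
      · have hN4 : N = 4 := by omega
        subst hN4
        exact near_four hu
      · have hN9 : N = 9 := by omega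
        subst hN9
        exact near_nine hu
    · have hN9 : 9 < N := by rw [hN]; nlinarith
      obtain ⟨F, hF, hF'⟩ := Pool.Agent.H932R3.near_points (L := ℚ) (by omega) hb hu
        (Pool.Agent.H932R3.near_cond hN9 hu (Or.inr ⟨k, 0, by omega, by omega, Or.inl rfl⟩))
      exact nd_or (nd_of_open hF fun P hP => hF' P hP d)
  · subst hN
    obtain ⟨F, hF, hF'⟩ := Pool.Agent.TH759.EV.expDim_thirteen hu
    exact nd_or (nd_of_open hF fun P hP => hF' P hP d)
  · obtain ⟨l, rfl⟩ := h4
    obtain ⟨F, hF, hF'⟩ := Pool.Agent.TH2.NU.near4 (N := l) (by omega) hb hu (L := ℚ)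
    exact nd_or (nd_of_open hF fun P hP => hF' P hP d)
  · obtain ⟨F, hF, hF'⟩ := h0 N hN b hb u hu (L := ℚ)
    exact nd_or (nd_of_open hF fun P hP => hF' P hP d)

end Pool.Agent.V8H84.GL
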