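import Pool.Agent.V8H84.GL.Lead
import Pool.Agent.TH552.BB.TrGen

/-! Existence of leading functionals from emptiness of the cluster on a set of exponents. -/

namespace Pool.Agent.V8H84.GL

open Finset Pool.Agent.TH176.Nag Pool.Agent.TH603.Sur Pool.Agent.TH763.DB Module

section
variable {K : Type} [Field K]

/-- products of falling factorials suffice to test the multiplicity -/
theorem LM_of_desc2 {f : (ℤ × ℤ) →₀ K} {x y : K} {w : ℕ}
    (h : ∀ a b : ℕ, a + b < w →
      pr f x y (fun u : K × K => (∏ t ∈ range a, (u.1 - (t : K))) * ∏ t ∈ range b, (u.2 - (t : K))) = 0) :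
    LM f x y w := by
  have key : ∀ c a b : ℕ, c + a + b < w → pr f x y (fun u : K × K =>
      u.1 ^ c * ((∏ t ∈ range a, (u.1 - (t : K))) * ∏ t ∈ range b, (u.2 - (t : K)))) = 0 := by
    intro c
    induction c with
    | zero =>
      intro a b hab
      simp only [pow_zero, one_mul]
      exact h a b (by omega)
    | succ c ih =>
      intro a b hab
      have h1 := ih (a + 1) b (by omega)
      have h2 := ih a b (by omega)
      have e : (fun u : K × K => u.1 ^ (c + 1) * ((∏ t ∈ range a, (u.1 - (t : K))) *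
          ∏ t ∈ range b, (u.2 - (t : K)))) =
          (fun u : K × K => u.1 ^ c * ((∏ t ∈ range (a + 1), (u.1 - (t : K))) *
            ∏ t ∈ range b, (u.2 - (t : K)))) +
          (a : K) • (fun u : K × K => u.1 ^ c * ((∏ t ∈ range a, (u.1 - (t : K))) *
            ∏ t ∈ range b, (u.2 - (t : K)))) := by
        funext u
        simp only [Pi.add_apply, Pi.smul_apply, smul_eq_mul]
        rw [prod_range_succ]
        ring
      rw [e, pr_add_right, pr_smul_right, h1, h2]
      ring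
  apply LM_of_desc
  intro a b hab
  have h1 := key a 0 b (by omega)
  simpa using h1

end

section
variable {K : Type} [Field K] [CharZero K] {ι : Type}

/-- the exponents of degree less than `b`, and those of degree `b` with first coordinate in `I` -/
def Ex (b : ℕ) (I : Finset ℕ) : Finset (ℕ × ℕ) :=
  ((range b ×ˢ range b).filter fun p => p.1 + p.2 < b) ∪
    ((range (b + 1)).filter (· ∈ I)).image fun q => (q, b - q)

theorem mem_Ex {b : ℕ} {I : Finset ℕ} {p : ℕ × ℕ} :
    p ∈ Ex b I ↔ p.1 + p.2 < b ∨ (p.1 + p.2 = b ∧ p.1 ∈ I) := by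
  unfold Ex
  simp only [mem_union, mem_filter, mem_product, mem_range, mem_image]
  constructor
  · rintro (⟨-, h⟩ | ⟨q, ⟨h1, h2⟩, rfl⟩)
    · exact Or.inl h
    · right
      exact ⟨by simp only; omega, h2⟩
  · rintro (h | ⟨h1, h2⟩)
    · left
      exact ⟨⟨by omega, by omega⟩, h⟩
    · right
      refine ⟨p.1, ⟨by omega, h2⟩, ?_⟩
      ext
      · rfl
      · simp only; omega

theorem cast_inj : Function.Injective fun p : ℕ × ℕ => ((p.1 : ℤ), (p.2 : ℤ)) := by
  intro p q h
  simp only [Prod.mk.injEq, Nat.cast_inj] at h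
  exact Prod.ext h.1 h.2

/-- the same exponents as pairs of integers -/
def Ez (b : ℕ) (I : Finset ℕ) : Finset (ℤ × ℤ) :=
  (Ex b I).map ⟨fun p => ((p.1 : ℤ), (p.2 : ℤ)), cast_inj⟩

theorem sum_Ez {A : Type*} [AddCommMonoid A] (b : ℕ) (I : Finset ℕ) (F : ℤ × ℤ → A) :
    ∑ m ∈ Ez b I, F m = ∑ p ∈ Ex b I, F ((p.1 : ℤ), (p.2 : ℤ)) := by
  unfold Ez
  rw [sum_map]
  rfl

theorem mem_Ez {b : ℕ} {I : Finset ℕ} {m : ℤ × ℤ} :
    m ∈ Ez b I ↔ ∃ p ∈ Ex b I, m = ((p.1 : ℤ), (p.2 : ℤ)) := by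
  unfold Ez
  rw [mem_map]
  constructor
  · rintro ⟨p, hp, h⟩
    exact ⟨p, hp, h.symm⟩
  · rintro ⟨p, hp, h⟩
    exact ⟨p, hp, h.symm⟩

theorem prod_desc_nat (n i : ℕ) :
    ∏ t ∈ range i, ((n : K) - (t : K)) = if i ≤ n then (n.factorial : K) / ((n - i).factorial : K) else 0 := by
  split_ifs with h
  · induction i with
    | zero =>
      simp [div_self (Nat.cast_ne_zero.2 n.factorial_ne_zero : (n.factorial : K) ≠ 0)]
    | succ i ih =>
      rw [prod_range_succ, ih (by omega)]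
      obtain ⟨k, rfl⟩ : ∃ k, n = i + 1 + k := ⟨n - (i + 1), by omega⟩
      have e1 : i + 1 + k - i = k + 1 := by omega
      have e2 : i + 1 + k - (i + 1) = k := by omega
      rw [e1, e2, Nat.factorial_succ k]
      have h1 : (k.factorial : K) ≠ 0 := Nat.cast_ne_zero.2 k.factorial_ne_zero
      have h2 : ((k : K) + 1) ≠ 0 := by exact_mod_cast Nat.succ_ne_zero k
      push_cast
      field_simp
      ring
  · apply prod_eq_zero (i := n) (mem_range.2 (by omega))
    ring

/-- combinations of the rows with prescribed values at the exponents `Ex b I` -/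
theorem exists_comb {R : ι → ℕ} {v : ι → K × K} {b : ℕ} {I : Finset ℕ}
    (hv : ∀ f : (ℤ × ℤ) →₀ K, f.support ⊆ Ez b I → (∀ i, LM f (v i).1 (v i).2 (R i)) → f = 0)
    (t : ℕ × ℕ → K) :
    ∃ (σ : Type) (_ : Fintype σ) (r : σ → ι × ℕ × ℕ) (c : σ → K),
      (∀ j, (r j).2.1 + (r j).2.2 < R (r j).1) ∧
      ∀ m ∈ Ex b I, ∑ j, c j * rho v (r j) m = t m := by
  classical
  let Row := {r : ι × ℕ × ℕ // r.2.1 + r.2.2 < R r.1}
  obtain ⟨a, ha⟩ := Pool.Agent.TH15.Nag.exists_rows (K := K) (R := Row) (σ := ↥(Ex b I))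
    (fun r m => rho v r.1 m.1) (by
    intro c hc
    let g : ℤ × ℤ → K := fun m => if hm : (m.1.toNat, m.2.toNat) ∈ Ex b I ∧ 0 ≤ m.1 ∧ 0 ≤ m.2 then
      c ⟨_, hm.1⟩ / ((m.1.toNat.factorial : K) * (m.2.toNat.factorial : K)) else 0
    have hgS : ∀ m, g m ≠ 0 → m ∈ Ez b I := by
      intro m hm
      by_contra hn
      apply hm
      simp only [g]
      rw [dif_neg]
      rintro ⟨h1, h2, h3⟩
      apply hn
      rw [mem_Ez]
      refine ⟨_, h1, ?_⟩
      ext
      · simp only; omega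
      · simp only; omega
    let f : (ℤ × ℤ) →₀ K := Finsupp.onFinset (Ez b I) g hgS
    have hfS : f.support ⊆ Ez b I := Finsupp.support_onFinset_subset
    have hfc : ∀ p : ↥(Ex b I), f ((p.1.1 : ℤ), (p.1.2 : ℤ)) =
        c p / ((p.1.1.factorial : K) * (p.1.2.factorial : K)) := by
      intro p
      have h1 : f ((p.1.1 : ℤ), (p.1.2 : ℤ)) = g ((p.1.1 : ℤ), (p.1.2 : ℤ)) := rfl
      rw [h1]
      simp only [g]
      rw [dif_pos ⟨by simpa using p.2, by simp, by simp⟩]
      simp
    have hf0 : f = 0 := by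
      apply hv f hfS
      intro i
      apply LM_of_desc2
      intro a b' hab
      have h1 := hc ⟨(i, a, b'), hab⟩
      have h2 : pr f (v i).1 (v i).2 (fun u : K × K => (∏ t ∈ range a, (u.1 - (t : K))) *
          ∏ t ∈ range b', (u.2 - (t : K))) = (v i).1 ^ a * (v i).2 ^ b' *
          ∑ m : ↥(Ex b I), rho v (i, a, b') m.1 * c m := by
        rw [pr_eq_sum hfS, sum_Ez, ← sum_coe_sort, mul_sum]
        refine sum_congr rfl fun p _ => ?_
        rw [hfc p]
        simp only [Int.cast_natCast]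
        rw [prod_desc_nat, prod_desc_nat]
        unfold rho gg
        simp only [zpow_natCast]
        have h3 : (p.1.1.factorial : K) ≠ 0 := Nat.cast_ne_zero.2 (Nat.factorial_ne_zero _)
        have h4 : (p.1.2.factorial : K) ≠ 0 := Nat.cast_ne_zero.2 (Nat.factorial_ne_zero _)
        have h5 : ((p.1.1 - a).factorial : K) ≠ 0 := Nat.cast_ne_zero.2 (Nat.factorial_ne_zero _)
        have h6 : ((p.1.2 - b').factorial : K) ≠ 0 := Nat.cast_ne_zero.2 (Nat.factorial_ne_zero _)
        by_cases ha : a ≤ p.1.1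
        · by_cases hb : b' ≤ p.1.2
          · rw [if_pos ha, if_pos hb, if_pos ha, if_pos hb]
            have e1 : (v i).1 ^ p.1.1 = (v i).1 ^ a * (v i).1 ^ (p.1.1 - a) := by
              rw [← pow_add, Nat.add_sub_cancel' ha]
            have e2 : (v i).2 ^ p.1.2 = (v i).2 ^ b' * (v i).2 ^ (p.1.2 - b') := by
              rw [← pow_add, Nat.add_sub_cancel' hb]
            rw [e1, e2]
            field_simp
          · rw [if_neg hb, if_neg hb]
            ring
        · rw [if_neg ha, if_neg ha]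
          ring
      rw [h2, h1, mul_zero]
    funext p
    have h1 := hfc p
    rw [hf0, Finsupp.zero_apply] at h1
    have h3 : (p.1.1.factorial : K) ≠ 0 := Nat.cast_ne_zero.2 (Nat.factorial_ne_zero _)
    have h4 : (p.1.2.factorial : K) ≠ 0 := Nat.cast_ne_zero.2 (Nat.factorial_ne_zero _)
    have h5 := h1.symm
    rw [div_eq_zero_iff] at h5
    rcases h5 with h5 | h5
    · rw [h5]; rfl
    · exact absurd h5 (mul_ne_zero h3 h4))
  -- solve the transposed system
  obtain ⟨M, hM⟩ : ∃ M : Matrix ↥(Ex b I) ↥(Ex b I) K, M = Matrix.of fun j m => rho v (a j).1 m.1 :=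
    ⟨_, rfl⟩
  rw [← hM] at ha
  have hu : IsUnit M.det := isUnit_iff_ne_zero.2 ha
  refine ⟨↥(Ex b I), inferInstance, fun j => (a j).1, Matrix.vecMul (fun m => t m.1) M⁻¹,
    fun j => (a j).2, ?_⟩
  intro m hm
  have h1 : Matrix.vecMul (Matrix.vecMul (fun m : ↥(Ex b I) => t m.1) M⁻¹) M = fun m => t m.1 := by
    rw [Matrix.vecMul_vecMul, Matrix.nonsing_inv_mul _ hu, Matrix.vecMul_one]
  have h2 := congrFun h1 ⟨m, hm⟩
  rw [Matrix.vecMul, dotProduct] at h2
  simp only at h2
  rw [← h2]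
  refine sum_congr rfl fun j _ => ?_
  rw [hM]
  rfl

/-- all forms of degree less than `b` are leading terms -/
theorem lead_low {R : ι → ℕ} {v : ι → K × K} {b : ℕ} {I : Finset ℕ}
    (hv : ∀ f : (ℤ × ℤ) →₀ K, f.support ⊆ Ez b I → (∀ i, LM f (v i).1 (v i).2 (R i)) → f = 0)
    {p q : ℕ} (hpq : p + q < b) : Lead R v (p + q) (fun u => u.1 ^ p * u.2 ^ q) := by
  classical
  obtain ⟨σ, _, r, c, hr, hc⟩ := exists_comb hv (fun m => if m = (p, q) then (1 : K) else 0)
  refine ⟨σ, inferInstance, r, c, hr, fun u => ⟨fun l hl => ?_, ?_⟩⟩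
  · rw [coeff_psi]
    refine sum_eq_zero fun m hm => ?_
    rw [HasAntidiagonal.mem_antidiagonal] at hm
    rw [hc m (mem_Ex.2 (Or.inl (by omega))), if_neg, zero_mul]
    rintro rfl
    simp only at hm
    omega
  · rw [coeff_psi, sum_eq_single (p, q)]
    · rw [hc _ (mem_Ex.2 (Or.inl (by simpa using hpq))), if_pos rfl, one_mul]
    · intro m hm hne
      rw [HasAntidiagonal.mem_antidiagonal] at hm
      rw [hc m (mem_Ex.2 (Or.inl (by omega))), if_neg hne, zero_mul]
    · intro h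
      exact absurd (by rw [HasAntidiagonal.mem_antidiagonal]) h

/-- forms of degree `b` with prescribed coefficients in `I` which are leading terms -/
theorem lead_top {R : ι → ℕ} {v : ι → K × K} {b : ℕ} {I : Finset ℕ}
    (hv : ∀ f : (ℤ × ℤ) →₀ K, f.support ⊆ Ez b I → (∀ i, LM f (v i).1 (v i).2 (R i)) → f = 0)
    (t : ℕ → K) : ∃ τ : ℕ → K, (∀ q ∈ I, q ≤ b → τ q = t q) ∧
      Lead R v b (fun u => ∑ q ∈ range (b + 1), τ q * (u.1 ^ q * u.2 ^ (b - q))) := by
  classical
  obtain ⟨σ, _, r, c, hr, hc⟩ := exists_comb hv (fun m => if m.1 + m.2 = b then t m.1 else 0)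
  refine ⟨fun q => ∑ j, c j * rho v (r j) (q, b - q), ?_, σ, inferInstance, r, c, hr, fun u =>
    ⟨fun l hl => ?_, ?_⟩⟩
  · intro q hq hqb
    have h1 : q + (b - q) = b := by omega
    have h2 := hc (q, b - q) (mem_Ex.2 (Or.inr ⟨h1, hq⟩))
    simp only at h2
    rw [if_pos h1] at h2
    exact h2
  · rw [coeff_psi]
    refine sum_eq_zero fun m hm => ?_
    rw [HasAntidiagonal.mem_antidiagonal] at hm
    rw [hc m (mem_Ex.2 (Or.inl (by omega))), if_neg (by omega), zero_mul]
  · rw [coeff_psi, Finset.Nat.sum_antidiagonal_eq_sum_range_succ_mk]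

/-- linear changes of coordinates -/
theorem Lead.comp {R : ι → ℕ} {v : ι → K × K} {k : ℕ} {P : K × K → K} (h : Lead R v k P)
    (D E : K × K) :
    Lead R (fun i => (D.1 * (v i).1 + E.1 * (v i).2, D.2 * (v i).1 + E.2 * (v i).2)) k
      (fun u => P (lin D u, lin E u)) := by
  classical
  obtain ⟨σ, _, r, c, hr, hP⟩ := h
  refine ⟨Σ j : σ, Fin ((r j).2.1 + (r j).2.2 + 1), inferInstance,
    fun p => ((r p.1).1, (p.2 : ℕ), (r p.1).2.1 + (r p.1).2.2 - p.2),
    fun p => c p.1 * (Pool.Agent.TH552.BB.G ((r p.1).2.1 + (r p.1).2.2) ![D.1, D.2, E.1, E.2]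
      (r p.1).2.1).coeff p.2, ?_, ?_⟩
  · rintro ⟨j, s⟩
    have h1 := hr j
    have h2 := s.2
    simp only
    omega
  · intro u
    have key : psi (fun i => (D.1 * (v i).1 + E.1 * (v i).2, D.2 * (v i).1 + E.2 * (v i).2))
        (fun p : Σ j : σ, Fin ((r j).2.1 + (r j).2.2 + 1) =>
          ((r p.1).1, (p.2 : ℕ), (r p.1).2.1 + (r p.1).2.2 - p.2))
        (fun p => c p.1 * (Pool.Agent.TH552.BB.G ((r p.1).2.1 + (r p.1).2.2) ![D.1, D.2, E.1, E.2]
          (r p.1).2.1).coeff p.2) u = psi v r c (lin D u, lin E u) := by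
      unfold psi
      rw [Fintype.sum_sigma]
      refine sum_congr rfl fun j _ => ?_
      have h1 := Pool.Agent.TH552.BB.hom_qq (n := (r j).2.1 + (r j).2.2) (k := (r j).2.1)
        (l := (r j).2.2) rfl D E u
      unfold qq at h1
      simp only
      have h2 : ∀ s : Fin ((r j).2.1 + (r j).2.2 + 1),
          (s : ℕ) + ((r j).2.1 + (r j).2.2 - s) = (r j).2.1 + (r j).2.2 := by
        intro s
        have := s.2
        omega
      have h3 : u.1 * (D.1 * (v (r j).1).1 + E.1 * (v (r j).1).2) +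
          u.2 * (D.2 * (v (r j).1).1 + E.2 * (v (r j).1).2) =
          lin D u * (v (r j).1).1 + lin E u * (v (r j).1).2 := by
        unfold lin
        ring
      rw [h1, h3, mul_sum, map_sum, sum_mul, sum_mul]
      refine sum_congr rfl fun s _ => ?_
      rw [h2, mul_assoc (c j)]
    rw [key]
    exact hP _

end

end Pool.Agent.V8H84.GL
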