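import Pool.Agent.V8H84.GL.Open
import Pool.Agent.TH698.NagT3

/-! Cutting triangles into small triangles: near-uniform systems with four and nine points in the
critical degrees. -/

namespace Pool.Agent.V8H84.GL

open Finset Module Pool.Agent.TH176.Nag Pool.Agent.TH603.Sur Pool.Agent.TH763.DB
open Pool.Agent.TH641.UM Pool.Agent.TH2.NU Pool.Agent.H932R3 Pool.Agent.TH698.NagT3

/-- a triangle with the right angle at `(a, b)` and side `k` -/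
def Tri (a b : ℤ) (k : ℕ) : Set (ℤ × ℤ) := {p | a ≤ p.1 ∧ b ≤ p.2 ∧ p.1 + p.2 < a + b + k}

/-- the opposite triangle -/
def Inv (a b : ℤ) (k : ℕ) : Set (ℤ × ℤ) := {p | p.1 ≤ a ∧ p.2 ≤ b ∧ a + b < p.1 + p.2 + k}

theorem Emp_Tri (a b : ℤ) (k : ℕ) : Emp (fun _ : Unit => k) (Tri a b k) := by
  refine (Emp_rows (fun _ : Unit => k) 0).comap 1 0 0 1 (-a) (-b) (by norm_num) ?_
  rintro ⟨p, q⟩ ⟨h1, h2, h3⟩
  simp only at h1 h2 h3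
  refine ⟨?_, ?_, ?_⟩
  · simp only
    omega
  · simp only
    omega
  · simp only [univ_unique, sum_singleton]
    omega

theorem Emp_Inv (a b : ℤ) (k : ℕ) : Emp (fun _ : Unit => k) (Inv a b k) := by
  refine (Emp_rows (fun _ : Unit => k) 0).comap (-1) 0 0 (-1) a b (by norm_num) ?_
  rintro ⟨p, q⟩ ⟨h1, h2, h3⟩
  simp only at h1 h2 h3
  refine ⟨?_, ?_, ?_⟩
  · simp only
    omega
  · simp only
    omega
  · simp only [univ_unique, sum_singleton]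
    omega

theorem ms_unit (k : ℕ) : ms (fun _ : Unit => k) = {k} := by
  rw [ms_const]
  simp

theorem M_Tri (a b : ℤ) (k : ℕ) : EmpM {k} (Tri a b k) :=
  (EmpM_iff (ms_unit k) _).2 (Emp_Tri a b k)

theorem M_Inv (a b : ℤ) (k : ℕ) : EmpM {k} (Inv a b k) :=
  (EmpM_iff (ms_unit k) _).2 (Emp_Inv a b k)

/-- the first quadrant up to the degree `d` -/
theorem fin_of_le {S : Set (ℤ × ℤ)} {d : ℕ} (h : S ⊆ TZ d) : S.Finite := (TZ_finite d).subset h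

theorem EmpM_cut {M M' : Multiset ℕ} {S T U : Set (ℤ × ℤ)} {d : ℕ} (hU : U ⊆ TZ d) (a b : ℤ)
    (hSU : S ⊆ U) (hTU : T ⊆ U) (hcov : ∀ p ∈ U, p ∈ S ∨ p ∈ T)
    (hcut : ∀ m ∈ S, ∀ m' ∈ T, a * m.1 + b * m.2 < a * m'.1 + b * m'.2)
    (h1 : EmpM M S) (h2 : EmpM M' T) : EmpM (M + M') U := by
  have e : ms (Sum.elim (fun i : Fin M.toList.length => M.toList.get i)
      fun i : Fin M'.toList.length => M'.toList.get i) = M + M' := by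
    rw [ms_sum, ms_toList, ms_toList]
  rw [EmpM_iff e]
  refine (Emp_cut (fin_of_le (hSU.trans hU)) (fin_of_le (hTU.trans hU))
    (fun m hm => ⟨(hU (hSU hm)).1, (hU (hSU hm)).2.1⟩)
    (fun m hm => ⟨(hU (hTU hm)).1, (hU (hTU hm)).2.1⟩) a b hcut h1 h2).mono fun p hp => hcov p hp

/-- a triangle cut into four triangles -/
theorem four_gen {d r t s : ℕ} (h : t + s ≤ d + 2) (hr : r + 1 ≤ t + s) (ht : 1 ≤ t) (hs : 1 ≤ s)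
    (htd : t ≤ d + 1) (hsd : s ≤ d + 1) :
    EmpM ({r} + {t + s - 1 - r} + {d + 1 - s} + {d + 1 - t}) (TZ d) := by
  have h1 : EmpM ({r} + {t + s - 1 - r}) {p | 0 ≤ p.1 ∧ 0 ≤ p.2 ∧ p.1 < t ∧ p.2 < s} := by
    refine EmpM_cut (d := d) ?_ 1 1 (S := {p | p ∈ Tri 0 0 r ∧ p.1 < t ∧ p.2 < s})
      (T := {p | p ∈ Inv (t - 1) (s - 1) (t + s - 1 - r) ∧ 0 ≤ p.1 ∧ 0 ≤ p.2}) ?_ ?_ ?_ ?_
      ((M_Tri _ _ _).mono_set fun p hp => hp.1) ((M_Inv _ _ _).mono_set fun p hp => hp.1)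
    · rintro ⟨p, q⟩ ⟨h1, h2, h3, h4⟩
      simp only at h1 h2 h3 h4
      refine ⟨h1, h2, ?_⟩
      simp only
      omega
    · rintro ⟨p, q⟩ ⟨⟨h1, h2, h3⟩, h4, h5⟩
      exact ⟨h1, h2, h4, h5⟩
    · rintro ⟨p, q⟩ ⟨⟨h1, h2, h3⟩, h4, h5⟩
      simp only at h1 h2 h3 h4 h5
      refine ⟨h4, h5, ?_, ?_⟩ <;> simp only <;> omega
    · rintro ⟨p, q⟩ ⟨h1, h2, h3, h4⟩
      simp only at h1 h2 h3 h4
      rcases lt_or_ge (p + q) r with h | h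
      · left
        refine ⟨⟨h1, h2, ?_⟩, h3, h4⟩
        simp only
        omega
      · right
        refine ⟨⟨?_, ?_, ?_⟩, h1, h2⟩ <;> simp only <;> omega
    · rintro ⟨p, q⟩ ⟨⟨h1, h2, h3⟩, h7, h8⟩ ⟨p', q'⟩ ⟨⟨h4, h5, h6⟩, h9, h10⟩
      simp only at h1 h2 h3 h4 h5 h6 h7 h8 h9 h10 ⊢
      omega
  have h2 : EmpM ({r} + {t + s - 1 - r} + {d + 1 - s})
      {p | 0 ≤ p.1 ∧ 0 ≤ p.2 ∧ p.1 < t ∧ p.1 + p.2 ≤ d} := by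
    refine EmpM_cut (d := d) ?_ 0 1 (S := {p | 0 ≤ p.1 ∧ 0 ≤ p.2 ∧ p.1 < t ∧ p.2 < s})
      (T := {p | p ∈ Tri 0 s (d + 1 - s) ∧ p.1 < t}) ?_ ?_ ?_ ?_ h1
      ((M_Tri _ _ _).mono_set fun p hp => hp.1)
    · rintro ⟨p, q⟩ ⟨h1, h2, h3, h4⟩
      exact ⟨h1, h2, h4⟩
    · rintro ⟨p, q⟩ ⟨h1, h2, h3, h4⟩
      simp only at h1 h2 h3 h4
      refine ⟨h1, h2, h3, ?_⟩
      simp only
      omega
    · rintro ⟨p, q⟩ ⟨⟨h1, h2, h3⟩, h4⟩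
      simp only at h1 h2 h3 h4
      refine ⟨?_, ?_, ?_, ?_⟩ <;> simp only <;> omega
    · rintro ⟨p, q⟩ ⟨h1, h2, h3, h4⟩
      simp only at h1 h2 h3 h4
      rcases lt_or_ge q s with h | h
      · left
        exact ⟨h1, h2, h3, h⟩
      · right
        refine ⟨⟨h1, h, ?_⟩, h3⟩
        simp only
        omega
    · rintro ⟨p, q⟩ ⟨h1, h2, h3, h4⟩ ⟨p', q'⟩ ⟨⟨h5, h6, h7⟩, h8⟩
      simp only at h1 h2 h3 h4 h5 h6 h7 ⊢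
      omega
  refine EmpM_cut (d := d) (le_refl _) 1 0
    (S := {p | 0 ≤ p.1 ∧ 0 ≤ p.2 ∧ p.1 < t ∧ p.1 + p.2 ≤ d})
    (T := Tri t 0 (d + 1 - t)) ?_ ?_ ?_ ?_ h2 (M_Tri _ _ _)
  · rintro ⟨p, q⟩ ⟨h1, h2, h3, h4⟩
    exact ⟨h1, h2, h4⟩
  · rintro ⟨p, q⟩ ⟨h1, h2, h3⟩
    simp only at h1 h2 h3
    refine ⟨?_, ?_, ?_⟩ <;> simp only <;> omega
  · rintro ⟨p, q⟩ ⟨h1, h2, h3⟩
    simp only at h1 h2 h3
    rcases lt_or_ge p t with h | h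
    · left
      exact ⟨h1, h2, h, h3⟩
    · right
      refine ⟨h, h2, ?_⟩
      simp only
      omega
  · rintro ⟨p, q⟩ ⟨h1, h2, h3, h4⟩ ⟨p', q'⟩ ⟨h5, h6, h7⟩
    simp only at h1 h2 h3 h4 h5 h6 h7 ⊢
    omega

/-- `(2 m; m + 1, m, m, m)` -/
theorem four_a (m : ℕ) : EmpM ({m + 1} + {m} + {m} + {m}) (TZ (2 * m)) := by
  have h := four_gen (d := 2 * m) (r := m + 1) (t := m + 1) (s := m + 1) (by omega) (by omega)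
    (by omega) (by omega) (by omega) (by omega)
  have e1 : m + 1 + (m + 1) - 1 - (m + 1) = m := by omega
  have e2 : 2 * m + 1 - (m + 1) = m := by omega
  rwa [e1, e2] at h

/-- `(2 m + 1; m + 1, m, m + 1, m + 1)` -/
theorem four_b (m : ℕ) : EmpM ({m + 1} + {m} + {m + 1} + {m + 1}) (TZ (2 * m + 1)) := by
  have h := four_gen (d := 2 * m + 1) (r := m + 1) (t := m + 1) (s := m + 1) (by omega) (by omega)
    (by omega) (by omega) (by omega) (by omega)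
  have e1 : m + 1 + (m + 1) - 1 - (m + 1) = m := by omega
  have e2 : 2 * m + 1 + 1 - (m + 1) = m + 1 := by omega
  rwa [e1, e2] at h

/-- the upper part of a triangle cut into nine triangles -/
theorem up_gen {m x d : ℕ} (h1 : x + m ≤ d) (h2 : d ≤ x + m + 1) (hx : 2 * m ≤ x) :
    EmpM ({m} + ({m} + {d - 2 * m - 1}))
      {p | 0 ≤ p.1 ∧ 0 ≤ p.2 ∧ p.1 ≤ x ∧ p.2 ≤ x ∧ x < p.1 + p.2 ∧ p.1 + p.2 ≤ d} := by
  have k1 : EmpM ({m} + {d - 2 * m - 1})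
      {p | 0 ≤ p.1 ∧ (m : ℤ) < p.2 ∧ p.1 ≤ x ∧ p.2 ≤ x ∧ x < p.1 + p.2 ∧ p.1 + p.2 ≤ d} := by
    refine EmpM_cut (d := d) ?_ 1 0 (S := {p | p ∈ Inv m x m ∧ 0 ≤ p.1 ∧ (m : ℤ) < p.2})
      (T := {p | p ∈ Tri (m + 1) (m + 1) (d - 2 * m - 1) ∧ x < p.1 + p.2 ∧ p.1 + p.2 ≤ d}) ?_ ?_ ?_ ?_
      ((M_Inv _ _ _).mono_set fun p hp => hp.1) ((M_Tri _ _ _).mono_set fun p hp => hp.1)
    · rintro ⟨p, q⟩ ⟨h1, h2, h3, h4, h5, h6⟩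
      simp only at h1 h2 h3 h4 h5 h6
      refine ⟨h1, ?_, h6⟩
      simp only
      omega
    · rintro ⟨p, q⟩ ⟨⟨h1, h2, h3⟩, h4, h5⟩
      simp only at h1 h2 h3 h4 h5
      refine ⟨h4, h5, ?_, ?_, ?_, ?_⟩ <;> simp only <;> omega
    · rintro ⟨p, q⟩ ⟨⟨h1, h2, h3⟩, h4, h5⟩
      simp only at h1 h2 h3 h4 h5
      refine ⟨?_, ?_, ?_, ?_, h4, h5⟩ <;> simp only <;> omega
    · rintro ⟨p, q⟩ ⟨h1, h2, h3, h4, h5, h6⟩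
      simp only at h1 h2 h3 h4 h5 h6
      rcases le_or_gt p m with h | h
      · left
        refine ⟨⟨h, h4, ?_⟩, h1, h2⟩
        simp only
        omega
      · right
        refine ⟨⟨?_, ?_, ?_⟩, h5, h6⟩ <;> simp only <;> omega
    · rintro ⟨p, q⟩ ⟨⟨h1, h2, h3⟩, h7, h8⟩ ⟨p', q'⟩ ⟨⟨h4, h5, h6⟩, h9, h10⟩
      simp only at h1 h2 h3 h4 h5 h6 h7 h8 h9 h10 ⊢
      omega
  refine EmpM_cut (d := d) ?_ 0 1 (S := {p | p ∈ Inv x m m ∧ 0 ≤ p.1 ∧ 0 ≤ p.2})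
    (T := {p | 0 ≤ p.1 ∧ (m : ℤ) < p.2 ∧ p.1 ≤ x ∧ p.2 ≤ x ∧ x < p.1 + p.2 ∧ p.1 + p.2 ≤ d}) ?_ ?_ ?_ ?_
    ((M_Inv _ _ _).mono_set fun p hp => hp.1) k1
  · rintro ⟨p, q⟩ ⟨h1, h2, h3, h4, h5, h6⟩
    exact ⟨h1, h2, h6⟩
  · rintro ⟨p, q⟩ ⟨⟨h1, h2, h3⟩, h4, h5⟩
    simp only at h1 h2 h3 h4 h5
    refine ⟨h4, h5, ?_, ?_, ?_, ?_⟩ <;> simp only <;> omega
  · rintro ⟨p, q⟩ ⟨h1, h2, h3, h4, h5, h6⟩
    simp only at h1 h2 h3 h4 h5 h6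
    refine ⟨h1, ?_, h3, h4, h5, h6⟩
    simp only
    omega
  · rintro ⟨p, q⟩ ⟨h1, h2, h3, h4, h5, h6⟩
    simp only at h1 h2 h3 h4 h5 h6
    rcases le_or_gt q m with h | h
    · left
      refine ⟨⟨h3, h, ?_⟩, h1, h2⟩
      simp only
      omega
    · right
      exact ⟨h1, h, h3, h4, h5, h6⟩
  · rintro ⟨p, q⟩ ⟨⟨h1, h2, h3⟩, h7, h8⟩ ⟨p', q'⟩ ⟨h4, h5, h6, h9, h10, h11⟩
    simp only at h1 h2 h3 h4 h5 h6 h7 h8 h9 h10 ⊢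
    omega

/-- a triangle cut into nine triangles -/
theorem nine_gen {m x d : ℕ} {M : Multiset ℕ} (h1 : x + m ≤ d) (h2 : d ≤ x + m + 1) (hx : 2 * m ≤ x)
    (h4 : EmpM M (TZ x)) :
    EmpM (M + ({m} + ({m} + {d - 2 * m - 1})) + {d - x} + {d - x}) (TZ d) := by
  have k1 : EmpM (M + ({m} + ({m} + {d - 2 * m - 1})))
      {p | 0 ≤ p.1 ∧ 0 ≤ p.2 ∧ p.1 ≤ x ∧ p.2 ≤ x ∧ p.1 + p.2 ≤ d} := by
    refine EmpM_cut (d := d) ?_ 1 1 (S := TZ x)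
      (T := {p | 0 ≤ p.1 ∧ 0 ≤ p.2 ∧ p.1 ≤ x ∧ p.2 ≤ x ∧ x < p.1 + p.2 ∧ p.1 + p.2 ≤ d}) ?_ ?_ ?_ ?_
      h4 (up_gen h1 h2 hx)
    · rintro ⟨p, q⟩ ⟨h1, h2, h3, h4, h5⟩
      exact ⟨h1, h2, h5⟩
    · rintro ⟨p, q⟩ ⟨h1, h2, h3⟩
      simp only at h1 h2 h3
      refine ⟨h1, h2, ?_, ?_, ?_⟩ <;> simp only <;> omega
    · rintro ⟨p, q⟩ ⟨h1, h2, h3, h4, h5, h6⟩
      exact ⟨h1, h2, h3, h4, h6⟩
    · rintro ⟨p, q⟩ ⟨h1, h2, h3, h4, h5⟩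
      simp only at h1 h2 h3 h4 h5
      rcases le_or_gt (p + q) x with h | h
      · exact Or.inl ⟨h1, h2, h⟩
      · exact Or.inr ⟨h1, h2, h3, h4, h, h5⟩
    · rintro ⟨p, q⟩ ⟨h1, h2, h3⟩ ⟨p', q'⟩ ⟨h4, h5, h6, h9, h10, h11⟩
      simp only at h1 h2 h3 h4 h5 h6 h9 h10 ⊢
      omega
  have k2 : EmpM (M + ({m} + ({m} + {d - 2 * m - 1})) + {d - x})
      {p | 0 ≤ p.1 ∧ 0 ≤ p.2 ∧ p.1 ≤ x ∧ p.1 + p.2 ≤ d} := by
    refine EmpM_cut (d := d) ?_ 0 1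
      (S := {p | 0 ≤ p.1 ∧ 0 ≤ p.2 ∧ p.1 ≤ x ∧ p.2 ≤ x ∧ p.1 + p.2 ≤ d})
      (T := {p | p ∈ Tri 0 (x + 1) (d - x) ∧ p.1 ≤ x}) ?_ ?_ ?_ ?_ k1
      ((M_Tri _ _ _).mono_set fun p hp => hp.1)
    · rintro ⟨p, q⟩ ⟨h1, h2, h3, h4⟩
      exact ⟨h1, h2, h4⟩
    · rintro ⟨p, q⟩ ⟨h1, h2, h3, h4, h5⟩
      exact ⟨h1, h2, h3, h5⟩
    · rintro ⟨p, q⟩ ⟨⟨h1, h2, h3⟩, h4⟩
      simp only at h1 h2 h3 h4
      refine ⟨?_, ?_, ?_, ?_⟩ <;> simp only <;> omega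
    · rintro ⟨p, q⟩ ⟨h1, h2, h3, h4⟩
      simp only at h1 h2 h3 h4
      rcases le_or_gt q x with h | h
      · exact Or.inl ⟨h1, h2, h3, h, h4⟩
      · right
        refine ⟨⟨h1, h, ?_⟩, h3⟩
        simp only
        omega
    · rintro ⟨p, q⟩ ⟨h1, h2, h3, h4, h5⟩ ⟨p', q'⟩ ⟨⟨h6, h7, h8⟩, h9⟩
      simp only at h1 h2 h3 h4 h5 h6 h7 h8 h9 ⊢
      omega
  refine EmpM_cut (d := d) (le_refl _) 1 0
    (S := {p | 0 ≤ p.1 ∧ 0 ≤ p.2 ∧ p.1 ≤ x ∧ p.1 + p.2 ≤ d})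
    (T := Tri (x + 1) 0 (d - x)) ?_ ?_ ?_ ?_ k2 (M_Tri _ _ _)
  · rintro ⟨p, q⟩ ⟨h1, h2, h3, h4⟩
    exact ⟨h1, h2, h4⟩
  · rintro ⟨p, q⟩ ⟨h1, h2, h3⟩
    simp only at h1 h2 h3
    refine ⟨?_, ?_, ?_⟩ <;> simp only <;> omega
  · rintro ⟨p, q⟩ ⟨h1, h2, h3⟩
    simp only at h1 h2 h3
    rcases le_or_gt p x with h | h
    · left
      exact ⟨h1, h2, h, h3⟩
    · right
      refine ⟨h, h2, ?_⟩
      simp only
      omega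
  · rintro ⟨p, q⟩ ⟨h1, h2, h3, h4⟩ ⟨p', q'⟩ ⟨h5, h6, h7⟩
    simp only at h1 h2 h3 h4 h5 h6 h7 ⊢
    omega

/-- `(3 m + 1; (m + 1)^3, m^6)` -/
theorem nine_a (m : ℕ) : EmpM (3 • {m + 1} + 6 • {m}) (TZ (3 * m + 1)) := by
  have h := nine_gen (m := m) (x := 2 * m) (d := 3 * m + 1) (by omega) (by omega) (by omega)
    (four_a m)
  have e1 : 3 * m + 1 - 2 * m - 1 = m := by omega
  have e2 : 3 * m + 1 - 2 * m = m + 1 := by omega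
  rw [e1, e2] at h
  have e3 : ({m + 1} + {m} + {m} + {m} + ({m} + ({m} + {m})) + {m + 1} + {m + 1} : Multiset ℕ) =
      3 • {m + 1} + 6 • {m} := by
    simp only [succ_nsmul, zero_nsmul]
    abel
  rwa [e3] at h

/-- `(3 m + 2; (m + 1)^6, m^3)` -/
theorem nine_b (m : ℕ) : EmpM (6 • {m + 1} + 3 • {m}) (TZ (3 * m + 2)) := by
  have h := nine_gen (m := m) (x := 2 * m + 1) (d := 3 * m + 2) (by omega) (by omega) (by omega)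
    (four_b m)
  have e1 : 3 * m + 2 - 2 * m - 1 = m + 1 := by omega
  have e2 : 3 * m + 2 - (2 * m + 1) = m + 1 := by omega
  rw [e1, e2] at h
  have e3 : ({m + 1} + {m} + {m + 1} + {m + 1} + ({m} + ({m} + {m + 1})) + {m + 1} + {m + 1} :
      Multiset ℕ) = 6 • {m + 1} + 3 • {m} := by
    simp only [succ_nsmul, zero_nsmul]
    abel
  rwa [e3] at h

end Pool.Agent.V8H84.GL
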