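import Pool.Agent.V8H84.GL.Main

/-! Superposition: all points of a base vector are replaced by clusters. -/

namespace Pool.Agent.V8H84.GL

open Finset Module Pool.Agent.TH176.Nag Pool.Agent.TH603.Sur Pool.Agent.TH763.DB
open Pool.Agent.TH641.UM Pool.Agent.TH2.NU

/-- emptiness or independence in degree `d` -/
def ND (M : Multiset ℕ) (d : ℕ) : Prop := EmpM M (TZ d) ∨ SurM M (TZ d)

theorem ND_iff {ι : Type} [Fintype ι] {w : ι → ℕ} {M : Multiset ℕ} (h : ms w = M) (d : ℕ) :
    ND M d ↔ (Emp w (TZ d) ∨ Sur w (TZ d)) := by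
  unfold ND
  rw [EmpM_iff h, SurM_iff h]

theorem glueM {R M : Multiset ℕ} {b d : ℕ} (h1 : EmpM R (↑(Lo b) : Set (ℤ × ℤ)))
    (h2 : SurM R (TZ b)) (h3 : ND ({b} + M) d) (h4 : ND ({b + 1} + M) d) : ND (R + M) d := by
  have e : ∀ c : ℕ, ms (Sum.elim (fun _ : Unit => c) fun i : Fin M.toList.length => M.toList.get i) =
      {c} + M := by
    intro c
    rw [ms_sum, ms_toList, ms_const]
    simp
  rw [ND_iff (e b)] at h3
  rw [ND_iff (e (b + 1))] at h4
  have e2 : ms (Sum.elim (fun i : Fin R.toList.length => R.toList.get i)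
      fun i : Fin M.toList.length => M.toList.get i) = R + M := by
    rw [ms_sum, ms_toList, ms_toList]
  rw [ND_iff e2]
  exact glue h1 h2 h3 h4

/-- **Superposition.** -/
theorem superpose {ι σ : Type} [Fintype ι] [Fintype σ] [DecidableEq σ] {w : ι → ℕ} (g : ι → σ)
    {b : σ → ℕ} {d : ℕ}
    (hR : ∀ j, Emp (fun i : {i // g i = j} => w i) (↑(Lo (b j)) : Set (ℤ × ℤ)) ∧
      Sur (fun i : {i // g i = j} => w i) (TZ (b j)))
    (hbase : ∀ u : σ → ℕ, (∀ j, u j = b j ∨ u j = b j + 1) → Emp u (TZ d) ∨ Sur u (TZ d)) :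
    Emp w (TZ d) ∨ Sur w (TZ d) := by
  have key : ∀ A : Finset σ, ∀ u : σ → ℕ, (∀ j, u j = b j ∨ u j = b j + 1) →
      ND (∑ j ∈ A, ms (fun i : {i // g i = j} => w i) + ∑ j ∈ Aᶜ, ({u j} : Multiset ℕ)) d := by
    intro A
    induction A using Finset.induction_on with
    | empty =>
      intro u hu
      rw [sum_empty, zero_add, compl_empty]
      exact (ND_iff rfl d).2 (hbase u hu)
    | insert a A ha ih =>
      intro u hu
      have hac : a ∈ Aᶜ := mem_compl.2 ha
      have e1 : ∀ c : ℕ, ∑ j ∈ Aᶜ, ({Function.update u a c j} : Multiset ℕ) =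
          {c} + ∑ j ∈ (insert a A)ᶜ, ({u j} : Multiset ℕ) := by
        intro c
        rw [← add_sum_erase _ _ hac, Function.update_self]
        congr 1
        have e2 : Aᶜ.erase a = (insert a A)ᶜ := by
          ext x
          simp only [mem_erase, mem_compl, mem_insert, not_or]
        rw [e2]
        refine sum_congr rfl fun j hj => ?_
        rw [Function.update_of_ne]
        rintro rfl
        simp at hj
      have h3 : ∀ c : ℕ, (c = b a ∨ c = b a + 1) → ND ({c} + (∑ j ∈ A, ms (fun i : {i // g i = j} => w i) +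
          ∑ j ∈ (insert a A)ᶜ, ({u j} : Multiset ℕ))) d := by
        intro c hc
        have h4 := ih (Function.update u a c) (by
          intro j
          by_cases hj : j = a
          · subst hj
            rw [Function.update_self]
            exact hc
          · rw [Function.update_of_ne hj]
            exact hu j)
        rw [e1 c] at h4
        have e3 : ∑ j ∈ A, ms (fun i : {i // g i = j} => w i) +
            ({c} + ∑ j ∈ (insert a A)ᶜ, ({u j} : Multiset ℕ)) =
            {c} + (∑ j ∈ A, ms (fun i : {i // g i = j} => w i) +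
              ∑ j ∈ (insert a A)ᶜ, ({u j} : Multiset ℕ)) := by abel
        rw [e3] at h4
        exact h4
      rw [sum_insert ha, add_assoc]
      refine glueM (b := b a) ?_ ?_ (h3 _ (Or.inl rfl)) (h3 _ (Or.inr rfl))
      · exact (EmpM_ms _ _).2 (hR a).1
      · exact (SurM_ms _ _).2 (hR a).2
  have h1 := key univ b (fun j => Or.inl rfl)
  rw [compl_univ, sum_empty, add_zero] at h1
  have e : ms w = ∑ j, ms (fun i : {i // g i = j} => w i) := by
    unfold ms
    rw [← Fintype.sum_sigma (fun x : Σ j, {i // g i = j} => ({w x.2} : Multiset ℕ))]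
    exact (Fintype.sum_equiv (Equiv.sigmaFiberEquiv g) _ _ (fun x => rfl)).symm
  exact (ND_iff e d).1 h1

/-- points of multiplicity zero can be dropped -/
theorem Emp_drop {ι κ : Type} {w : ι → ℕ} {v : κ → ℕ} {S : Set (ℤ × ℤ)} (g : ι → κ)
    (h : ∀ j, v j = 0 ∨ ∃ i, g i = j ∧ v j ≤ w i) (hE : Emp v S) : Emp w S := by
  obtain ⟨K, _, _, x, y, hx, hy, hf⟩ := hE
  refine ⟨K, inferInstance, inferInstance, fun i => x (g i), fun i => y (g i), fun i => hx _,
    fun i => hy _, ?_⟩
  intro f hfS hfL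
  refine hf f hfS fun j => ?_
  rcases h j with h0 | ⟨i, rfl, hi⟩
  · rw [h0]
    intro P hP
    have h1 : PF K 0 = ⊥ := by
      unfold PF
      rw [Submodule.span_eq_bot]
      rintro P ⟨a, b, hab, -⟩
      omega
    rw [h1, Submodule.mem_bot] at hP
    rw [hP]
    exact pr_zero_right f _ _
  · exact (hfL i).mono hi

theorem fiber_Emp {ι σ : Type} [DecidableEq σ] {w : ι → ℕ} (g : ι → σ) (j : σ) {S : Set (ℤ × ℤ)}
    (h : Emp (fun i => if g i = j then w i else 0) S) : Emp (fun i : {i // g i = j} => w i) S := by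
  refine Emp_drop (fun i : {i // g i = j} => (i : ι)) ?_ h
  intro i
  by_cases hi : g i = j
  · right
    exact ⟨⟨i, hi⟩, rfl, by rw [if_pos hi]⟩
  · left
    rw [if_neg hi]

theorem fiber_cond {ι σ : Type} [Fintype ι] [DecidableEq σ] {w : ι → ℕ} (g : ι → σ) (j : σ) :
    cond (fun i => if g i = j then w i else 0) = cond (fun i : {i // g i = j} => w i) := by
  unfold Pool.Agent.TH603.Sur.cond
  rw [← sum_subtype (univ.filter fun i => g i = j) (fun i => by simp)
    (fun i => (w i + 1).choose 2), sum_filter]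
  refine sum_congr rfl fun i _ => ?_
  by_cases hi : g i = j
  · simp only [if_pos hi]
  · simp only [if_neg hi]
    simp

theorem fiber_Sur {ι σ : Type} [Fintype ι] [DecidableEq σ] {w : ι → ℕ} (g : ι → σ) (j : σ)
    {S : Set (ℤ × ℤ)}
    (h : Sur (fun i => if g i = j then w i else 0) S) : Sur (fun i : {i // g i = j} => w i) S := by
  obtain ⟨T, h1, h2, h3⟩ := h
  refine ⟨T, h1, ?_, fiber_Emp g j h3⟩
  rw [h2, fiber_cond]

end Pool.Agent.V8H84.GL
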