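import Pool.Agent.V8H84.GL.Rows

/-! Transversality of a family of binary forms with a space of vectors, after a general linear
change of the variables. -/

namespace Pool.Agent.V8H84.GL

open Module Pool.Agent.TH552.BB

variable {K : Type} [Field K]

/-- the form `∑ τ k U ^ k V ^ (b - k)` in the linear forms with coefficients `v` -/
noncomputable def GT (b : ℕ) (v : Fin 4 → K) (τ : ℕ → K) : Polynomial K :=
  ∑ k ∈ Finset.range (b + 1), τ k • G b v k

theorem natDegree_GT (b : ℕ) (v : Fin 4 → K) (τ : ℕ → K) : (GT b v τ).natDegree ≤ b := by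
  unfold GT
  refine Polynomial.natDegree_sum_le_of_forall_le _ _ fun k hk => ?_
  have := Finset.mem_range.1 hk
  exact (Polynomial.natDegree_smul_le _ _).trans (natDegree_G _ _ (by omega))

theorem single_poly [CharZero K] {b r : ℕ} (τ : Fin r → ℕ → K)
    (hτ : ∀ α : Fin r → K, (∀ k ≤ b, ∑ i, α i * τ i k = 0) → α = 0)
    (β : Fin r → Fin (b + 1) → K) (hβ : LinearIndependent K β) :
    ∃ v : Fin 4 → K, v 0 * v 3 - v 1 * v 2 ≠ 0 ∧
      (Matrix.of fun i j : Fin r => pair (GT b v (τ i)) (β j)).det ≠ 0 := by
  classical
  -- the annihilator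
  let M : Matrix (Fin r) (Fin (b + 1)) K := Matrix.of β
  let e : (Fin (b + 1) → K) →ₗ[K] Polynomial K :=
    { toFun := fun w => ∑ a : Fin (b + 1), w a • Polynomial.X ^ (a : ℕ)
      map_add' := by
        intro w w'
        rw [← Finset.sum_add_distrib]
        exact Finset.sum_congr rfl fun a _ => by rw [Pi.add_apply, add_smul]
      map_smul' := by
        intro c w
        rw [RingHom.id_apply, Finset.smul_sum]
        exact Finset.sum_congr rfl fun a _ => by rw [Pi.smul_apply, smul_assoc] }
  have he : ∀ w, e w = ∑ a : Fin (b + 1), w a • Polynomial.X ^ (a : ℕ) := fun w => rfl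
  have hec : ∀ (w : Fin (b + 1) → K) (a : Fin (b + 1)), (e w).coeff a = w a := by
    intro w a
    rw [he, Polynomial.finsetSum_coeff, Finset.sum_eq_single a]
    · rw [Polynomial.coeff_smul, Polynomial.coeff_X_pow, if_pos rfl, smul_eq_mul, mul_one]
    · intro b _ hb
      rw [Polynomial.coeff_smul, Polynomial.coeff_X_pow, if_neg, smul_zero]
      intro h
      exact hb (Fin.ext h.symm)
    · intro h
      exact absurd (Finset.mem_univ _) h
  have hrb : r ≤ b + 1 := by
    have h1 := hβ.fintype_card_le_finrank
    rwa [Fintype.card_fin, finrank_fin_fun] at h1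
  have hed : ∀ w, (e w).natDegree ≤ b := by
    intro w
    rw [he]
    refine Polynomial.natDegree_sum_le_of_forall_le _ _ fun a _ => ?_
    refine (Polynomial.natDegree_smul_le _ _).trans ?_
    rw [Polynomial.natDegree_X_pow]
    have := a.2
    omega
  have hrank : M.rank = r := by
    have h1 : LinearIndependent K M.row := hβ
    rw [h1.rank_matrix, Fintype.card_fin]
  -- the polynomials of the family
  let g : Fin r → Polynomial K := fun i => ∑ k ∈ Finset.range (b + 1), Polynomial.monomial k (τ i k)
  have hgd : ∀ i, (g i).natDegree ≤ b := by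
    intro i
    refine Polynomial.natDegree_sum_le_of_forall_le _ _ fun k hk => ?_
    refine (Polynomial.natDegree_monomial_le _).trans ?_
    have := Finset.mem_range.1 hk
    omega
  have hgc : ∀ i k, k ≤ b → (g i).coeff k = τ i k := by
    intro i k hk
    simp only [g]
    rw [Polynomial.finsetSum_coeff, Finset.sum_eq_single k]
    · rw [Polynomial.coeff_monomial, if_pos rfl]
    · intro l _ hl
      rw [Polynomial.coeff_monomial, if_neg hl]
    · intro h
      exact absurd (Finset.mem_range.2 (by omega)) h
  let A : Submodule K (Polynomial K) := (LinearMap.ker M.mulVecLin).map e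
  let B : Submodule K (Polynomial K) := Submodule.span K (Set.range g)
  have hdA : finrank K A ≤ b + 1 - r := by
    refine (Submodule.finrank_map_le _ _).trans ?_
    have h1 := LinearMap.finrank_range_add_finrank_ker M.mulVecLin
    rw [finrank_fin_fun] at h1
    have h2 : finrank K (LinearMap.range M.mulVecLin) = r := hrank
    omega
  have hdB : finrank K B ≤ r := by
    have h1 := finrank_range_le_card (R := K) g
    rwa [Fintype.card_fin] at h1
  have hBdeg : ∀ q ∈ B, q.natDegree ≤ b := by
    intro q hq
    rw [Submodule.mem_span_range_iff_exists_fun] at hq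
    obtain ⟨α, rfl⟩ := hq
    refine Polynomial.natDegree_sum_le_of_forall_le _ _ fun a _ => ?_
    exact (Polynomial.natDegree_smul_le _ _).trans (hgd a)
  obtain ⟨c, c', u, hu, H⟩ := transversal (D := b) A B
    (by rintro _ ⟨w, -, rfl⟩; exact hed w) hBdeg (by omega)
  obtain ⟨v, hv⟩ : ∃ v : Fin 4 → K, v = ![c', u - c * c', 1, -c] := ⟨_, rfl⟩
  refine ⟨v, ?_, fun hdet => ?_⟩
  · rw [hv]
    simp only [Matrix.cons_val_zero, Matrix.cons_val_one, Matrix.cons_val]
    intro h0
    apply hu
    linear_combination -h0
  obtain ⟨α, hα0, hα⟩ := Matrix.exists_vecMul_eq_zero_iff.2 hdet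
  apply hα0
  -- the polynomials
  obtain ⟨q, hq⟩ : ∃ q : Polynomial K, q = ∑ i : Fin r, α i • g i := ⟨_, rfl⟩
  obtain ⟨p, hp⟩ : ∃ p : Polynomial K, p = ∑ i : Fin r, α i • GT b v (τ i) :=
    ⟨_, rfl⟩
  have hpd : p.natDegree ≤ b := by
    rw [hp]
    refine Polynomial.natDegree_sum_le_of_forall_le _ _ fun a _ => ?_
    exact (Polynomial.natDegree_smul_le _ _).trans (natDegree_GT _ _ _)
  have hqB : q ∈ B := by
    rw [hq, Submodule.mem_span_range_iff_exists_fun]
    exact ⟨α, rfl⟩
  have hpA : p ∈ A := by
    refine ⟨fun a => p.coeff a, ?_, ?_⟩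
    · rw [SetLike.mem_coe, LinearMap.mem_ker, Matrix.mulVecLin_apply]
      funext j
      have h1 := congrFun hα j
      rw [Matrix.vecMul, dotProduct] at h1
      rw [Matrix.mulVec, dotProduct]
      rw [Pi.zero_apply] at h1 ⊢
      rw [← h1]
      simp only [Matrix.of_apply, M]
      unfold pair
      rw [hp]
      simp only [Polynomial.finsetSum_coeff, Polynomial.coeff_smul, smul_eq_mul, Finset.mul_sum]
      rw [Finset.sum_comm]
      refine Finset.sum_congr rfl fun i _ => Finset.sum_congr rfl fun a _ => ?_
      ring
    · ext a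
      by_cases ha : a ≤ b
      · exact hec _ ⟨a, by omega⟩
      · rw [Polynomial.coeff_eq_zero_of_natDegree_lt (by have := hed fun a => p.coeff a; omega),
          Polynomial.coeff_eq_zero_of_natDegree_lt (by omega)]
  have key : Polynomial.taylor c p = sw (b) u (Polynomial.taylor c' q) := by
    have hq' : (Polynomial.taylor c' q).natDegree ≤ b := by
      rw [Polynomial.natDegree_taylor]
      exact hBdeg q hqB
    have h0 : Polynomial.X * (Polynomial.taylor c p -
        sw (b) u (Polynomial.taylor c' q)) = 0 := by
      apply Polynomial.funext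
      intro x
      rw [Polynomial.eval_mul, Polynomial.eval_X, Polynomial.eval_zero]
      rcases eq_or_ne x 0 with rfl | hx
      · rw [zero_mul]
      rw [Polynomial.eval_sub, eval_sw hx hq', Polynomial.taylor_eval, Polynomial.taylor_eval,
        hp, hq, Polynomial.eval_finsetSum, Polynomial.eval_finsetSum, Finset.mul_sum,
        ← Finset.sum_sub_distrib]
      rw [mul_eq_zero]
      right
      apply Finset.sum_eq_zero
      intro i _
      unfold GT
      simp only [g]
      rw [Polynomial.eval_smul, Polynomial.eval_smul, Polynomial.eval_finsetSum,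
        Polynomial.eval_finsetSum, smul_eq_mul, smul_eq_mul, Finset.mul_sum, Finset.mul_sum,
        Finset.mul_sum, ← Finset.sum_sub_distrib]
      apply Finset.sum_eq_zero
      intro k hk
      have hk : k ≤ b := by
        have := Finset.mem_range.1 hk
        omega
      unfold G
      rw [hv]
      simp only [Polynomial.eval_smul, Polynomial.eval_mul, Polynomial.eval_pow,
        Polynomial.eval_add, Polynomial.eval_C, Polynomial.eval_X, smul_eq_mul,
        Matrix.cons_val_zero, Matrix.cons_val_one, Matrix.cons_val, Polynomial.eval_monomial]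
      have h1 : x ^ (b) = x ^ (b - k) * x ^ k := by rw [← pow_add, Nat.sub_add_cancel hk]
      have h2 : c' * (x + c) + (u - c * c') = x * (u / x + c') := by field_simp; ring
      have h3 : (1 : K) * (x + c) + -c = x := by ring
      rw [h1, h2, h3, mul_pow]
      ring
    rcases mul_eq_zero.1 h0 with h1 | h1
    · exact absurd h1 Polynomial.X_ne_zero
    · exact sub_eq_zero.1 h1
  obtain ⟨-, hq0⟩ := H p hpA q hqB key
  apply hτ
  intro k hk
  have h1 : q.coeff k = ∑ i, α i * τ i k := by
    rw [hq, Polynomial.finsetSum_coeff]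
    refine Finset.sum_congr rfl fun i _ => ?_
    rw [Polynomial.coeff_smul, hgc i k hk, smul_eq_mul]
  rw [← h1, hq0, Polynomial.coeff_zero]

end Pool.Agent.V8H84.GL
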